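import Pool.Agent.CRD.Phi.Fun
import Pool.Agent.CRD.C.Stmts
import Pool.Agent.CRD.G.DefsC
import Pool.Agent.CRD.Lib.Stmts
import Pool.Agent.CRD.Top.T1a

/-!
# CRD, area PHI: statements
-/

open CategoryTheory Opposite Limits Pretriangulated

namespace Pool.CRD.Ph

/-! ### abstract part -/

section Abs

/-- RPR: the objects for which the right adjoint is defined are closed under shifts and
extensions -/
def Stmt_RPR : Prop :=
  ∀ (T : Type 1) [Category.{1} T] [HasZeroObject T] [HasShift T ℤ] [Preadditive T]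
    [∀ (n : ℤ), (shiftFunctor T n).Additive] [Pretriangulated T]
    (T' : Type 1) [Category.{1} T'] [HasZeroObject T'] [HasShift T' ℤ] [Preadditive T']
    [∀ (n : ℤ), (shiftFunctor T' n).Additive] [Pretriangulated T']
    (F : T ⥤ T') [F.CommShift ℤ] [F.IsTriangulated],
    F.rightAdjointObjIsDefined.IsClosedUnderIsomorphisms ∧
    (∀ X (n : ℤ), F.rightAdjointObjIsDefined X → F.rightAdjointObjIsDefined (X⟦n⟧)) ∧
    (∀ Δ ∈ distTriang T', F.rightAdjointObjIsDefined Δ.obj₁ →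
      F.rightAdjointObjIsDefined Δ.obj₃ → F.rightAdjointObjIsDefined Δ.obj₂)

/-- ADN: transport of a natural transformation `𝟭 ⟶ [1]` by a right adjoint -/
def Stmt_ADN : Prop :=
  ∀ (T : Type 1) [Category.{1} T] [HasShift T ℤ]
    (T' : Type 1) [Category.{1} T'] [HasShift T' ℤ]
    (F : T ⥤ T') (G : T' ⥤ T) (adj : F ⊣ G) [F.CommShift ℤ] [G.CommShift ℤ] [adj.CommShift ℤ]
    (c : 𝟭 T ⟶ shiftFunctor T (1 : ℤ)) (c' : 𝟭 T' ⟶ shiftFunctor T' (1 : ℤ)),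
    (∀ N, F.map (c.app N) ≫ (F.commShiftIso (1 : ℤ)).hom.app N = c'.app (F.obj N)) →
    ∀ M, G.map (c'.app M) ≫ (G.commShiftIso (1 : ℤ)).hom.app M = c.app (G.obj M)

/-- CCM: transport of the product of two natural transformations `𝟭 ⟶ [1]` -/
def Stmt_CCM : Prop :=
  ∀ (T : Type 1) [Category.{1} T] [HasShift T ℤ]
    (T' : Type 1) [Category.{1} T'] [HasShift T' ℤ]
    (G : T ⥤ T') [G.CommShift ℤ]
    (c d : 𝟭 T ⟶ shiftFunctor T (1 : ℤ)) (c' d' : 𝟭 T' ⟶ shiftFunctor T' (1 : ℤ)),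
    (∀ M, G.map (c.app M) ≫ (G.commShiftIso (1 : ℤ)).hom.app M = c'.app (G.obj M)) →
    (∀ M, G.map (d.app M) ≫ (G.commShiftIso (1 : ℤ)).hom.app M = d'.app (G.obj M)) →
    ∀ M, G.map (c.app M ≫ (d.app M)⟦(1 : ℤ)⟧' ≫
        (shiftFunctorAdd' T (1 : ℤ) 1 2 rfl).inv.app M) ≫ (G.commShiftIso (2 : ℤ)).hom.app M =
      c'.app (G.obj M) ≫ (d'.app (G.obj M))⟦(1 : ℤ)⟧' ≫
        (shiftFunctorAdd' T' (1 : ℤ) 1 2 rfl).inv.app (G.obj M)

/-- VNC: vanishing of a cyclic functional on `F k` if all `k ⟶ k[2]` factor through `O ⟶ O[2]` -/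
def Stmt_VNC : Prop :=
  ∀ (K : Type) [Field K] (T : Type 1) [Category.{1} T] [HasZeroObject T] [HasShift T ℤ]
    [Preadditive T] [∀ (n : ℤ), (shiftFunctor T n).Additive] [Pretriangulated T] [Linear K T]
    (T' : Type 1) [Category.{1} T'] [HasZeroObject T'] [HasShift T' ℤ] [Preadditive T']
    [∀ (n : ℤ), (shiftFunctor T' n).Additive] [Pretriangulated T'] [Linear K T']
    (F : T ⥤ T') [F.CommShift ℤ] [F.Full] (φ : CycFun K T') (k O : T),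
    (∀ e : k ⟶ k⟦(2 : ℤ)⟧, ∃ (b : O ⟶ k) (a : k ⟶ O⟦(2 : ℤ)⟧), e = a ≫ b⟦(2 : ℤ)⟧') →
    (∀ e : O ⟶ O⟦(2 : ℤ)⟧, φ.φ (F.obj O) (F.map e ≫ (F.commShiftIso (2 : ℤ)).hom.app O) = 0) →
    φ.φ (F.obj k) = 0

/-- KSH: the class of a self-extension and the shift -/
def Stmt_KSH : Prop :=
  ∀ (A : Type 1) [Category.{0} A] [Abelian A] [HasDerivedCategory.{1} A] (s : SelfExt A)
    (X : DerivedCategory A) (n : ℤ),
    s.κ.app (X⟦n⟧) = n.negOnePow • ((s.κ.app X)⟦n⟧' ≫ (shiftComm X (1 : ℤ) n).hom)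

end Abs

/-! ### diagrams -/

section Dia

/-- TWM: composition of twists on `D^b(Coh)`; twists are equivalences -/
def Stmt_TWM : Prop :=
  ∀ (K : Type) [Field K] (C : Type) [SmallCategory C] (R : PAlg K C) [R.Good],
    (∀ (c d : UCoc R), Nonempty (twC c ⋙ twC d ≅ twC (c * d)) ∧
      Nonempty (twB c ⋙ twB d ≅ twB (c * d))) ∧
    Nonempty (twC (1 : UCoc R) ≅ 𝟭 (Coh R)) ∧ Nonempty (twB (1 : UCoc R) ≅ 𝟭 (Db R)) ∧
    ∀ c : UCoc R, (twB c).IsEquivalence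

/-- SGT: twists and coherent modules in degree zero -/
def Stmt_SGT : Prop :=
  ∀ (K : Type) [Field K] (C C' : Type) [SmallCategory C] [SmallCategory C'] (R : PAlg K C)
    (R' : PAlg K C') [R.Good] [R'.Good] (F : Coh R ⥤ Coh R') [ExF F],
    Nonempty (sgB R ⋙ mB F ≅ F ⋙ sgB R')

/-- RKT: additivity of the rank on distinguished triangles, the rank of a coherent module -/
def Stmt_RKT : Prop :=
  ∀ (K : Type) [Field K] (C : Type) [SmallCategory C] (R : PAlg K C) [R.Good] (s : C),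
    IsDomain (R.ring s) →
    (∀ Δ ∈ distTriang (Db R), rkD R s Δ.obj₂ = rkD R s Δ.obj₁ + rkD R s Δ.obj₃) ∧
    (∀ (X Y : Db R), Nonempty (X ≅ Y) → rkD R s X = rkD R s Y) ∧
    (∀ (X : Db R) (n : ℤ), rkD R s (X⟦n⟧) = (n.negOnePow : ℤ) * rkD R s X) ∧
    (∀ M : Coh R, rkD R s ((sgB R).obj M) =
      (Module.finrank (R.toRing.obj (op s)) (M.obj.obj (op s)) : ℤ))

end Dia

/-! ### the threefold -/

section X

/-- FLT: the charts of `X` are flat over those of `S` -/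
def Stmt_FLT : Prop :=
  ∀ (K : Type) [Field K] [CharZero K] (c₁ c₂ : CurveData K) (S : SurfData c₁ c₂)
    (X : ConicData S) (s : Ch3ᵒᵖ), (X.pr.hom s).Flat

/-- POK: the pull back to `X` is exact and preserves coherent modules -/
def Stmt_POK : Prop :=
  ∀ (K : Type) [Field K] [CharZero K] (c₁ c₂ : CurveData K) (S : SurfData c₁ c₂)
    (X : ConicData S), X.POK

/-- PHT: `Φ_i` is the pull back followed by the twist -/
def Stmt_PHT : Prop :=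
  ∀ (K : Type) [Field K] (c₁ c₂ : CurveData K) (S : SurfData c₁ c₂)
    (X : ConicData S) [S.R.Good] [X.R.Good] [X.POK] (i : ℤ),
    Nonempty (X.PhC i ≅ X.pbC ⋙ twC (X.wi ^ i)) ∧ Nonempty (X.PhD i ≅ X.pbD ⋙ twB (X.wi ^ i))

/-- PHO: the pull back of `N^m` is `N^m` (for `m = 0` the structure sheaf) -/
def Stmt_PHO : Prop :=
  ∀ (K : Type) [Field K] (c₁ c₂ : CurveData K) (S : SurfData c₁ c₂)
    (X : ConicData S) [S.R.Good] [X.R.Good] [X.POK] (m : ℤ),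
    Nonempty (X.pbC.obj ((twC (S.nS ^ m)).obj (OCoh S.R)) ≅
      (twC (X.nX ^ m)).obj (OCoh X.R))

/-- CPS: the functors `Φ_i` are compatible with the self-extensions given by the functions on the
overlap of the charts of the two curves -/
def Stmt_CPS : Prop :=
  ∀ (K : Type) [Field K] (c₁ c₂ : CurveData K) (S : SurfData c₁ c₂)
    (X : ConicData S) [S.R.Good] [X.R.Good] [X.POK] (i : ℤ),
    (∀ f : c₁.A cab, Nonempty (SelfExt.Compat (S.dirS₁.coc f).sxC (X.dir₁.coc f).sxC (X.PhC i))) ∧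
    (∀ f : c₂.A cab, Nonempty (SelfExt.Compat (S.dirS₂.coc f).sxC (X.dir₂.coc f).sxC (X.PhC i)))

/-- KZX: the Koszul sequence `0 → M → M w^{-1} ⊞ M w^{-1} N → M w^{-2} N → 0` -/
def Stmt_KZX : Prop :=
  ∀ (K : Type) [Field K] (c₁ c₂ : CurveData K) (S : SurfData c₁ c₂)
    (X : ConicData S) [X.R.Good] (M : Coh X.R),
    ∃ T : ShortComplex (Coh X.R), T.ShortExact ∧ Nonempty (T.X₁ ≅ M) ∧
      Nonempty (T.X₂ ≅ (twC X.wi).obj M ⊞ (twC (X.wi * X.nX)).obj M) ∧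
      Nonempty (T.X₃ ≅ (twC (X.wi * (X.wi * X.nX))).obj M)

/-- RSV: relative Serre vanishing -/
def Stmt_RSV : Prop :=
  ∀ (K : Type) [Field K] [CharZero K] (c₁ c₂ : CurveData K) (S : SurfData c₁ c₂)
    (X : ConicData S) [X.R.Good] (M : Coh X.R),
    ∃ d₀ : ℕ, ∀ (d m : ℤ), (d₀ : ℤ) ≤ d → ∀ s : Ch2, G.h1z ((X.wi ^ d * X.nX ^ m).tw.obj M.obj) s

/-- LER: Leray. For a coherent `M` with `H^1 = 0` on the fibres, `push M` is coherent and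
represents `Hom(p^* -, M)`. -/
def Stmt_LER : Prop :=
  ∀ (K : Type) [Field K] [IsAlgClosed K] [CharZero K] (c₁ c₂ : CurveData K) (S : SurfData c₁ c₂)
    (X : ConicData S) [S.R.Good] [X.R.Good] [X.POK] (M : Coh X.R), (∀ s, G.h1z M.obj s) →
    ∃ hM : IsCoh S.R (G.push M.obj),
      Nonempty ((X.pbD.op ⋙ yoneda.obj ((sgB X.R).obj M)).RepresentableBy
        ((sgB S.R).obj ⟨G.push M.obj, hM⟩))

/-- FFP: the pull back is fully faithful on `D^b(Coh)` -/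
def Stmt_FFP : Prop :=
  ∀ (K : Type) [Field K] [IsAlgClosed K] [CharZero K] (c₁ c₂ : CurveData K) (S : SurfData c₁ c₂)
    (X : ConicData S) [S.R.Good] [X.R.Good] [X.POK], X.pbD.Full ∧ X.pbD.Faithful

/-- PHF: `Φ_i` is fully faithful -/
def Stmt_PHF : Prop :=
  ∀ (K : Type) [Field K] [IsAlgClosed K] [CharZero K] (c₁ c₂ : CurveData K) (S : SurfData c₁ c₂)
    (X : ConicData S) [S.R.Good] [X.R.Good] [X.POK] (i : ℤ), (X.PhD i).Full ∧ (X.PhD i).Faithful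

/-- RDF: the right adjoints of `p^*` and of `Φ_i` exist -/
def Stmt_RDF : Prop :=
  ∀ (K : Type) [Field K] [IsAlgClosed K] [CharZero K] (c₁ c₂ : CurveData K) (S : SurfData c₁ c₂)
    (X : ConicData S) [S.R.Good] [X.R.Good] [X.POK],
    X.pbD.IsLeftAdjoint ∧ ∀ i : ℤ, (X.PhD i).IsLeftAdjoint

/-- RKP: direct images of `N^m` and `w^{-1} N^m` -/
def Stmt_RKP : Prop :=
  ∀ (K : Type) [Field K] [CharZero K] (c₁ c₂ : CurveData K) (S : SurfData c₁ c₂)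
    (X : ConicData S) (e : ℕ) (m : ℤ), e ≤ 1 → ∀ s : Ch2,
    G.h1z ((X.wi ^ (e : ℤ) * X.nX ^ m).tw.obj (OR X.R)) s ∧
    Module.finrank (S.A s.i s.j) (G.Gam ((X.wi ^ (e : ℤ) * X.nX ^ m).tw.obj (OR X.R)) s) =
      2 * e + 1

/-- RKC: ranks of the direct images of the powers of `w` -/
def Stmt_RKC : Prop :=
  ∀ (K : Type) [Field K] [IsAlgClosed K] [CharZero K] (c₁ c₂ : CurveData K) (S : SurfData c₁ c₂)
    (X : ConicData S) [S.R.Good] [X.R.Good] [X.POK] (G : Db X.R ⥤ Db S.R) (_ : X.pbD ⊣ G) (j : ℤ),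
    (j = -1 ∨ j = 0 ∨ j = 1) →
    rkD S.R SurfData.c0 (G.obj ((sgB X.R).obj ((twC (X.wi ^ j)).obj (OCoh X.R)))) = 2 * j + 1

/-- RKB: the rank of `R_j Φ_i O[n]` -/
def Stmt_RKB : Prop :=
  ∀ (K : Type) [Field K] [IsAlgClosed K] [CharZero K] (c₁ c₂ : CurveData K) (S : SurfData c₁ c₂)
    (X : ConicData S) [S.R.Good] [X.R.Good] [X.POK] (i j n : ℤ) (G : Db X.R ⥤ Db S.R)
    (_ : X.PhD j ⊣ G), (i - j = -1 ∨ i - j = 0 ∨ i - j = 1) →
    rkD S.R SurfData.c0 (G.obj ((X.PhD i).obj (((sgB S.R).obj (OCoh S.R))⟦n⟧))) =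
      (n.negOnePow : ℤ) * (2 * (i - j) + 1)

/-- H2O: all morphisms `O[n] ⟶ O[n][2]` on `S` are combinations of the classes `cc f g` -/
def Stmt_H2O : Prop :=
  ∀ (K : Type) [Field K] [IsAlgClosed K] [CharZero K] (c₁ c₂ : CurveData K) (S : SurfData c₁ c₂)
    [S.R.Good] (n : ℤ) (e : ((sgB S.R).obj (OCoh S.R))⟦n⟧ ⟶ (((sgB S.R).obj (OCoh S.R))⟦n⟧)⟦(2 : ℤ)⟧),
    ∃ (m : ℕ) (f : Fin m → c₁.A cab) (g : Fin m → c₂.A cab),
      e = ∑ k, cc S.dirS₁ S.dirS₂ (f k) (g k) (((sgB S.R).obj (OCoh S.R))⟦n⟧)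

/-- D3: the trace functional on `S` -/
def Stmt_TRS : Prop :=
  ∀ (K : Type) [Field K] [IsAlgClosed K] [CharZero K] (c₁ c₂ : CurveData K) (S : SurfData c₁ c₂)
    [S.R.Good] (lam : c₁.A cab →ₗ[K] c₂.A cab →ₗ[K] K),
    (∀ (f : c₁.A cab) (g : c₂.A cab), ((f : c₁.F) ∈ (Subalgebra.toSubmodule (c₁.A ca)) ⊔
      (Subalgebra.toSubmodule (c₁.A cb)) → lam f g = 0) ∧
      ((g : c₂.F) ∈ (Subalgebra.toSubmodule (c₂.A ca)) ⊔
      (Subalgebra.toSubmodule (c₂.A cb)) → lam f g = 0)) →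
    ∃ τ : CycFun K (Db S.R), ∀ (M : Db S.R) (f : c₁.A cab) (g : c₂.A cab),
      τ.φ M (cc S.dirS₁ S.dirS₂ f g M) = lam f g * ((rkD S.R SurfData.c0 M : ℤ) : K)

/-- SKV: every `k[n] ⟶ k[n][2]` (`k` simple on `S`) factors through `O[n]` -/
def Stmt_SKV : Prop :=
  ∀ (K : Type) [Field K] [IsAlgClosed K] [CharZero K] (c₁ c₂ : CurveData K) (S : SurfData c₁ c₂)
    [S.R.Good] (k : Coh S.R), Simple k → ∀ (n : ℤ)
    (e : ((sgB S.R).obj k)⟦n⟧ ⟶ (((sgB S.R).obj k)⟦n⟧)⟦(2 : ℤ)⟧),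
    ∃ (b : ((sgB S.R).obj (OCoh S.R))⟦n⟧ ⟶ ((sgB S.R).obj k)⟦n⟧)
      (a : ((sgB S.R).obj k)⟦n⟧ ⟶ (((sgB S.R).obj (OCoh S.R))⟦n⟧)⟦(2 : ℤ)⟧),
      e = a ≫ b⟦(2 : ℤ)⟧'

/-- D4: the functionals `φ^(i)` -/
def Stmt_D4A : Prop :=
  ∀ (K : Type) [Field K] [IsAlgClosed K] [CharZero K] (c₁ c₂ : CurveData K) (S : SurfData c₁ c₂)
    (X : ConicData S) [S.R.Good] [X.R.Good] [X.POK],
    0 < Module.finrank K c₁.H1 → 0 < Module.finrank K c₂.H1 →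
    ∃ (c : ∀ M : Db X.R, M ⟶ M⟦(2 : ℤ)⟧) (φ : ℤ → CycFun K (Db X.R)) (ρ : ℤ → Db X.R → ℤ),
      (∀ i M, (φ i).φ M (c M) = ((ρ i M : ℤ) : K)) ∧
      (∀ i, ∀ Δ ∈ distTriang (Db X.R), ρ i Δ.obj₂ = ρ i Δ.obj₁ + ρ i Δ.obj₃) ∧
      (∀ i, ∃ M, ρ i M ≠ 0) ∧
      (∀ (i n : ℤ) (k : Coh S.R), Simple k → (φ i).φ ((X.PhD i).obj (((sgB S.R).obj k)⟦n⟧)) = 0)

end X

end Pool.CRD.Ph
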