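import Pool.Agent.CRD.Lib.Stmts

/-!
# CRD / Phi: LBC (base change preserves coherence)
-/

open CategoryTheory Opposite Limits TensorProduct

namespace Pool.CRD.Ph

namespace LBC_

lemma fin {A B : Type} [CommRing A] [CommRing B] (f : A →+* B) (M : Type) [AddCommGroup M]
    [Module A M] (h : Module.Finite A M) : Module.Finite B (BT f M) := by
  letI := f.toAlgebra
  exact Module.Finite.base_change A B M

lemma cart {A B A' B' : Type} [CommRing A] [CommRing B] [CommRing A'] [CommRing B']
    (f : A →+* B) (f' : A' →+* B') (a : A →+* A') (b : B →+* B') (h : ∀ x, b (f x) = f' (a x))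
    {M M' : Type} [AddCommGroup M] [AddCommGroup M'] [Module A M] [Module A' M']
    (ρ : M →+ M') (hρ : ∀ (r : A) (m : M), ρ (r • m) = a r • ρ m)
    (hbc : letI := a.toAlgebra
      letI : Module A M' := Module.compHom M' a
      haveI : IsScalarTower A A' M' :=
        ⟨fun a b c => by rw [Algebra.smul_def, mul_smul]; rfl⟩
      IsBaseChange A' ({ toFun := ρ, map_add' := ρ.map_add, map_smul' := hρ } : M →ₗ[A] M')) :
    letI := b.toAlgebra
    letI : Module B (BT f' M') := Module.compHom (BT f' M') b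
    haveI : IsScalarTower B B' (BT f' M') :=
      ⟨fun a b c => by rw [Algebra.smul_def, mul_smul]; rfl⟩
    IsBaseChange B' ({ toFun := BTmap a b h ρ hρ, map_add' := map_add _,
                       map_smul' := BTmap_smul a b h ρ hρ } : BT f M →ₗ[B] BT f' M') := by
  letI iab := f.toAlgebra
  letI iab' := f'.toAlgebra
  letI iaa := a.toAlgebra
  letI ibb := b.toAlgebra
  letI i1 : Algebra A B' := (f'.comp a).toAlgebra
  haveI : IsScalarTower A A' B' := IsScalarTower.of_algebraMap_eq (fun x => rfl)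
  haveI : IsScalarTower A B B' := IsScalarTower.of_algebraMap_eq (fun x => (h x).symm)
  letI mA : Module A M' := Module.compHom M' a
  haveI t1 : IsScalarTower A A' M' :=
    ⟨fun a b c => by rw [Algebra.smul_def, mul_smul]; rfl⟩
  letI mB : Module B (BT f' M') := Module.compHom (BT f' M') b
  haveI t2 : IsScalarTower B B' (BT f' M') :=
    ⟨fun a b c => by rw [Algebra.smul_def, mul_smul]; rfl⟩
  have key := @bc_square A B A' B' _ _ _ _ _ _ _ _ _ _ _ M M' (B ⊗[A] M) (B' ⊗[A'] M') _ _ _ _ _
    _ _ _ _ _ _ _ mB _ _ t2 { toFun := ρ, map_add' := ρ.map_add, map_smul' := hρ } hbc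
    (TensorProduct.mk A B M 1) (TensorProduct.isBaseChange A M B)
    (TensorProduct.mk A' B' M' 1) (TensorProduct.isBaseChange A' M' B')
    { toFun := BTmap a b h ρ hρ, map_add' := map_add _, map_smul' := BTmap_smul a b h ρ hρ }
    (fun m => by
      change bt f' (b 1) (ρ m) = bt f' 1 (ρ m)
      rw [map_one])
  exact key

end LBC_

theorem lbc_proof : Stmt_LBC := by
  intro K _ C D _ _ R₁ R₂ g M hM
  refine ⟨fun X => LBC_.fin (g.hom X) (M.obj (g.m.op.obj X)) (hM.1 (g.m.op.obj X)),
    fun {X Y} f => ?_⟩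
  exact LBC_.cart (g.hom X) (g.hom Y) ((R₁.map (g.m.op.map f)).hom.toRingHom)
      ((R₂.map f).hom.toRingHom) (g.hom_nat f)
      (M := M.obj (g.m.op.obj X)) (M' := M.obj (g.m.op.obj Y))
      (M.map (g.m.op.map f)).hom.toAddMonoidHom
      (fun r m => rs_smul M (g.m.op.map f) r m) (hM.2 (g.m.op.map f))

end Pool.CRD.Ph
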