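import Pool.Agent.CRD.Phi.Stmts

/-!
# CRD, area PHI, ADN: transport of a natural transformation `𝟭 ⟶ [1]` by a right adjoint
-/

open CategoryTheory Opposite Limits Pretriangulated

namespace Pool.CRD.Ph

theorem adn_proof : Stmt_ADN := by
  intro T _ _ T' _ _ F G adj _ _ _ c c' h M
  have h1 : c.app (G.obj M) ≫ (adj.unit.app (G.obj M))⟦(1 : ℤ)⟧' =
      adj.unit.app (G.obj M) ≫ G.map (c'.app (F.obj (G.obj M))) ≫
        (G.commShiftIso (1 : ℤ)).hom.app (F.obj (G.obj M)) := by
    rw [adj.shift_unit_app, ← h, G.map_comp]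
    have h2 := adj.unit.naturality (c.app (G.obj M))
    simp only [Functor.id_obj, Functor.id_map, Functor.comp_obj, Functor.comp_map] at h2
    rw [reassoc_of% h2, Category.assoc]
  have h3 : c.app (G.obj M) = (c.app (G.obj M) ≫ (adj.unit.app (G.obj M))⟦(1 : ℤ)⟧') ≫
      (G.map (adj.counit.app M))⟦(1 : ℤ)⟧' := by
    rw [Category.assoc, ← Functor.map_comp, adj.right_triangle_components, CategoryTheory.Functor.map_id,
      Category.comp_id]
  have h4 := (G.commShiftIso (1 : ℤ)).hom.naturality (adj.counit.app M)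
  have h5 := c'.naturality (adj.counit.app M)
  simp only [Functor.id_obj, Functor.id_map, Functor.comp_obj, Functor.comp_map] at h4 h5
  rw [h3, h1, Category.assoc, Category.assoc, ← h4, ← G.map_comp_assoc, ← h5, G.map_comp,
    Category.assoc, adj.right_triangle_components_assoc]

end Pool.CRD.Ph
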