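import Pool.Agent.CRD.Phi.Stmts

/-!
# CRD, area PHI, CCM: transport of the product of two natural transformations `𝟭 ⟶ [1]`
-/

open CategoryTheory Opposite Limits Pretriangulated

namespace Pool.CRD.Ph

theorem ccm_proof : Stmt_CCM := by
  intro T _ _ T' _ _ G _ c d c' d' hc hd M
  have eq := NatTrans.congr_app (congr_arg Iso.hom
    (G.commShiftIso_add' (show (1 : ℤ) + 1 = 2 from rfl))) M
  rw [Functor.CommShift.isoAdd'_hom_app] at eq
  have h4 := (G.commShiftIso (1 : ℤ)).hom.naturality (d.app M)
  simp only [Functor.id_obj, Functor.id_map, Functor.comp_obj, Functor.comp_map] at h4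
  rw [eq, G.map_comp, G.map_comp]
  simp only [Category.assoc]
  rw [← G.map_comp_assoc ((shiftFunctorAdd' T (1 : ℤ) 1 2 rfl).inv.app M), Iso.inv_hom_id_app]
  erw [G.map_id, Category.id_comp]
  rw [← hc, ← hd, Functor.map_comp, reassoc_of% h4]
  simp only [Category.assoc]

end Pool.CRD.Ph
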