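import Pool.Agent.CRD.Phi.Stmts

/-!
# CRD, area PHI, module CPS: the functors `Φ_i` and the self-extensions
-/

open CategoryTheory Opposite Limits Pretriangulated

namespace Pool.CRD.Ph

namespace CPS_

section alg

variable {A B : Type} [CommRing A] [CommRing B] (f : A →+* B) {M N P : Type} [AddCommGroup M]
  [AddCommGroup N] [AddCommGroup P] [Module A M] [Module A N] [Module A P]

lemma BTlin_comp (φ : N →ₗ[A] P) (ψ : M →ₗ[A] N) (x : BT f M) :
    BTlin f φ (BTlin f ψ x) = BTlin f (φ ∘ₗ ψ) x := by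
  refine bt_induction f (P := fun x => BTlin f φ (BTlin f ψ x) = BTlin f (φ ∘ₗ ψ) x) ?_ ?_ ?_ x
  · rw [map_zero, map_zero, map_zero]
  · intro b m
    rfl
  · intro x y hx hy
    rw [map_add, map_add, hx, hy, map_add]

lemma BTlin_id (x : BT f M) : BTlin f (LinearMap.id : M →ₗ[A] M) x = x := by
  refine bt_induction f (P := fun x => BTlin f (LinearMap.id : M →ₗ[A] M) x = x) ?_ ?_ ?_ x
  · rw [map_zero]
  · intro b m
    rfl
  · intro x y hx hy
    rw [map_add, hx, hy]

lemma BTlin_zero (x : BT f M) : BTlin f (0 : M →ₗ[A] N) x = 0 := by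
  refine bt_induction f (P := fun x => BTlin f (0 : M →ₗ[A] N) x = 0) ?_ ?_ ?_ x
  · rw [map_zero]
  · intro b m
    exact @TensorProduct.tmul_zero A _ B N _ _ f.toAlgebra.toModule _ b
  · intro x y hx hy
    rw [map_add, hx, hy, add_zero]

lemma BTlin_add (φ ψ : M →ₗ[A] N) (x : BT f M) :
    BTlin f (φ + ψ) x = BTlin f φ x + BTlin f ψ x := by
  refine bt_induction f (P := fun x => BTlin f (φ + ψ) x = BTlin f φ x + BTlin f ψ x) ?_ ?_ ?_ x
  · rw [map_zero, map_zero, map_zero, add_zero]
  · intro b m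
    exact bt_add_right f b (φ m) (ψ m)
  · intro x y hx hy
    rw [map_add, hx, hy, map_add, map_add]
    abel

variable (M N) in
/-- base change of a product -/
noncomputable def pe : BT f (M × N) ≃ₗ[B] BT f M × BT f N :=
  LinearEquiv.ofLinearMap ((BTlin f (LinearMap.fst A M N)).prod (BTlin f (LinearMap.snd A M N)))
    ((BTlin f (LinearMap.inl A M N)).coprod (BTlin f (LinearMap.inr A M N)))
    (by
      apply LinearMap.ext
      rintro ⟨u, v⟩
      change (BTlin f (LinearMap.fst A M N) (BTlin f (LinearMap.inl A M N) u +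
          BTlin f (LinearMap.inr A M N) v),
        BTlin f (LinearMap.snd A M N) (BTlin f (LinearMap.inl A M N) u +
          BTlin f (LinearMap.inr A M N) v)) = (u, v)
      rw [map_add, map_add, BTlin_comp, BTlin_comp, BTlin_comp, BTlin_comp,
        LinearMap.fst_comp_inl, LinearMap.fst_comp_inr, LinearMap.snd_comp_inl,
        LinearMap.snd_comp_inr, BTlin_id, BTlin_id, BTlin_zero, BTlin_zero, add_zero, zero_add])
    (by
      apply LinearMap.ext
      intro x
      change BTlin f (LinearMap.inl A M N) (BTlin f (LinearMap.fst A M N) x) +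
          BTlin f (LinearMap.inr A M N) (BTlin f (LinearMap.snd A M N) x) = x
      rw [BTlin_comp, BTlin_comp, ← BTlin_add]
      have h : LinearMap.inl A M N ∘ₗ LinearMap.fst A M N +
          LinearMap.inr A M N ∘ₗ LinearMap.snd A M N = LinearMap.id := by
        apply LinearMap.ext
        rintro ⟨a, b⟩
        simp
      rw [h, BTlin_id])

lemma pe_bt (b : B) (m : M) (n : N) : pe f M N (bt f b (m, n)) = (bt f b m, bt f b n) := rfl

end alg

section bc

variable {K : Type} [Field K] {C D : Type} [SmallCategory C] [SmallCategory D]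
  {R₁ : PAlg K C} {R₂ : PAlg K D} (g : DMor R₁ R₂) (c : ACoc R₁) (c' : ACoc R₂)

/-- the isomorphism on a chart -/
noncomputable def peX (M : PMod R₁) (X : Dᵒᵖ) :
    (g.bcObj (c.extObj M)).obj X ≃ₗ[R₂.toRing.obj X] (c'.extObj (g.bcObj M)).obj X :=
  pe (g.hom X) (M.obj (g.m.op.obj X)) (M.obj (g.m.op.obj X))

lemma peX_bt (M : PMod R₁) (X : Dᵒᵖ) (b : R₂.obj X) (m n : M.obj (g.m.op.obj X)) :
    peX g c c' M X (bt (g.hom X) b ((m, n) : M.obj (g.m.op.obj X) × M.obj (g.m.op.obj X))) =
      (((bt (g.hom X) b m : BT (g.hom X) (M.obj (g.m.op.obj X))),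
        (bt (g.hom X) b n : BT (g.hom X) (M.obj (g.m.op.obj X)))) :
        (g.bcObj M).obj X × (g.bcObj M).obj X) := rfl

/-- the isomorphism on objects -/
noncomputable def isoO
    (h : ∀ {X Y : Dᵒᵖ} (f : X ⟶ Y), c'.a f = (g.hom Y (c.a (g.m.op.map f)) : R₂.obj Y))
    (M : PMod R₁) : g.bcObj (c.extObj M) ≅ c'.extObj (g.bcObj M) :=
  mkIso (M := g.bcObj (c.extObj M)) (N := c'.extObj (g.bcObj M))
    (fun X => peX g c c' M X)
    (by
      intro X Y f x
      refine bt_induction (g.hom X) (M := (c.extObj M).obj (g.m.op.obj X))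
        (P := fun x => peX g c c' M Y (rs (g.bcObj (c.extObj M)) f x) =
          rs (c'.extObj (g.bcObj M)) f (peX g c c' M X x)) ?_ ?_ ?_ x
      · exact ((congrArg (peX g c c' M Y) (rs_zero (g.bcObj (c.extObj M)) f)).trans
          (map_zero (peX g c c' M Y))).trans ((rs_zero (c'.extObj (g.bcObj M)) f).symm.trans
          (congrArg (rs (c'.extObj (g.bcObj M)) f) (map_zero (peX g c c' M X)).symm))
      · rintro b ⟨m, n⟩
        refine Prod.ext rfl ?_
        change bt (g.hom Y) ((R₂.map f).hom b) (rs M (g.m.op.map f) n +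
          c.a (g.m.op.map f) • rs M (g.m.op.map f) m) =
          bt (g.hom Y) ((R₂.map f).hom b) (rs M (g.m.op.map f) n) +
          (show R₂.obj Y from c'.a f) • bt (g.hom Y) ((R₂.map f).hom b) (rs M (g.m.op.map f) m)
        rw [bt_add_right, h, smul_bt]
        congr 1
        exact bt_smul_right (g.hom Y) ((R₂.map f).hom b) (c.a (g.m.op.map f) : R₁.obj _)
          (rs M (g.m.op.map f) m)
      · intro x y hx hy
        have e1 := rs_add (g.bcObj (c.extObj M)) f x y
        have e2 := map_add (peX g c c' M Y) (rs (g.bcObj (c.extObj M)) f x)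
          (rs (g.bcObj (c.extObj M)) f y)
        have e3 := map_add (peX g c c' M X) x y
        have e4 := rs_add (c'.extObj (g.bcObj M)) f (peX g c c' M X x) (peX g c c' M X y)
        exact (congrArg (peX g c c' M Y) e1).trans (e2.trans ((congrArg₂ (· + ·) hx hy).trans
          (e4.symm.trans (congrArg (rs (c'.extObj (g.bcObj M)) f) e3.symm)))))

/-- base change is compatible with the self-extensions -/
noncomputable def cpt
    (h : ∀ {X Y : Dᵒᵖ} (f : X ⟶ Y), c'.a f = (g.hom Y (c.a (g.m.op.map f)) : R₂.obj Y)) :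
    SelfExt.Compat c.sx c'.sx g.bcF where
  e := NatIso.ofComponents (fun M => isoO g c c' h M) (by
    intro M N φ
    apply g.bc_ext
    intro X x
    rfl)
  hi M := by
    apply g.bc_ext
    intro X x
    refine Prod.ext ?_ rfl
    exact @TensorProduct.tmul_zero (R₁.obj (g.m.op.obj X)) _ (R₂.obj X) (M.obj (g.m.op.obj X)) _ _
      (g.hom X).toAlgebra.toModule _ 1
  hp M := by
    apply g.bc_ext
    intro X x
    rfl

end bc

section tw

variable {K : Type} [Field K] {C : Type} [SmallCategory C] {R : PAlg K C} (c : ACoc R)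
  (d : UCoc R)

/-- twists are compatible with the self-extensions -/
noncomputable def cptTw : SelfExt.Compat c.sx c.sx d.tw where
  e := NatIso.ofComponents (fun M => mkIso (M := d.twObj (c.extObj M))
      (N := c.extObj (d.twObj M)) (fun X => LinearEquiv.refl _ _) (by
        intro X Y f x
        refine Prod.ext rfl ?_
        change d.v f • (rs M f x.2 + c.a f • rs M f x.1) =
          d.v f • rs M f x.2 + c.a f • (d.v f • rs M f x.1)
        rw [smul_add, smul_smul, smul_smul, d.v_comm])) (by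
    intro M N φ
    rfl)
  hi M := rfl
  hp M := rfl

end tw

section comp

universe v₁ v₂ v₃ u₁ u₂ u₃

variable {A : Type u₁} [Category.{v₁} A] [Abelian A] {B : Type u₂} [Category.{v₂} B] [Abelian B]
  {D : Type u₃} [Category.{v₃} D] [Abelian D]

/-- composition -/
noncomputable def comp {s : SelfExt A} {t : SelfExt B} {u : SelfExt D} {F : A ⥤ B} {G : B ⥤ D}
    (k : SelfExt.Compat s t F) (l : SelfExt.Compat t u G) : SelfExt.Compat s u (F ⋙ G) where
  e := NatIso.ofComponents (fun M => G.mapIso (k.e.app M) ≪≫ l.e.app (F.obj M)) (by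
    intro M N f
    have h1 := k.e.hom.naturality f
    have h2 := l.e.hom.naturality (F.map f)
    simp only [Functor.comp_map, Functor.comp_obj] at h1 h2
    simp only [Functor.comp_map, Functor.comp_obj, Iso.trans_hom, Functor.mapIso_hom, Iso.app_hom,
      Category.assoc]
    rw [← G.map_comp_assoc, h1, G.map_comp_assoc, h2])
  hi M := by
    have h1 := k.hi M
    have h2 := l.hi (F.obj M)
    change G.map (F.map (s.i.app M)) ≫ G.map (k.e.hom.app M) ≫ l.e.hom.app (F.obj M) = _
    rw [← G.map_comp_assoc, h1, h2]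
    rfl
  hp M := by
    have h1 := k.hp M
    have h2 := l.hp (F.obj M)
    change (G.map (k.e.hom.app M) ≫ l.e.hom.app (F.obj M)) ≫ u.p.app (G.obj (F.obj M)) =
      G.map (F.map (s.p.app M))
    rw [Category.assoc, h2, ← G.map_comp, h1]

end comp

section coh

variable {K : Type} [Field K] {C D : Type} [SmallCategory C] [SmallCategory D]
  {R₁ : PAlg K C} {R₂ : PAlg K D} [R₁.Good] [R₂.Good] {c : ACoc R₁} {c' : ACoc R₂}

/-- restriction to coherent modules -/
noncomputable def cptC (F : PMod R₁ ⥤ PMod R₂) (hF : ∀ M, IsCoh R₁ M → IsCoh R₂ (F.obj M))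
    (k : SelfExt.Compat c.sx c'.sx F) : SelfExt.Compat c.sxC c'.sxC (cohF F hF) where
  e := NatIso.ofComponents (fun M => (IsCoh R₂).isoMk (k.e.app M.obj)) (by
    intro M N f
    apply (IsCoh R₂).ι.map_injective
    exact k.e.hom.naturality f.hom)
  hi M := by
    apply (IsCoh R₂).ι.map_injective
    exact k.hi M.obj
  hp M := by
    apply (IsCoh R₂).ι.map_injective
    exact k.hp M.obj

end coh

end CPS_

theorem cps_proof : Stmt_CPS := by
  intro K _ c₁ c₂ S X _ _ _ i
  constructor
  · intro f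
    exact ⟨CPS_.cptC (X.Phi i) (X.Phi_coh i) (CPS_.comp (CPS_.cpt X.pr (S.dirS₁.coc f)
      (X.dir₁.coc f) (fun g => Subtype.ext rfl)) (CPS_.cptTw _ _))⟩
  · intro f
    exact ⟨CPS_.cptC (X.Phi i) (X.Phi_coh i) (CPS_.comp (CPS_.cpt X.pr (S.dirS₂.coc f)
      (X.dir₂.coc f) (fun g => Subtype.ext rfl)) (CPS_.cptTw _ _))⟩

end Pool.CRD.Ph
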