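import Pool.Agent.CRD.Phi.Stmts

/-!
# CRD, area PHI: assembly of the functionals `φ^(i)`
-/

open CategoryTheory Opposite Limits Pretriangulated

namespace Pool.CRD.Ph

namespace D4A_

section
variable (K : Type) [Field K] {T : Type 1} [Category.{1} T] [HasZeroObject T] [HasShift T ℤ]
    [Preadditive T] [∀ (n : ℤ), (shiftFunctor T n).Additive] [Pretriangulated T] [Linear K T]
    {T' : Type 1} [Category.{1} T'] [HasZeroObject T'] [HasShift T' ℤ] [Preadditive T']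
    [∀ (n : ℤ), (shiftFunctor T' n).Additive] [Pretriangulated T'] [Linear K T']

/-- a right adjoint with all its structure -/
structure RA (F : T ⥤ T') [F.CommShift ℤ] where
  G : T' ⥤ T
  adj : F ⊣ G
  [cs : G.CommShift ℤ]
  [acs : adj.CommShift ℤ]
  [tri : G.IsTriangulated]
  [add : G.Additive]
  [lin : G.Linear K]

attribute [instance] RA.cs RA.acs RA.tri RA.add RA.lin

lemma adjR_linear {F : T ⥤ T'} {G : T' ⥤ T} (adj : F ⊣ G) [F.Linear K] : G.Linear K where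
  map_smul {X Y} f r := by
    apply (adj.homEquiv _ _).symm.injective
    rw [Adjunction.homEquiv_counit, Adjunction.homEquiv_counit, F.map_smul, Linear.smul_comp,
      adj.counit_naturality, adj.counit_naturality, Linear.comp_smul]

lemma exists_RA (F : T ⥤ T') [F.CommShift ℤ] [F.IsTriangulated] [F.Linear K]
    (h : F.IsLeftAdjoint) : Nonempty (RA K F) := by
  let adj := Adjunction.ofIsLeftAdjoint F
  letI := adj.rightAdjointCommShift ℤ
  haveI := adj.commShift_of_leftAdjoint ℤ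
  haveI := adj.right_adjoint_additive
  haveI := adj.isTriangulated_rightAdjoint
  haveI := adjR_linear K adj
  exact ⟨⟨F.rightAdjoint, adj⟩⟩

/-- sum of two cyclic functionals -/
def addC {K : Type} [Field K] [Linear K T] (φ ψ : CycFun K T) : CycFun K T where
  φ M := φ.φ M + ψ.φ M
  cyc f g := by
    rw [LinearMap.add_apply, LinearMap.add_apply, φ.cyc, ψ.cyc]

end

section
variable {K : Type} [Field K] {c₁ c₂ : CurveData K} {S : SurfData c₁ c₂}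
    (X : ConicData S) [S.R.Good] [X.R.Good] [X.POK]

lemma F_cc (hCCM : Stmt_CCM) (hCPS : Stmt_CPS) (i : ℤ) (f : c₁.A cab) (g : c₂.A cab)
    (M : Db S.R) : (X.PhD i).map (cc S.dirS₁ S.dirS₂ f g M) ≫
      ((X.PhD i).commShiftIso (2 : ℤ)).hom.app M =
    cc X.dir₁ X.dir₂ f g ((X.PhD i).obj M) := by
  obtain ⟨e₁⟩ := (hCPS K c₁ c₂ S X i).1 f
  obtain ⟨e₂⟩ := (hCPS K c₁ c₂ S X i).2 g
  exact hCCM (Db S.R) (Db X.R) (X.PhD i) (S.dirS₁.κ f) (S.dirS₂.κ g) (X.dir₁.κ f) (X.dir₂.κ g)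
    (fun M => SelfExt.κB_map e₁ M) (fun M => SelfExt.κB_map e₂ M) M

lemma G_cc (hADN : Stmt_ADN) (hCCM : Stmt_CCM) (hCPS : Stmt_CPS) {i : ℤ} (r : RA K (X.PhD i))
    (f : c₁.A cab) (g : c₂.A cab) (M : Db X.R) : r.G.map (cc X.dir₁ X.dir₂ f g M) ≫
      (r.G.commShiftIso (2 : ℤ)).hom.app M =
    cc S.dirS₁ S.dirS₂ f g (r.G.obj M) := by
  obtain ⟨e₁⟩ := (hCPS K c₁ c₂ S X i).1 f
  obtain ⟨e₂⟩ := (hCPS K c₁ c₂ S X i).2 g
  exact hCCM (Db X.R) (Db S.R) r.G (X.dir₁.κ f) (X.dir₂.κ g) (S.dirS₁.κ f) (S.dirS₂.κ g)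
    (fun M => hADN (Db S.R) (Db X.R) (X.PhD i) r.G r.adj (S.dirS₁.κ f) (X.dir₁.κ f)
      (fun N => SelfExt.κB_map e₁ N) M)
    (fun M => hADN (Db S.R) (Db X.R) (X.PhD i) r.G r.adj (S.dirS₂.κ g) (X.dir₂.κ g)
      (fun N => SelfExt.κB_map e₂ N) M) M

end

lemma exists_mu {K V : Type} [Field K] [AddCommGroup V] [Module K V] {x : V} (hx : x ≠ 0) :
    ∃ μ : V →ₗ[K] K, μ x ≠ 0 := by
  by_contra hn
  push Not at hn
  exact hx ((Module.forall_dual_apply_eq_zero_iff K x).1 hn)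

lemma exists_fun {K : Type} [Field K] (c : CurveData K) (h : 0 < Module.finrank K c.H1) :
    ∃ (lam : c.A cab →ₗ[K] K) (f : c.A cab), lam f = 1 ∧
      ∀ f : c.A cab, (f : c.F) ∈ (Subalgebra.toSubmodule (c.A ca)) ⊔
        (Subalgebra.toSubmodule (c.A cb)) → lam f = 0 := by
  obtain ⟨x, hx⟩ : ∃ x : c.H1, x ≠ 0 := by
    by_contra hn
    push Not at hn
    haveI : Subsingleton c.H1 := ⟨fun a b => by rw [hn a, hn b]⟩
    rw [Module.finrank_zero_of_subsingleton] at h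
    exact lt_irrefl _ h
  obtain ⟨μ, hμ⟩ : ∃ μ : c.H1 →ₗ[K] K, μ x ≠ 0 := exists_mu hx
  obtain ⟨f, rfl⟩ := Submodule.Quotient.mk_surjective _ x
  refine ⟨(μ (Submodule.Quotient.mk f))⁻¹ • (μ ∘ₗ Submodule.mkQ _), f, ?_, fun g hg => ?_⟩
  · change (μ (Submodule.Quotient.mk f))⁻¹ • μ (Submodule.Quotient.mk f) = 1
    rw [smul_eq_mul, inv_mul_cancel₀ hμ]
  · change (μ (Submodule.Quotient.mk f))⁻¹ • μ (Submodule.Quotient.mk g) = 0
    have : (Submodule.Quotient.mk g : c.H1) = 0 := (Submodule.Quotient.mk_eq_zero _).2 hg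
    rw [this, map_zero, smul_zero]

end D4A_

open D4A_

theorem d4a_proof (hRDF : Stmt_RDF) (hPHF : Stmt_PHF) (hTRS : Stmt_TRS) (hH2O : Stmt_H2O)
    (hSKV : Stmt_SKV) (hADN : Stmt_ADN) (hCCM : Stmt_CCM) (hVNC : Stmt_VNC) (hCPS : Stmt_CPS)
    (hRKB : Stmt_RKB) (hRKT : Stmt_RKT) : Stmt_D4A := by
  intro K _ _ _ c₁ c₂ S X _ _ _ h1 h2
  obtain ⟨l₁, f₀, hf₀, hl₁⟩ := exists_fun c₁ h1
  obtain ⟨l₂, g₀, hg₀, hl₂⟩ := exists_fun c₂ h2
  let lam : c₁.A cab →ₗ[K] c₂.A cab →ₗ[K] K := LinearMap.mk₂ K (fun f g => l₁ f * l₂ g)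
    (fun f f' g => by rw [map_add, add_mul]) (fun a f g => by
      rw [map_smul, smul_eq_mul, smul_eq_mul, mul_assoc])
    (fun f g g' => by rw [map_add, mul_add]) (fun a f g => by
      rw [map_smul, smul_eq_mul, smul_eq_mul, mul_left_comm])
  have hlam : ∀ f g, lam f g = l₁ f * l₂ g := fun f g => rfl
  obtain ⟨τ, hτ⟩ := hTRS K c₁ c₂ S lam (fun f g => ⟨fun h => by rw [hlam, hl₁ f h, zero_mul],
    fun h => by rw [hlam, hl₂ g h, mul_zero]⟩)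
  have hr : ∀ i : ℤ, Nonempty (RA K (X.PhD i)) := fun i =>
    exists_RA K (X.PhD i) ((hRDF K c₁ c₂ S X).2 i)
  let r : ∀ i : ℤ, RA K (X.PhD i) := fun i => (hr i).some
  let φ : ℤ → CycFun K (Db X.R) := fun i => addC (τ.pull (r i).G) (τ.pull (r (i + 1)).G)
  let ρ : ℤ → Db X.R → ℤ := fun i M => rkD S.R SurfData.c0 ((r i).G.obj M) +
    rkD S.R SurfData.c0 ((r (i + 1)).G.obj M)
  have key : ∀ (i : ℤ) (M : Db X.R) (f : c₁.A cab) (g : c₂.A cab),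
      (φ i).φ M (cc X.dir₁ X.dir₂ f g M) = lam f g * ((ρ i M : ℤ) : K) := by
    intro i M f g
    change (τ.pull (r i).G).φ M (cc X.dir₁ X.dir₂ f g M) +
      (τ.pull (r (i + 1)).G).φ M (cc X.dir₁ X.dir₂ f g M) = _
    rw [CycFun.pull_apply, CycFun.pull_apply, G_cc X hADN hCCM hCPS (r i),
      G_cc X hADN hCCM hCPS (r (i + 1)), hτ, hτ, ← mul_add, ← Int.cast_add]
  have hdom : IsDomain (S.R.ring SurfData.c0) := inferInstanceAs (IsDomain (S.A cab cab))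
  obtain ⟨ra, ri, rs, rm⟩ := hRKT K Ch2 S.R SurfData.c0 hdom
  refine ⟨fun M => cc X.dir₁ X.dir₂ f₀ g₀ M, φ, ρ, fun i M => ?_, fun i Δ hΔ => ?_, fun i => ?_,
    fun i n k hk => ?_⟩
  · rw [key, hlam, hf₀, hg₀, mul_one, one_mul]
  · have a1 := ra _ ((r i).G.map_distinguished Δ hΔ)
    have a2 := ra _ ((r (i + 1)).G.map_distinguished Δ hΔ)
    change rkD S.R SurfData.c0 ((r i).G.obj Δ.obj₂) = rkD S.R SurfData.c0 ((r i).G.obj Δ.obj₁) +
      rkD S.R SurfData.c0 ((r i).G.obj Δ.obj₃) at a1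
    change rkD S.R SurfData.c0 ((r (i + 1)).G.obj Δ.obj₂) =
      rkD S.R SurfData.c0 ((r (i + 1)).G.obj Δ.obj₁) +
      rkD S.R SurfData.c0 ((r (i + 1)).G.obj Δ.obj₃) at a2
    change rkD S.R SurfData.c0 ((r i).G.obj Δ.obj₂) +
      rkD S.R SurfData.c0 ((r (i + 1)).G.obj Δ.obj₂) = _
    rw [a1, a2]
    change _ = (rkD S.R SurfData.c0 ((r i).G.obj Δ.obj₁) +
      rkD S.R SurfData.c0 ((r (i + 1)).G.obj Δ.obj₁)) +
      (rkD S.R SurfData.c0 ((r i).G.obj Δ.obj₃) +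
      rkD S.R SurfData.c0 ((r (i + 1)).G.obj Δ.obj₃))
    ring
  · refine ⟨(X.PhD (i + 1)).obj (((sgB S.R).obj (OCoh S.R))⟦(0 : ℤ)⟧), ?_⟩
    have b1 := hRKB K c₁ c₂ S X (i + 1) i 0 (r i).G (r i).adj (Or.inr (Or.inr (by ring)))
    have b2 := hRKB K c₁ c₂ S X (i + 1) (i + 1) 0 (r (i + 1)).G (r (i + 1)).adj
      (Or.inr (Or.inl (by ring)))
    change rkD S.R SurfData.c0 _ + rkD S.R SurfData.c0 _ ≠ 0
    rw [b1, b2, Int.negOnePow_zero]
    have : (i + 1 - i : ℤ) = 1 := by ring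
    rw [this, sub_self]
    norm_num
  · haveI := (hPHF K c₁ c₂ S X i).1
    refine hVNC K (Db S.R) (Db X.R) (X.PhD i) (φ i) (((sgB S.R).obj k)⟦n⟧)
      (((sgB S.R).obj (OCoh S.R))⟦n⟧) (hSKV K c₁ c₂ S k hk n) (fun e => ?_)
    obtain ⟨m, f, g, rfl⟩ := hH2O K c₁ c₂ S n e
    have b1 := hRKB K c₁ c₂ S X i i n (r i).G (r i).adj (Or.inr (Or.inl (by ring)))
    have b2 := hRKB K c₁ c₂ S X i (i + 1) n (r (i + 1)).G (r (i + 1)).adj (Or.inl (by ring))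
    have b3 : ρ i ((X.PhD i).obj (((sgB S.R).obj (OCoh S.R))⟦n⟧)) = 0 := by
      change rkD S.R SurfData.c0 _ + rkD S.R SurfData.c0 _ = 0
      rw [b1, b2]
      ring
    rw [Functor.map_sum, Preadditive.sum_comp, map_sum]
    refine Finset.sum_eq_zero (fun k _ => ?_)
    rw [F_cc X hCCM hCPS, key, b3, Int.cast_zero, mul_zero]

end Pool.CRD.Ph
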