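import Pool.Agent.CRD.Phi.Stmts
import Pool.Agent.CRD.Fib.Iso

/-!
# CRD, area PHI, FLT: the charts of `X` are flat over those of `S`
-/

open CategoryTheory Opposite Limits Pretriangulated

namespace Pool.CRD.Ph

namespace FLT_

section
variable {B : Type} [CommRing B] (a b : Bˣ) (K : Type) [CommRing K] [Algebra K B] (k : Cov Bool)

/-- the constants in the ring of a chart of the conic -/
noncomputable def iota : B →+* conSub a b K k :=
  ((algebraMap (LaurentPolynomial B) (ConT a b)).comp LaurentPolynomial.C).codRestrict
    (conSub a b K k) (fun r => ⟨single_mem_LpIn (s := exR k) ⟨fun _ => le_rfl, fun _ => le_rfl⟩ r,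
      zero_mem _⟩)

lemma iota_re_mul (r : B) (z : conSub a b K k) (n : ℤ) :
    ((iota a b K k r * z : conSub a b K k) : ConT a b).re.coeff n =
      r * (z : ConT a b).re.coeff n := by
  have h : ((iota a b K k r * z : conSub a b K k) : ConT a b).re =
      LaurentPolynomial.C r * (z : ConT a b).re + conQ a b * 0 * (z : ConT a b).im :=
    QuadraticAlgebra.re_mul _ _
  rw [h, mul_zero, zero_mul, add_zero, ← LaurentPolynomial.single_eq_C]
  exact AddMonoidAlgebra.coeff_single_zero_mul _ _ _

lemma iota_im_mul (r : B) (z : conSub a b K k) (n : ℤ) :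
    ((iota a b K k r * z : conSub a b K k) : ConT a b).im.coeff n =
      r * (z : ConT a b).im.coeff n := by
  have h : ((iota a b K k r * z : conSub a b K k) : ConT a b).im =
      LaurentPolynomial.C r * (z : ConT a b).im + 0 * (z : ConT a b).re +
        0 * 0 * (z : ConT a b).im :=
    QuadraticAlgebra.im_mul _ _
  rw [h, zero_mul, zero_mul, zero_mul, add_zero, add_zero, ← LaurentPolynomial.single_eq_C]
  exact AddMonoidAlgebra.coeff_single_zero_mul _ _ _

lemma flat_iota : (iota a b K k).Flat := by
  letI := (iota a b K k).toAlgebra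
  change Module.Flat B (conSub a b K k)
  let e : conSub a b K k ≃ₗ[B] (Finsupp.supported B B (exR k) × Finsupp.supported B B (exI k)) :=
    { toFun := fun z => (⟨z.1.re.coeff, by
          rw [Finsupp.mem_supported']
          exact z.2.1⟩, ⟨z.1.im.coeff, by
          rw [Finsupp.mem_supported']
          exact z.2.2⟩)
      invFun := fun p => ⟨⟨AddMonoidAlgebra.ofCoeff p.1.1, AddMonoidAlgebra.ofCoeff p.2.1⟩,
        ⟨(Finsupp.mem_supported' B p.1.1).1 p.1.2, (Finsupp.mem_supported' B p.2.1).1 p.2.2⟩⟩
      left_inv := fun z => rfl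
      right_inv := fun p => rfl
      map_add' := fun z w => rfl
      map_smul' := fun r z => by
        apply Prod.ext
        · apply Subtype.ext
          apply Finsupp.ext
          intro n
          exact iota_re_mul a b K k r z n
        · apply Subtype.ext
          apply Finsupp.ext
          intro n
          exact iota_im_mul a b K k r z n }
  haveI : Module.Free B (Finsupp.supported B B (exR k)) :=
    Module.Free.of_equiv (Finsupp.supportedEquivFinsupp (exR k)).symm
  haveI : Module.Free B (Finsupp.supported B B (exI k)) :=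
    Module.Free.of_equiv (Finsupp.supportedEquivFinsupp (exI k)).symm
  exact Module.Flat.of_linearEquiv e

end

end FLT_

/-- FLT: the charts of `X` are flat over those of `S` -/
theorem flt_proof : Stmt_FLT := by
  intro K _ _ c₁ c₂ S X s
  have h1 := FLT_.flat_iota (S.ua s.unop.i s.unop.j) (S.ub s.unop.i s.unop.j) K s.unop.k
  have h2 : (X.cE s.unop.i s.unop.j s.unop.k).toRingEquiv.toRingHom.Flat :=
    RingHom.Flat.of_bijective (X.cE s.unop.i s.unop.j s.unop.k).bijective
  have h3 := RingHom.Flat.comp h1 h2
  have h4 : (X.cE s.unop.i s.unop.j s.unop.k).toRingEquiv.toRingHom.comp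
      (FLT_.iota (S.ua s.unop.i s.unop.j) (S.ub s.unop.i s.unop.j) K s.unop.k) =
        X.pr.hom s := by
    apply RingHom.ext
    intro r
    apply Subtype.ext
    have h5 := X.toEc_re s.unop.i s.unop.j 0 r
    rw [zpow_zero, mul_one] at h5
    exact h5
  rw [← h4]
  exact h3

end Pool.CRD.Ph
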