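import Pool.Agent.CRD.Phi.Stmts
import Pool.Agent.CRD.T.CYC
import Pool.Agent.CRD.T.FN0
import Pool.Agent.CRD.D1.StmtsB

/-!
# H2O: morphisms `O[n] ⟶ O[n][2]` on the surface
-/

open CategoryTheory Opposite Limits Pretriangulated CochainComplex HomComplex

open scoped TensorProduct

namespace Pool.CRD.Ph

open Pool.CRD.Tra

namespace H2O_

section zero

variable {K : Type} [Field K] {C : Type} [Preorder C] {R : PAlg K C}

lemma isZero_biprod {A B : Cx R} (i : ℤ) (hA : IsZero (A.X i)) (hB : IsZero (B.X i)) :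
    IsZero ((A ⊞ B : Cx R).X i) := by
  rw [IsZero.iff_id_eq_zero]
  have h : 𝟙 ((A ⊞ B : Cx R).X i) = (biprod.fst : A ⊞ B ⟶ A).f i ≫ (biprod.inl : A ⟶ A ⊞ B).f i +
      (biprod.snd : A ⊞ B ⟶ B).f i ≫ (biprod.inr : B ⟶ A ⊞ B).f i := by
    rw [← HomologicalComplex.id_f, ← biprod.total]
    rfl
  rw [h, hA.eq_of_tgt ((biprod.fst : A ⊞ B ⟶ A).f i) 0,
    hB.eq_of_tgt ((biprod.snd : A ⊞ B ⟶ B).f i) 0, zero_comp, zero_comp, add_zero]

lemma isZero_tr (U : LowerSet C) (N : Cx R) (i : ℤ) (h : IsZero (N.X i)) :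
    IsZero (((trC R U).obj N).X i) := (tr R U).map_isZero h

lemma isZero_cone {F G : Cx R} (φ : F ⟶ G) (i : ℤ) (hF : IsZero (F.X (i + 1)))
    (hG : IsZero (G.X i)) : IsZero ((mappingCone φ).X i) := by
  rw [IsZero.iff_id_eq_zero]
  apply mappingCone.ext_from φ (i + 1) i rfl
  · exact hF.eq_of_src _ _
  · exact hG.eq_of_src _ _

lemma isZero_CE (w : Cov2 C) (N : Cx R) (i : ℤ) (h1 : IsZero (N.X (i + 1))) (h0 : IsZero (N.X i)) :
    IsZero ((CE w N).X i) :=
  isZero_cone _ i (isZero_tr _ _ _ h1) (isZero_biprod _ (isZero_tr _ _ _ h0) (isZero_tr _ _ _ h0))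

lemma epi_inl {F G : Cx R} (φ : F ⟶ G) (i j : ℤ) (h : i + -1 = j) (hG : IsZero (G.X j)) :
    Epi ((mappingCone.inl φ).v i j h) := by
  constructor
  intro Z f g hfg
  apply mappingCone.ext_from φ i j (by omega)
  · exact hfg
  · exact hG.eq_of_src _ _

/-- a cochain of degree two on a module in one degree is determined by its top component -/
lemma eq_zero_of_top (w₁ w₂ : Cov2 C) (N N' : Cx R) (m : ℤ) (hN : ∀ i, i ≠ m → IsZero (N.X i))
    (hN' : ∀ i, i ≠ m → IsZero (N'.X i)) (z : Cochain (PP w₁ w₂ N) N' 2)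
    (hz : (top w₁ w₂ z).v m m (add_zero m) = 0) : z = 0 := by
  apply Cochain.ext
  intro p q hpq
  by_cases hq : q = m
  · subst hq
    have hCE : IsZero ((CE w₂ N).X p) := isZero_CE w₂ N p (hN _ (by omega)) (hN _ (by omega))
    rw [Cochain.zero_v]
    apply mappingCone.ext_from (mvS w₁ (CE w₂ N)).f (p + 1) p rfl
    · rw [comp_zero]
      have hep : Epi ((mappingCone.inl (mvS w₂ N).f).v q (p + 1) (by omega)) :=
        epi_inl _ _ _ _ (isZero_biprod _ (isZero_tr _ _ _ (hN _ (by omega)))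
          (isZero_tr _ _ _ (hN _ (by omega))))
      let E : (tt w₁.ab w₂.ab N).X q ⟶ (mvS w₁ (CE w₂ N)).X₁.X (p + 1) :=
        (tr R w₁.ab).map ((mappingCone.inl (mvS w₂ N).f).v q (p + 1) (by omega))
      have hE : Epi E := (tr R w₁.ab).map_epi _
      have h1 : E ≫ (mappingCone.inl (mvS w₁ (CE w₂ N)).f).v (p + 1) p (by omega) ≫
          z.v p q hpq = 0 := by
        refine Eq.trans ?_ hz
        unfold top jj
        rw [Cochain.comp_v _ _ (show (-2 : ℤ) + 2 = 0 by norm_num) q p q (by omega) (by omega),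
          Cochain.comp_v _ _ (show (-1 : ℤ) + -1 = -2 by norm_num) q (p + 1) p (by omega)
            (by omega), Category.assoc]
        rfl
      exact (cancel_epi E).1 (h1.trans comp_zero.symm)
    · exact (isZero_biprod _ (isZero_tr _ _ _ hCE) (isZero_tr _ _ _ hCE)).eq_of_src _ _
  · exact (hN' q hq).eq_of_tgt _ _

/-- a morphism `(M_V)_U ⟶ M'` is determined by the chart `t`, if `U ∩ V = {t}` -/
lemma ext_atT {U V : LowerSet C} {t : C} (hU : t ∈ U) (hV : t ∈ V)
    (hUV : ∀ X : C, X ∈ U → X ∈ V → X = t) {M M' : PMod R}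
    (u : (tr R U).obj ((tr R V).obj M) ⟶ M') (h : ∀ x, atT hU hV u x = 0) : u = 0 := by
  apply pmod_ext
  intro X x
  change _ = (0 : M'.obj X)
  by_cases h1 : X.unop ∈ U ∧ X.unop ∈ V
  · obtain ⟨X⟩ := X
    obtain rfl : X = t := hUV X h1.1 h1.2
    exact h ((show trSub V M (op X) from (show trSub U (trObj V M) (op X) from x).1).1)
  · have hx : x = 0 := by
      apply Subtype.ext
      by_cases h2 : X.unop ∈ U
      · apply Subtype.ext
        exact (show trSub V M X from (show trSub U (trObj V M) X from x).1).2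
          (fun h3 => h1 ⟨h2, h3⟩)
      · exact (show trSub U (trObj V M) X from x).2 h2
    rw [hx]
    exact map_zero (u.app X).hom

end zero

section alg

variable {K : Type} [Field K] {c₁ c₂ : CurveData K} (S : SurfData c₁ c₂)

/-- the functions on the smallest chart are sums of products -/
lemma span_prod (x : S.L) (hx : x ∈ S.A cab cab) :
    ∃ (m : ℕ) (f : Fin m → c₁.A cab) (g : Fin m → c₂.A cab),
      x = ∑ k, S.e₁ (f k : c₁.F) * S.e₂ (g k : c₂.F) := by
  have h1 : (c₁.A cab).map S.e₁ = (S.e₁.comp (c₁.A cab).val).range := by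
    rw [AlgHom.range_comp, Subalgebra.range_val]
  have h2 : (c₂.A cab).map S.e₂ = (S.e₂.comp (c₂.A cab).val).range := by
    rw [AlgHom.range_comp, Subalgebra.range_val]
  have hx' : x ∈ (c₁.A cab).map S.e₁ ⊔ (c₂.A cab).map S.e₂ := hx
  rw [h1, h2, ← Algebra.TensorProduct.productMap_range] at hx'
  obtain ⟨t, ht⟩ := hx'
  obtain ⟨k, m, n, hmn⟩ := TensorProduct.exists_sum_tmul_eq t
  refine ⟨k, m, n, ?_⟩
  rw [← ht, hmn]
  change Algebra.TensorProduct.productMap (S.e₁.comp (c₁.A cab).val) (S.e₂.comp (c₂.A cab).val)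
    (∑ j, m j ⊗ₜ[K] n j) = _
  rw [map_sum]
  exact Finset.sum_congr rfl fun j _ => Algebra.TensorProduct.productMap_apply_tmul _ _ _ _

lemma c0_only (X : Ch2) (h1 : X ∈ (w₁S S).ab) (h2 : X ∈ (w₂S S).ab) : X = SurfData.c0 :=
  le_antisymm (show X ≤ SurfData.c0 from And.intro h1 h2)
    (show SurfData.c0 ≤ X from And.intro (cab_le X.i) (cab_le X.j))


/-- the value of the additive section given by a function of the first curve -/
lemma sec₁_val (f : c₁.A cab) :
    ((show S.A cab cab from (S.dirS₁.sec cab f).a (op SurfData.c0)) : S.L) = S.e₁ (f : c₁.F) := by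
  rw [Dir.sec_a _ f (le_refl (α := Cov Bool) _)]
  rfl

lemma sec₂_val (g : c₂.A cab) :
    ((show S.A cab cab from (S.dirS₂.sec cab g).a (op SurfData.c0)) : S.L) = S.e₂ (g : c₂.F) := by
  rw [Dir.sec_a _ g (le_refl (α := Cov Bool) _)]
  rfl

/-- a module isomorphic to the structure sheaf: endomorphisms of the sections are multiplications -/
lemma exists_mul {C : Type} [Preorder C] {R : PAlg K C} {M : PMod R} (β : M ≅ OR R) (X : Cᵒᵖ)
    (u : M.obj X →ₗ[R.toRing.obj X] M.obj X) : ∃ a : R.toRing.obj X, ∀ x, u x = a • x := by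
  let b₀ : M.obj X := β.inv.app X (1 : R.toRing.obj X)
  have h1 : ∀ x : M.obj X, x = (show R.toRing.obj X from β.hom.app X x) • b₀ := by
    intro x
    have h2 : β.inv.app X ((show R.toRing.obj X from β.hom.app X x) • (1 : R.toRing.obj X)) =
        (show R.toRing.obj X from β.hom.app X x) • b₀ := (β.inv.app X).hom.map_smul _ _
    have h3 : β.inv.app X (β.hom.app X x) = x := congr(($(β.hom_inv_id).app X) x)
    rw [← h2]
    have h4 : (show R.toRing.obj X from β.hom.app X x) • (1 : R.toRing.obj X) =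
      (show R.toRing.obj X from β.hom.app X x) := mul_one _
    refine h3.symm.trans ?_
    exact congrArg _ h4.symm
  refine ⟨β.hom.app X (u b₀), fun x => ?_⟩
  have h5 := h1 (u b₀)
  rw [h1 x, map_smul]
  conv_lhs => rw [h5]
  rw [smul_smul, smul_smul]
  congr 1
  exact mul_comm (show R.obj X from _) (show R.obj X from _)

end alg

/-- vector bundles are closed under isomorphisms with the structure sheaf -/
lemma isVB_of_iso {K : Type} [Field K] {C : Type} [Preorder C] {R : PAlg K C} {M : PMod R}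
    (h : IsCoh R M) (β : M ≅ OR R) : IsVB R M := by
  refine ⟨h, fun X => ?_⟩
  have e : M.obj X ≃ₗ[R.toRing.obj X] (OR R).obj X := ((ev R X).mapIso β).toLinearEquiv
  have h2 : Module.Projective (R.toRing.obj X) ((OR R).obj X) :=
    inferInstanceAs (Module.Projective (R.toRing.obj X) (R.toRing.obj X))
  exact Module.Projective.of_equiv e.symm

lemma isVB_of_zero {K : Type} [Field K] {C : Type} [Preorder C] {R : PAlg K C} {M : PMod R}
    (h : IsCoh R M) (hz : IsZero M) : IsVB R M := by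
  refine ⟨h, fun X => ?_⟩
  have := subsingleton_of_isZero hz X
  infer_instance

section main

variable {K : Type} [Field K] {C : Type} [Preorder C] {R : PAlg K C}

/-- `top` is additive -/
noncomputable def topH (w₁ w₂ : Cov2 C) (N N' : Cx R) :
    Cochain (PP w₁ w₂ N) N' 2 →+ Cochain (tt w₁.ab w₂.ab N) N' 0 :=
  AddMonoidHom.mk' (top w₁ w₂) (fun _ _ => by unfold top; exact Cochain.comp_add _ _ _ _)

/-- `atT` is additive -/
noncomputable def atH {U V : LowerSet C} {t : C} (hU : t ∈ U) (hV : t ∈ V) (N N' : Cx R) (n : ℤ)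
    (x : (N.X n).obj (op t)) : Cochain (tt U V N) N' 0 →+ (N'.X n).obj (op t) :=
  AddMonoidHom.mk' (fun z => atT hU hV (z.v n n (add_zero n)) x) (fun _ _ => rfl)

/-- `cl` is additive -/
noncomputable def clH (hCLA : Tra.Stmt_CLA) (N N' : Cx R) :
    Cocycle N N' 2 →+ (DerivedCategory.Q.obj N ⟶ (DerivedCategory.Q.obj N')⟦(2 : ℤ)⟧) :=
  AddMonoidHom.mk' cl (hCLA K (PMod R) N N').1

end main

open Tra in
/-- the statement for an object given by a complex concentrated in one degree -/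
lemma main (hFFD : Pool.CRD.Stmt_FFD) (hSEF : Pool.CRD.Stmt_SEF) (hAMX : Pool.CRD.D1.Stmt_AMX)
    (hKPB : Tra.Stmt_KPB) (hREP : Tra.Stmt_REP) (hCLA : Tra.Stmt_CLA) (hMVE : Tra.Stmt_MVE)
    (hCCT : Tra.Stmt_CCT) (hKA1 : Tra.Stmt_KA1) (hKA2 : Tra.Stmt_KA2)
    {K : Type} [Field K] {c₁ c₂ : CurveData K} (S : SurfData c₁ c₂) [S.R.Good] (M : Db S.R)
    (V : CochainComplex (Coh S.R) ℤ) (α : M.obj ≅ DerivedCategory.Q.obj V) (m : ℤ)
    (hV : ∀ i, i ≠ m → IsZero (V.X i)) (β : V.X m ≅ OCoh S.R) (e : M ⟶ M⟦(2 : ℤ)⟧) :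
    ∃ (k : ℕ) (f : Fin k → c₁.A cab) (g : Fin k → c₂.A cab),
      e = ∑ i, cc S.dirS₁ S.dirS₂ (f i) (g i) M := by
  obtain ⟨⟨Am, -⟩, -⟩ := hAMX K c₁ c₂ S
  have hEff : Effac S.R := hSEF K K (Bool × Bool) Ch2 S.R Am
  obtain ⟨-, hfaith, -⟩ := hFFD K Ch2 S.R hEff
  have hβ : (V.X m).obj ≅ OR S.R := (IsCoh S.R).ι.mapIso β
  have hVZ : ∀ i, i ≠ m → IsZero ((V.X i).obj) := fun i hi => (IsCoh S.R).ι.map_isZero (hV i hi)
  have hBVB : BVB V := by
    refine ⟨⟨m, m, ?_, ?_⟩, fun n => ?_⟩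
    · rw [CochainComplex.isStrictlyGE_iff]
      intro i hi
      exact hV i (by omega)
    · rw [CochainComplex.isStrictlyLE_iff]
      intro i hi
      exact hV i (by omega)
    · by_cases hn : n = m
      · subst hn
        exact isVB_of_iso (V.X n).property hβ
      · exact isVB_of_zero (V.X n).property (hVZ n hn)
  set N : Cx S.R := (ιC S.R).obj V with hN
  have hK := hKPB K Ch2 S.R (w₁S S) (w₂S S) (FN0_.princ S) N (CYC_.bq hBVB)
  have hI := ((hMVE K Ch2 S.R).2.1 (w₁S S) (w₂S S) N).2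
  obtain ⟨hex, -⟩ := hREP (PMod S.R) (PP (w₁S S) (w₂S S) N) N N (PPπ (w₁S S) (w₂S S) N)
  obtain ⟨z, hz⟩ := hex (tre M V α e)
  obtain ⟨a, ha⟩ := exists_mul (M := N.X m) hβ (op SurfData.c0)
    (atT (c0_mem₁ S) (c0_mem₂ S) ((top (w₁S S) (w₂S S)
      (z : Cochain (PP (w₁S S) (w₂S S) N) N 2)).v m m (add_zero m)))
  obtain ⟨ε, hε, H⟩ := hKA2
  -- the decomposition of the function
  obtain ⟨k, f, g, hfg⟩ := span_prod S ((ε • (show S.A cab cab from a) : S.A cab cab) : S.L)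
    (ε • (show S.A cab cab from a) : S.A cab cab).2
  have hz' : ∀ i : Fin k, ∃ zi : Cocycle (PP (w₁S S) (w₂S S) N) N 2,
      Rep (w₁S S) (w₂S S) zi (tre M V α (cc S.dirS₁ S.dirS₂ (f i) (g i) M)) ∧
      ∀ x, atT (c0_mem₁ S) (c0_mem₂ S) ((top (w₁S S) (w₂S S)
        (zi : Cochain (PP (w₁S S) (w₂S S) N) N 2)).v m m (add_zero m)) x =
          ε • ((S.dirS₂.sec cab (g i)).a (op SurfData.c0) •
            (S.dirS₁.sec cab (f i)).a (op SurfData.c0) • x) := by
    intro i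
    obtain ⟨zi, h1, h2⟩ := H K Ch2 S.R (w₁S S) (w₂S S) N (S.dirS₁.sec cab (f i))
      (S.dirS₂.sec cab (g i)) (S.dirS₁.κM (f i)) (S.dirS₂.κM (g i))
      (hKA1 K c₁ Ch2 S.R S.dirS₁ (f i) (CE (w₂S S) N)) (hKA1 K c₂ Ch2 S.R S.dirS₂ (g i) N)
    refine ⟨zi, ?_, fun x => h2 SurfData.c0 (c0_mem₁ S) (c0_mem₂ S) m x⟩
    rw [hCCT K c₁ c₂ Ch2 S.R S.dirS₁ S.dirS₂ (f i) (g i) M V α]
    exact h1
  choose zi hzi1 hzi2 using hz'
  refine ⟨k, f, g, ?_⟩
  -- the difference
  have htop : (z : Cochain (PP (w₁S S) (w₂S S) N) N 2) - ∑ i, (zi i : Cochain _ _ _) = 0 := by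
    refine eq_zero_of_top (w₁S S) (w₂S S) N N m hVZ hVZ _ ?_
    refine ext_atT (c0_mem₁ S) (c0_mem₂ S) (c0_only S) _ fun x => ?_
    have h1 : atH (c0_mem₁ S) (c0_mem₂ S) N N m x (topH (w₁S S) (w₂S S) N N
        ((z : Cochain (PP (w₁S S) (w₂S S) N) N 2) - ∑ i, (zi i : Cochain _ _ _))) = 0 := by
      rw [map_sub, map_sub, map_sum, map_sum]
      have h2 : atH (c0_mem₁ S) (c0_mem₂ S) N N m x (topH (w₁S S) (w₂S S) N N
        (z : Cochain (PP (w₁S S) (w₂S S) N) N 2)) = a • x := ha x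
      have h3 : ∀ i, atH (c0_mem₁ S) (c0_mem₂ S) N N m x (topH (w₁S S) (w₂S S) N N
          (zi i : Cochain (PP (w₁S S) (w₂S S) N) N 2)) = ε •
          ((S.dirS₂.sec cab (g i)).a (op SurfData.c0) •
            (S.dirS₁.sec cab (f i)).a (op SurfData.c0) • x) := fun i => hzi2 i x
      rw [h2, Finset.sum_congr rfl fun i _ => h3 i]
      have hs : ∑ i, (S.dirS₂.sec cab (g i)).a (op SurfData.c0) *
          (S.dirS₁.sec cab (f i)).a (op SurfData.c0) = ε • a := by
        have h4 : (∑ i, (show S.A cab cab from (S.dirS₂.sec cab (g i)).a (op SurfData.c0)) *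
            (show S.A cab cab from (S.dirS₁.sec cab (f i)).a (op SurfData.c0))) =
            ε • (show S.A cab cab from a) := by
          apply Subtype.ext
          rw [hfg]
          change (S.A cab cab).val _ = _
          rw [map_sum]
          refine Finset.sum_congr rfl fun i _ => ?_
          rw [map_mul, mul_comm]
          exact congrArg₂ (· * ·) (sec₁_val S (f i)) (sec₂_val S (g i))
        exact h4
      have h5 : ∑ i, ε • ((S.dirS₂.sec cab (g i)).a (op SurfData.c0) •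
          (S.dirS₁.sec cab (f i)).a (op SurfData.c0) • x) =
          ε • ((∑ i, (S.dirS₂.sec cab (g i)).a (op SurfData.c0) *
            (S.dirS₁.sec cab (f i)).a (op SurfData.c0)) • x) := by
        rw [Finset.sum_smul, Finset.smul_sum]
        exact Finset.sum_congr rfl fun i _ => by rw [mul_smul]
      rw [h5, hs, smul_assoc, smul_smul]
      rcases hε with rfl | rfl
      · rw [one_mul, one_smul, sub_self]
      · rw [neg_one_mul, neg_neg, one_smul, sub_self]
    exact h1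
  have hcoc : z - ∑ i, zi i = 0 := by
    apply Cocycle.ext
    refine Eq.trans ?_ htop
    have h6 : ((∑ i, zi i : Cocycle (PP (w₁S S) (w₂S S) N) N 2) :
        Cochain (PP (w₁S S) (w₂S S) N) N 2) = ∑ i, (zi i : Cochain _ _ _) :=
      map_sum (cocycle (PP (w₁S S) (w₂S S) N) N 2).subtype _ _
    rw [← h6]
    rfl
  have hQ : DerivedCategory.Q.map (PPπ (w₁S S) (w₂S S) N) ≫
      CYC_.trl M V α (e - ∑ i, cc S.dirS₁ S.dirS₂ (f i) (g i) M) = 0 := by
    have h7 : clH hCLA (PP (w₁S S) (w₂S S) N) N (z - ∑ i, zi i) = 0 := by rw [hcoc, map_zero]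
    rw [← h7, map_sub, map_sum, map_sub, map_sum, Preadditive.comp_sub, Preadditive.comp_sum]
    exact congrArg₂ (· - ·) hz (Finset.sum_congr rfl fun i _ => hzi1 i)
  have h8 : CYC_.trl M V α (e - ∑ i, cc S.dirS₁ S.dirS₂ (f i) (g i) M) = 0 :=
    (Preadditive.IsIso.comp_left_eq_zero _ _).1 hQ
  have h9 : tre M V α (e - ∑ i, cc S.dirS₁ S.dirS₂ (f i) (g i) M) = 0 := h8
  unfold tre at h9
  rw [Preadditive.IsIso.comp_left_eq_zero, Preadditive.IsIso.comp_right_eq_zero] at h9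
  rw [← sub_eq_zero]
  apply (ιD S.R).map_injective
  rw [h9, Functor.map_zero]

end H2O_

theorem h2o_proof (hFFD : Pool.CRD.Stmt_FFD) (hSEF : Pool.CRD.Stmt_SEF)
    (hAMX : Pool.CRD.D1.Stmt_AMX) (hKPB : Tra.Stmt_KPB) (hREP : Tra.Stmt_REP)
    (hCLA : Tra.Stmt_CLA) (hMVE : Tra.Stmt_MVE) (hCCT : Tra.Stmt_CCT) (hKA1 : Tra.Stmt_KA1)
    (hKA2 : Tra.Stmt_KA2) : Stmt_H2O := by
  intro K _ _ _ c₁ c₂ S _ n e
  let V : CochainComplex (Coh S.R) ℤ :=
    ((CochainComplex.singleFunctor (Coh S.R) 0).obj (OCoh S.R))⟦n⟧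
  let α : (((sgB S.R).obj (OCoh S.R))⟦n⟧).obj ≅ DerivedCategory.Q.obj V :=
    (DerivedCategory.Bounded.ι.commShiftIso n).app ((sgB S.R).obj (OCoh S.R)) ≪≫
      ((DerivedCategory.Q (C := Coh S.R)).commShiftIso n).symm.app
        ((CochainComplex.singleFunctor (Coh S.R) 0).obj (OCoh S.R))
  refine H2O_.main hFFD hSEF hAMX hKPB hREP hCLA hMVE hCCT hKA1 hKA2 S _ V α (-n) ?_ ?_ e
  · intro i hi
    exact HomologicalComplex.isZero_single_obj_X (ComplexShape.up ℤ) 0 (OCoh S.R) (i + n)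
      (by omega)
  · exact HomologicalComplex.singleObjXIsoOfEq (ComplexShape.up ℤ) 0 (OCoh S.R) (-n + n)
      (by omega)

end Pool.CRD.Ph
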