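import Pool.Agent.CRD.Phi.Stmts

/-!
# CRD, area PHI: KZX, the Koszul sequence of two sections without common zeros
-/

open CategoryTheory Opposite Limits Pretriangulated

namespace Pool.CRD.Ph

namespace KZX_

section gen

variable {K : Type} [Field K] {C : Type} [SmallCategory C] {R : PAlg K C}

/-- scalar multiplication by a function of the chart -/
noncomputable def sm (M : PMod R) (X : Cᵒᵖ) (a : R.toRing.obj X) :
    M.obj X →ₗ[R.toRing.obj X] M.obj X where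
  toFun x := a • x
  map_add' x y := smul_add _ _ _
  map_smul' r x := by
    change a • (r • x) = r • (a • x)
    rw [smul_smul, smul_smul]
    congr 1
    exact mul_comm (G := R.obj X) _ _

variable {c d : UCoc R}

/-- `M ⟶ M(c)` -/
noncomputable def m₁ (s : LSec c) (M : Coh R) : M ⟶ (twC c).obj M :=
  ObjectProperty.homMk ((mulL s).app M.obj)

lemma cmpR (t : LSec d) (c : UCoc R) (M : PMod R) {X Y : Cᵒᵖ} (f : X ⟶ Y) (x : M.obj X) :
    t.a Y • (c.v f • rs M f x) = (c * d).v f • rs M f (t.a X • x) := by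
  rw [rs_smul, smul_smul, smul_smul, UCoc.mul_v, mul_assoc, t.compat f, UCoc.v_comm]

lemma cmpL (s : LSec c) (d : UCoc R) (M : PMod R) {X Y : Cᵒᵖ} (f : X ⟶ Y) (x : M.obj X) :
    s.a Y • (d.v f • rs M f x) = (c * d).v f • rs M f (s.a X • x) := by
  rw [rs_smul, smul_smul, smul_smul, UCoc.mul_v, UCoc.v_comm c, mul_assoc, s.compat f,
    UCoc.v_comm d]

/-- `M(c) ⟶ M(cd)` given by a section of `d` -/
noncomputable def mR (t : LSec d) (c : UCoc R) (M : Coh R) :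
    (twC c).obj M ⟶ (twC (c * d)).obj M :=
  ObjectProperty.homMk (mkHom (M := c.twObj M.obj) (N := (c * d).twObj M.obj)
    (fun X => sm M.obj X (t.a X)) (fun {_ _} f x => cmpR t c M.obj f x))

/-- `M(d) ⟶ M(cd)` given by a section of `c` -/
noncomputable def mL (s : LSec c) (d : UCoc R) (M : Coh R) :
    (twC d).obj M ⟶ (twC (c * d)).obj M :=
  ObjectProperty.homMk (mkHom (M := d.twObj M.obj) (N := (c * d).twObj M.obj)
    (fun X => sm M.obj X (s.a X)) (fun {_ _} f x => cmpL s d M.obj f x))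

/-- application of a morphism of coherent modules on a chart -/
noncomputable def ap {M N : Coh R} (φ : M ⟶ N) (X : Cᵒᵖ) (x : M.obj.obj X) : N.obj.obj X :=
  φ.hom.app X x

lemma ap_comp {M N P : Coh R} (φ : M ⟶ N) (ψ : N ⟶ P) (X : Cᵒᵖ) (x : M.obj.obj X) :
    ap (φ ≫ ψ) X x = ap ψ X (ap φ X x) := rfl

lemma ap_add {M N : Coh R} (φ ψ : M ⟶ N) (X : Cᵒᵖ) (x : M.obj.obj X) :
    ap (φ + ψ) X x = ap φ X x + ap ψ X x := rfl

lemma ap_id {M : Coh R} (X : Cᵒᵖ) (x : M.obj.obj X) :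
    ap (𝟙 M) X x = x := rfl

lemma ap_neg {M N : Coh R} (φ : M ⟶ N) (X : Cᵒᵖ) (x : M.obj.obj X) :
    ap (-φ) X x = - ap φ X x := rfl

lemma ap_map_add {M N : Coh R} (φ : M ⟶ N) (X : Cᵒᵖ) (x y : M.obj.obj X) :
    ap φ X (x + y) = ap φ X x + ap φ X y := map_add (φ.hom.app X).hom x y

lemma ap_zero {M N : Coh R} (X : Cᵒᵖ) (x : M.obj.obj X) :
    ap (0 : M ⟶ N) X x = 0 := rfl

variable [R.Good] (s : LSec c) (t : LSec d) (M : Coh R)

/-- first map -/
noncomputable def F : M ⟶ (twC c).obj M ⊞ (twC d).obj M := biprod.lift (m₁ s M) (m₁ t M)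

/-- second map -/
noncomputable def G : (twC c).obj M ⊞ (twC d).obj M ⟶ (twC (c * d)).obj M :=
  biprod.desc (mR t c M) (-mL s d M)

lemma pair_ext (A B : Coh R) (X : Cᵒᵖ) (z z' : (A ⊞ B).obj.obj X)
    (h1 : ap (biprod.fst : A ⊞ B ⟶ A) X z = ap (biprod.fst : A ⊞ B ⟶ A) X z')
    (h2 : ap (biprod.snd : A ⊞ B ⟶ B) X z = ap (biprod.snd : A ⊞ B ⟶ B) X z') : z = z' := by
  have h : ∀ y : (A ⊞ B).obj.obj X, y = ap (biprod.inl : A ⟶ A ⊞ B) X
      (ap (biprod.fst : A ⊞ B ⟶ A) X y) + ap (biprod.inr : B ⟶ A ⊞ B) X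
      (ap (biprod.snd : A ⊞ B ⟶ B) X y) := by
    intro y
    have h3 := congrArg (fun φ => ap φ X y) (biprod.total (X := A) (Y := B))
    exact h3.symm
  rw [h z, h z', h1, h2]

lemma pair_ex (A B : Coh R) (X : Cᵒᵖ) (a : A.obj.obj X) (b : B.obj.obj X) :
    ∃ z : (A ⊞ B).obj.obj X, ap (biprod.fst : A ⊞ B ⟶ A) X z = a ∧
      ap (biprod.snd : A ⊞ B ⟶ B) X z = b := by
  have e1 : ap (biprod.fst : A ⊞ B ⟶ A) X (ap (biprod.inl : A ⟶ A ⊞ B) X a) = a := by
    rw [← ap_comp, biprod.inl_fst, ap_id]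
  have e2 : ap (biprod.fst : A ⊞ B ⟶ A) X (ap (biprod.inr : B ⟶ A ⊞ B) X b) = 0 := by
    rw [← ap_comp, biprod.inr_fst, ap_zero]
  have e3 : ap (biprod.snd : A ⊞ B ⟶ B) X (ap (biprod.inl : A ⟶ A ⊞ B) X a) = 0 := by
    rw [← ap_comp, biprod.inl_snd, ap_zero]
  have e4 : ap (biprod.snd : A ⊞ B ⟶ B) X (ap (biprod.inr : B ⟶ A ⊞ B) X b) = b := by
    rw [← ap_comp, biprod.inr_snd, ap_id]
  refine ⟨ap (biprod.inl : A ⟶ A ⊞ B) X a + ap (biprod.inr : B ⟶ A ⊞ B) X b, ?_, ?_⟩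
  · rw [ap_map_add, e1, e2, add_zero]
  · rw [ap_map_add, e3, e4, zero_add]

lemma fst_F (X : Cᵒᵖ) (x : M.obj.obj X) :
    ap (biprod.fst : (twC c).obj M ⊞ (twC d).obj M ⟶ _) X (ap (F s t M) X x) =
      (s.a X • x : M.obj.obj X) := by
  rw [← ap_comp, F, biprod.lift_fst]
  rfl

lemma snd_F (X : Cᵒᵖ) (x : M.obj.obj X) :
    ap (biprod.snd : (twC c).obj M ⊞ (twC d).obj M ⟶ _) X (ap (F s t M) X x) =
      (t.a X • x : M.obj.obj X) := by
  rw [← ap_comp, F, biprod.lift_snd]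
  rfl

lemma ap_G (X : Cᵒᵖ) (z : ((twC c).obj M ⊞ (twC d).obj M).obj.obj X) (a b : M.obj.obj X)
    (ha : ap (biprod.fst : (twC c).obj M ⊞ (twC d).obj M ⟶ _) X z = a)
    (hb : ap (biprod.snd : (twC c).obj M ⊞ (twC d).obj M ⟶ _) X z = b) :
    ap (G s t M) X z = (t.a X • a - s.a X • b : M.obj.obj X) := by
  rw [G, biprod.desc_eq, ap_add, ap_comp, ap_comp, ap_neg, ha, hb, sub_eq_add_neg]
  rfl

omit [R.Good] in
lemma smul_swap (M : PMod R) (X : Cᵒᵖ) (a b : R.toRing.obj X) (x : M.obj X) :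
    a • b • x = b • a • x := by
  rw [smul_smul, smul_smul]
  congr 1
  exact mul_comm (G := R.obj X) _ _

lemma wz : F s t M ≫ G s t M = 0 := by
  apply (IsCoh R).ι.map_injective
  apply pmod_ext
  intro X x
  change ap (F s t M ≫ G s t M) X x = 0
  rw [ap_comp, ap_G s t M X _ _ _ (fst_F s t M X x) (snd_F s t M X x), smul_swap, sub_self]
  rfl

lemma se (hU : ∀ X, s.a X = 1 ∨ t.a X = 1) :
    (ShortComplex.mk (F s t M) (G s t M) (wz s t M)).ShortExact := by
  have h1 : ∀ (X : Cᵒᵖ) (z : ((twC c).obj M ⊞ (twC d).obj M).obj.obj X),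
      ap (G s t M) X z = 0 → ∃ x : M.obj.obj X, ap (F s t M) X x = z := by
    intro X z hz
    obtain ⟨a, ha⟩ : ∃ a : M.obj.obj X,
      ap (biprod.fst : (twC c).obj M ⊞ (twC d).obj M ⟶ _) X z = a := ⟨_, rfl⟩
    obtain ⟨b, hb⟩ : ∃ b : M.obj.obj X,
      ap (biprod.snd : (twC c).obj M ⊞ (twC d).obj M ⟶ _) X z = b := ⟨_, rfl⟩
    have hab : t.a X • a = s.a X • b := by
      have h := (ap_G s t M X z a b ha hb).symm.trans hz
      exact sub_eq_zero.1 h
    rcases hU X with h | h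
    · refine ⟨a, pair_ext _ _ X _ _ ?_ ?_⟩
      · rw [fst_F, ha, h, one_smul]
      · rw [snd_F, hb, hab, h, one_smul]
    · refine ⟨b, pair_ext _ _ X _ _ ?_ ?_⟩
      · rw [fst_F, ha, ← hab, h, one_smul]
      · rw [snd_F, hb, h, one_smul]
  refine { exact := ?_, mono_f := ?_, epi_g := ?_ }
  · rw [coh_exact_iff]
    intro X z
    constructor
    · intro hz
      exact h1 X z hz
    · rintro ⟨x, rfl⟩
      change ap (G s t M) X (ap (F s t M) X x) = 0
      rw [← ap_comp, wz, ap_zero]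
  · rw [coh_mono_iff]
    intro X x y hxy
    have hxy' : ap (F s t M) X x = ap (F s t M) X y := hxy
    have e1 := (fst_F s t M X x).symm.trans ((congrArg _ hxy').trans (fst_F s t M X y))
    have e2 := (snd_F s t M X x).symm.trans ((congrArg _ hxy').trans (snd_F s t M X y))
    rcases hU X with h | h
    · rw [h] at e1
      rw [one_smul] at e1
      rw [one_smul] at e1
      exact e1
    · rw [h] at e2
      rw [one_smul] at e2
      rw [one_smul] at e2
      exact e2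
  · rw [coh_epi_iff]
    intro X y
    obtain ⟨y', hy'⟩ : ∃ y' : M.obj.obj X, y' = y := ⟨y, rfl⟩
    rcases hU X with h | h
    · obtain ⟨z, hz1, hz2⟩ := pair_ex ((twC c).obj M) ((twC d).obj M) X (0 : M.obj.obj X)
        (-y' : M.obj.obj X)
      refine ⟨z, ?_⟩
      have h2 := ap_G s t M X z _ _ hz1 hz2
      rw [h, one_smul, smul_zero, zero_sub, neg_neg] at h2
      exact h2.trans hy'
    · obtain ⟨z, hz1, hz2⟩ := pair_ex ((twC c).obj M) ((twC d).obj M) X (y' : M.obj.obj X)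
        (0 : M.obj.obj X)
      refine ⟨z, ?_⟩
      have h2 := ap_G s t M X z _ _ hz1 hz2
      rw [h, one_smul, smul_zero, sub_zero] at h2
      exact h2.trans hy'

end gen

end KZX_

open KZX_ in
theorem kzx_proof : Stmt_KZX := by
  classical
  intro K _ c₁ c₂ S X _ M
  refine ⟨_, se X.secR X.secY M ?_, ⟨Iso.refl _⟩, ⟨Iso.refl _⟩, ⟨Iso.refl _⟩⟩
  intro s
  by_cases h : false ∈ s.unop.k.s
  · left
    apply Subtype.ext
    exact if_pos h
  · right
    apply Subtype.ext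
    exact if_neg h

end Pool.CRD.Ph
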