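import Pool.Agent.CRD.Lib.Stmts

/-!
# CRD / Phi: LBE (base change along flat chart maps is exact)
-/

open CategoryTheory Opposite Limits TensorProduct

namespace Pool.CRD.Ph

namespace LBE_

variable {A B : Type} [CommRing A] [CommRing B] (f : A →+* B) {M N P : Type}
    [AddCommGroup M] [AddCommGroup N] [AddCommGroup P] [Module A M] [Module A N] [Module A P]

lemma eq_lT (φ : M →ₗ[A] N) : letI := f.toAlgebra
    (BTlin f φ : BT f M → BT f N) = (φ.lTensor B : B ⊗[A] M → B ⊗[A] N) := by
  letI := f.toAlgebra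
  funext x
  refine bt_induction f (P := fun x => BTlin f φ x = φ.lTensor B x) ?_ ?_ ?_ x
  · exact (map_zero (BTlin f φ)).trans (map_zero (φ.lTensor B)).symm
  · intro b m
    rfl
  · intro x y hx hy
    exact (map_add (BTlin f φ) x y).trans ((congrArg₂ _ hx hy).trans
      (map_add (φ.lTensor B) x y).symm)

lemma inj (hf : f.Flat) (φ : M →ₗ[A] N) (hφ : Function.Injective φ) :
    Function.Injective (BTlin f φ) := by
  letI := f.toAlgebra
  haveI : Module.Flat A B := hf
  have h := Module.Flat.lTensor_preserves_injective_linearMap (M := B) φ hφ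
  intro x y hxy
  apply h
  have e := eq_lT f φ
  exact (congrFun e x).symm.trans (hxy.trans (congrFun e y))

lemma surj (φ : M →ₗ[A] N) (hφ : Function.Surjective φ) :
    Function.Surjective (BTlin f φ) := by
  letI := f.toAlgebra
  have h := LinearMap.lTensor_surjective B hφ
  intro y
  obtain ⟨x, hx⟩ := h y
  exact ⟨x, (congrFun (eq_lT f φ) x).trans hx⟩

lemma exact (φ : M →ₗ[A] N) (ψ : N →ₗ[A] P) (h : Function.Exact φ ψ)
    (hψ : Function.Surjective ψ) : Function.Exact (BTlin f φ) (BTlin f ψ) := by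
  letI := f.toAlgebra
  have h := lTensor_exact B h hψ
  intro y
  have e1 := congrFun (eq_lT f ψ) y
  have e2 := eq_lT f φ
  have h3 : (BTlin f ψ) y = 0 ↔ (ψ.lTensor B) y = 0 := by
    constructor
    · intro h'; exact e1.symm.trans h'
    · intro h'; exact e1.trans h'
  rw [h3]
  refine (h y).trans ?_
  change y ∈ Set.range (φ.lTensor B : B ⊗[A] M → B ⊗[A] N) ↔ y ∈ Set.range (BTlin f φ)
  constructor
  · rintro ⟨x, hx⟩
    exact ⟨x, (congrFun e2 x).trans hx⟩
  · rintro ⟨x, hx⟩
    exact ⟨x, (congrFun e2 x).symm.trans hx⟩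

end LBE_

theorem lbe_proof : Stmt_LBE := by
  intro K _ C D _ _ R₁ R₂ g hg
  have hS : ∀ S : ShortComplex (PMod R₁), S.ShortExact → (S.map g.bcF).ShortExact := by
    intro S hS
    haveI := hS.mono_f
    haveI := hS.epi_g
    have e := fun X => exact_app S hS.exact X
    exact
      { exact := (pmod_exact_iff _).2 (fun X => LBE_.exact (g.hom X)
          (M := S.X₁.obj (g.m.op.obj X)) (N := S.X₂.obj (g.m.op.obj X))
          (P := S.X₃.obj (g.m.op.obj X)) _ _ (e (g.m.op.obj X))
          (surj_of_epi S.g (g.m.op.obj X)))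
        mono_f := (pmod_mono_iff _).2 (fun X => LBE_.inj (g.hom X) (hg X)
          (M := S.X₁.obj (g.m.op.obj X)) (N := S.X₂.obj (g.m.op.obj X)) _
          (inj_of_mono S.f (g.m.op.obj X)))
        epi_g := (pmod_epi_iff _).2 (fun X => LBE_.surj (g.hom X)
          (M := S.X₂.obj (g.m.op.obj X)) (N := S.X₃.obj (g.m.op.obj X)) _
          (surj_of_epi S.g (g.m.op.obj X))) }
  have h4 := ((Functor.exact_tfae g.bcF).out 0 3).1 hS
  exact ⟨⟨h4.1⟩, ⟨h4.2⟩⟩

end Pool.CRD.Ph
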