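import Pool.Agent.CRD.Phi.Stmts

/-!
# CRD, area PHI, PHF: `Φ_i` is fully faithful
-/

open CategoryTheory Opposite Limits Pretriangulated

namespace Pool.CRD.Ph

theorem phf_proof (hFFP : Stmt_FFP) (hPHT : Stmt_PHT) (hTWM : Stmt_TWM) : Stmt_PHF := by
  intro K _ _ _ c₁ c₂ S X _ _ _ i
  obtain ⟨a⟩ := (hPHT K c₁ c₂ S X i).2
  obtain ⟨h1, h2⟩ := hFFP K c₁ c₂ S X
  have h3 : (twB (X.wi ^ i)).IsEquivalence := (hTWM K Ch3 X.R).2.2.2 (X.wi ^ i)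
  exact ⟨Functor.Full.of_iso a.symm, Functor.Faithful.of_iso a.symm⟩

end Pool.CRD.Ph
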