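import Pool.Agent.CRD.Phi.Stmts

/-!
# CRD, area PHI, module PHO: the pull back of `N^m` is `N^m`
-/

open CategoryTheory Opposite Limits Pretriangulated

namespace Pool.CRD.Ph

namespace PHO_

section Alg

variable {A B : Type} [CommRing A] [CommRing B] (f : A →+* B)

/-- `B ⊗_A A = B` -/
noncomputable def eqv : BT f A ≃ₗ[B] B :=
  letI := f.toAlgebra
  TensorProduct.AlgebraTensorModule.rid A B B

lemma eqv_bt (b : B) (a : A) : eqv f (bt f b a) = f a * b := by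
  letI := f.toAlgebra
  exact TensorProduct.AlgebraTensorModule.rid_tmul (R := A) (A := B) (M := B) a b

lemma key {A' B' : Type} [CommRing A'] [CommRing B'] (f' : A' →+* B') (α : A →+* A')
    (β : B →+* B') (h : ∀ x, β (f x) = f' (α x)) (u : A') (v : B') (huv : f' u = v)
    (ρ : A →+ A') (hρ : ∀ (r m : A), ρ (r • m) = α r • ρ m) (hu : ∀ a, ρ a = u * α a)
    (x : BT f A) : eqv f' (BTmap α β h ρ hρ x) = v * β (eqv f x) := by
  induction x using bt_induction with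
  | h0 => rw [map_zero, map_zero, map_zero, map_zero, mul_zero]
  | h1 b a => rw [BTmap_bt, eqv_bt, eqv_bt, hu, map_mul, huv, map_mul, h, mul_assoc]
  | h2 x y hx hy => rw [map_add, map_add, hx, hy, map_add, map_add, mul_add]

end Alg

section

variable {K : Type} [Field K] {C : Type} [SmallCategory C] {R : PAlg K C}

/-- evaluation of cocycles -/
def evc {X Y : Cᵒᵖ} (f : X ⟶ Y) : UCoc R →* (R.obj Y)ˣ where
  toFun c := c.u f
  map_one' := rfl
  map_mul' _ _ := rfl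

lemma u_zpow (c : UCoc R) (m : ℤ) {X Y : Cᵒᵖ} (f : X ⟶ Y) : (c ^ m).u f = c.u f ^ m :=
  map_zpow (evc f) c m

end

section

variable {K : Type} [Field K] {C D : Type} [SmallCategory C] [SmallCategory D]
  {R₁ : PAlg K C} {R₂ : PAlg K D} (g : DMor R₁ R₂)

/-- `c₂` is the pull back of `c₁` -/
def IsPb (c₁ : UCoc R₁) (c₂ : UCoc R₂) : Prop :=
  ∀ {X Y : Dᵒᵖ} (f : X ⟶ Y),
    Units.map (g.hom Y : R₁.obj (g.m.op.obj Y) →* R₂.obj Y) (c₁.u (g.m.op.map f)) = c₂.u f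

lemma IsPb.zpow {c₁ : UCoc R₁} {c₂ : UCoc R₂} (h : IsPb g c₁ c₂) (m : ℤ) :
    IsPb g (c₁ ^ m) (c₂ ^ m) := by
  intro X Y f
  rw [u_zpow, u_zpow, map_zpow, h f]

/-- the pull back of a line bundle -/
noncomputable def pbIso (c₁ : UCoc R₁) (c₂ : UCoc R₂) (h : IsPb g c₁ c₂) :
    g.bcF.obj (c₁.tw.obj (OR R₁)) ≅ c₂.tw.obj (OR R₂) :=
  mkIso (M := g.bcObj (c₁.twObj (OR R₁))) (N := c₂.twObj (OR R₂))
    (fun X => eqv (g.hom X)) (by
    intro X Y f x
    exact key (g.hom X) (g.hom Y) ((R₁.map (g.m.op.map f)).hom.toRingHom)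
      ((R₂.map f).hom.toRingHom) (g.hom_nat f) _ _ (congrArg Units.val (h f)) _
      (fun r m => rs_smul (c₁.twObj (OR R₁)) (g.m.op.map f) r m)
      (fun a => rfl) x)

end

end PHO_

open PHO_ in
theorem pho_proof : Stmt_PHO := by
  intro K _ c₁ c₂ S X _ _ _ m
  have h : IsPb X.pr S.nS X.nX := by
    intro s t f
    apply Units.ext
    apply Subtype.ext
    change algebraMap S.L X.E ((S.h₁ s.unop.i)⁻¹ / (S.h₁ t.unop.i)⁻¹) =
      (algebraMap S.L X.E (S.h₁ s.unop.i))⁻¹ / (algebraMap S.L X.E (S.h₁ t.unop.i))⁻¹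
    rw [map_div₀, map_inv₀, map_inv₀]
  have e := pbIso X.pr (S.nS ^ m) (X.nX ^ m) (IsPb.zpow X.pr h m)
  exact ⟨(IsCoh X.R).isoMk e⟩

end Pool.CRD.Ph
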