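import Pool.Agent.CRD.Phi.Stmts
import Pool.Agent.CRD.A0.FunL

set_option autoImplicit false

/-!
# CRD, area PHI, PHT: `Φ_i` is the pull back followed by the twist
-/

open CategoryTheory Opposite Limits Pretriangulated

universe w₁ w₂ w₃ v₁ v₂ v₃ u₁ u₂ u₃

namespace Pool.CRD.Ph

namespace PHT_

section
variable {A : Type u₁} [Category.{v₁} A] [Abelian A] [HasDerivedCategory.{w₁} A]
  {B : Type u₂} [Category.{v₂} B] [Abelian B] [HasDerivedCategory.{w₂} B]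
  {E : Type u₃} [Category.{v₃} E] [Abelian E] [HasDerivedCategory.{w₃} E]

/-- isomorphic exact functors give isomorphic functors on bounded derived categories -/
noncomputable def mBIso {F G : A ⥤ B} [ExF F] [ExF G] (e : F ≅ G) : mB F ≅ mB G :=
  Functor.fullyFaithfulCancelRight DerivedCategory.Bounded.ι
    (mBι F ≪≫ Functor.isoWhiskerLeft DerivedCategory.Bounded.ι (FunL.natDIso e) ≪≫ (mBι G).symm)

/-- composition -/
noncomputable def mBcomp (F : A ⥤ B) (G : B ⥤ E) [ExF F] [ExF G] :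
    mB F ⋙ mB G ≅ mB (F ⋙ G) :=
  Functor.fullyFaithfulCancelRight DerivedCategory.Bounded.ι
    (Functor.associator _ _ _ ≪≫ Functor.isoWhiskerLeft (mB F) (mBι G) ≪≫
      (Functor.associator _ _ _).symm ≪≫ Functor.isoWhiskerRight (mBι F) (mD G) ≪≫
      Functor.associator _ _ _ ≪≫
      Functor.isoWhiskerLeft DerivedCategory.Bounded.ι (FunL.compD F G) ≪≫ (mBι (F ⋙ G)).symm)

end

end PHT_

theorem pht_proof : Stmt_PHT := by
  intro K _ c₁ c₂ S X _ _ _ i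
  have e : X.PhC i ≅ X.pbC ⋙ twC (X.wi ^ i) :=
    Functor.fullyFaithfulCancelRight (IsCoh X.R).ι
      (show X.PhC i ⋙ (IsCoh X.R).ι ≅ (X.pbC ⋙ twC (X.wi ^ i)) ⋙ (IsCoh X.R).ι from
        Iso.refl ((IsCoh S.R).ι ⋙ X.pbS ⋙ (X.wi ^ i).tw))
  exact ⟨⟨e⟩, ⟨PHT_.mBIso e ≪≫ (PHT_.mBcomp X.pbC (twC (X.wi ^ i))).symm⟩⟩

end Pool.CRD.Ph
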