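import Pool.Agent.CRD.Phi.Stmts

/-!
# CRD / Phi: POK (the pull back to `X` is exact and preserves coherent modules)
-/

open CategoryTheory Opposite Limits Pretriangulated

namespace Pool.CRD.Ph

theorem pok_proof (hLBC : Stmt_LBC) (hLBE : Stmt_LBE) (hFLT : Stmt_FLT) : Stmt_POK := by
  intro K _ _ c₁ c₂ S X
  obtain ⟨⟨h1⟩, ⟨h2⟩⟩ := hLBE K Ch2 Ch3 S.R X.R X.pr (fun s => hFLT K c₁ c₂ S X s)
  exact { coh := fun M hM => hLBC K Ch2 Ch3 S.R X.R X.pr M hM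
          ex := ⟨inferInstance, h1, h2⟩ }

end Pool.CRD.Ph
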