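import Pool.Agent.CRD.Phi.Stmts

/-!
# CRD, area PHI, module RDF: the right adjoints of `p^*` and of `Φ_i` exist
-/

open CategoryTheory Opposite Limits Pretriangulated

namespace Pool.CRD.Ph

namespace RDF_

section tri

variable {K : Type} [CommRing K] {C : Type} [SmallCategory C] {R : PAlg K C} [R.Good]

/-- the triangle of a short exact sequence in the bounded derived category -/
theorem triangle (S : ShortComplex (Coh R)) (hS : S.ShortExact) :
    ∃ δ : (sgB R).obj S.X₃ ⟶ ((sgB R).obj S.X₁)⟦(1 : ℤ)⟧,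
      Triangle.mk ((sgB R).map S.f) ((sgB R).map S.g) δ ∈ distTriang (Db R) := by
  let ι : Db R ⥤ DerivedCategory (Coh R) := DerivedCategory.Bounded.ι
  let c : ι.obj (((sgB R).obj S.X₁)⟦(1 : ℤ)⟧) ≅
      ((DerivedCategory.singleFunctor (Coh R) 0).obj S.X₁)⟦(1 : ℤ)⟧ :=
    (ι.commShiftIso (1 : ℤ)).app ((sgB R).obj S.X₁)
  obtain ⟨w, hw⟩ := ι.map_surjective (X := (sgB R).obj S.X₃) (Y := ((sgB R).obj S.X₁)⟦(1 : ℤ)⟧)
    (hS.singleδ ≫ c.inv)
  refine ⟨w, ?_⟩
  rw [← ι.map_distinguished_iff]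
  refine isomorphic_distinguished _ hS.singleTriangle_distinguished _ ?_
  refine Triangle.isoMk _ _ (Iso.refl _) (Iso.refl _) (Iso.refl _) ?_ ?_ ?_
  · exact (Category.comp_id _).trans (Category.id_comp _).symm
  · exact (Category.comp_id _).trans (Category.id_comp _).symm
  · change (ι.map w ≫ c.hom) ≫ (shiftFunctor (DerivedCategory (Coh R)) (1 : ℤ)).map
      (𝟙 ((DerivedCategory.singleFunctor (Coh R) 0).obj S.X₁)) = 𝟙 _ ≫ hS.singleδ
    rw [hw, CategoryTheory.Functor.map_id, Category.assoc, Category.assoc, Category.comp_id,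
      Category.id_comp, Iso.inv_hom_id, Category.comp_id]

/-- a class of objects closed under isomorphisms, shifts and extensions -/
structure Cl (Q : ObjectProperty (Db R)) : Prop where
  iso : Q.IsClosedUnderIsomorphisms
  sh : ∀ X (n : ℤ), Q X → Q (X⟦n⟧)
  ext : ∀ Δ ∈ distTriang (Db R), Q Δ.obj₁ → Q Δ.obj₃ → Q Δ.obj₂

variable {Q : ObjectProperty (Db R)}

theorem Cl.of_iso (h : Cl Q) {M N : Coh R} (e : M ≅ N) (hM : Q ((sgB R).obj M)) :
    Q ((sgB R).obj N) := by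
  have := h.iso
  exact Q.prop_of_iso ((sgB R).mapIso e) hM

theorem Cl.first (h : Cl Q) (T : ShortComplex (Coh R)) (hT : T.ShortExact)
    (h2 : Q ((sgB R).obj T.X₂)) (h3 : Q ((sgB R).obj T.X₃)) : Q ((sgB R).obj T.X₁) := by
  obtain ⟨δ, hδ⟩ := triangle T hT
  exact h.ext _ (inv_rot_of_distTriang _ hδ) (h.sh _ (-1) h3) h2

theorem Cl.mid (h : Cl Q) (T : ShortComplex (Coh R)) (hT : T.ShortExact)
    (h1 : Q ((sgB R).obj T.X₁)) (h3 : Q ((sgB R).obj T.X₃)) : Q ((sgB R).obj T.X₂) := by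
  obtain ⟨δ, hδ⟩ := triangle T hT
  exact h.ext _ hδ h1 h3

theorem Cl.biprod (h : Cl Q) (M N : Coh R)
    (h1 : Q ((sgB R).obj M)) (h3 : Q ((sgB R).obj N)) : Q ((sgB R).obj (M ⊞ N)) := by
  let T : ShortComplex (Coh R) := ShortComplex.mk (biprod.inl : M ⟶ M ⊞ N) biprod.snd (by simp)
  have hT : T.ShortExact := (ShortComplex.Splitting.ofHasBinaryBiproduct M N).shortExact
  exact h.mid T hT h1 h3

end tri

end RDF_

open RDF_ in
theorem rdf_proof (hRPR : Stmt_RPR) (hLER : Stmt_LER) (hRSV : Stmt_RSV) (hKZX : Stmt_KZX)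
    (hTWM : Stmt_TWM) (hPHT : Stmt_PHT) (_hSGT : Stmt_SGT) (hDVD : Sky.Stmt_DVD) : Stmt_RDF := by
  intro K _ _ _ c₁ c₂ S X _ _ _
  have hcl : Cl X.pbD.rightAdjointObjIsDefined := by
    obtain ⟨h1, h2, h3⟩ := hRPR (Db S.R) (Db X.R) X.pbD
    exact ⟨h1, h2, h3⟩
  obtain ⟨htw, ⟨htw1⟩, -, hteq⟩ := hTWM K Ch3 X.R
  have tw2 : ∀ (c d : UCoc X.R) (M : Coh X.R),
      Nonempty ((twC d).obj ((twC c).obj M) ≅ (twC (c * d)).obj M) := by
    intro c d M
    obtain ⟨e⟩ := (htw c d).1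
    exact ⟨e.app M⟩
  have main : ∀ M : Coh X.R, X.pbD.rightAdjointObjIsDefined ((sgB X.R).obj M) := by
    intro M
    let P : ℤ → Prop := fun d => ∀ m : ℤ,
      X.pbD.rightAdjointObjIsDefined ((sgB X.R).obj ((twC (X.wi ^ d * X.nX ^ m)).obj M))
    obtain ⟨d₀, hd₀⟩ := hRSV K c₁ c₂ S X M
    have h0 : ∀ d : ℤ, (d₀ : ℤ) ≤ d → P d := by
      intro d hd m
      obtain ⟨hM, ⟨hR⟩⟩ := hLER K c₁ c₂ S X ((twC (X.wi ^ d * X.nX ^ m)).obj M)
        (fun s => hd₀ d m hd s)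
      exact hR.isRepresentable
    have hstep : ∀ d : ℤ, P (d + 1) → P (d + 2) → P d := by
      intro d h1 h2 m
      obtain ⟨T, hT, ⟨e1⟩, ⟨e2⟩, ⟨e3⟩⟩ := hKZX K c₁ c₂ S X ((twC (X.wi ^ d * X.nX ^ m)).obj M)
      refine hcl.of_iso e1 (hcl.first T hT ?_ ?_)
      · refine hcl.of_iso e2.symm (hcl.biprod _ _ ?_ ?_)
        · obtain ⟨e⟩ := tw2 (X.wi ^ d * X.nX ^ m) X.wi M
          refine hcl.of_iso e.symm ?_
          have h3 : X.wi ^ d * X.nX ^ m * X.wi = X.wi ^ (d + 1) * X.nX ^ m := by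
            rw [zpow_add_one, mul_right_comm]
          rw [h3]
          exact h1 m
        · obtain ⟨e⟩ := tw2 (X.wi ^ d * X.nX ^ m) (X.wi * X.nX) M
          refine hcl.of_iso e.symm ?_
          have h3 : X.wi ^ d * X.nX ^ m * (X.wi * X.nX) = X.wi ^ (d + 1) * X.nX ^ (m + 1) := by
            rw [zpow_add_one, zpow_add_one, mul_mul_mul_comm]
          rw [h3]
          exact h1 (m + 1)
      · refine hcl.of_iso e3.symm ?_
        obtain ⟨e⟩ := tw2 (X.wi ^ d * X.nX ^ m) (X.wi * (X.wi * X.nX)) M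
        refine hcl.of_iso e.symm ?_
        have h3 : X.wi ^ d * X.nX ^ m * (X.wi * (X.wi * X.nX)) =
            X.wi ^ (d + 2) * X.nX ^ (m + 1) := by
          rw [show d + 2 = d + 1 + 1 by ring, zpow_add_one, zpow_add_one, zpow_add_one,
            ← mul_assoc X.wi X.wi X.nX, mul_mul_mul_comm, ← mul_assoc (X.wi ^ d)]
        rw [h3]
        exact h2 (m + 1)
    have hall : ∀ n : ℕ, ∀ d : ℤ, (d₀ : ℤ) - n ≤ d → P d := by
      intro n
      induction n with
      | zero =>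
        intro d hd
        exact h0 d (by simpa using hd)
      | succ n ih =>
        intro d hd
        push_cast at hd
        exact hstep d (ih _ (by linarith)) (ih _ (by linarith))
    have h1 := hall d₀ 0 (by simp) 0
    rw [zpow_zero, zpow_zero, mul_one] at h1
    exact hcl.of_iso (htw1.app M) h1
  have htop : X.pbD.rightAdjointObjIsDefined = ⊤ := by
    have h := hDVD K Ch3 X.R X.pbD.rightAdjointObjIsDefined hcl.iso hcl.sh hcl.ext main
    funext Y
    simp only [Pi.top_apply, Prop.top_eq_true, eq_iff_iff, iff_true]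
    exact h Y
  have hL : X.pbD.IsLeftAdjoint := Functor.isLeftAdjoint_of_rightAdjointObjIsDefined_eq_top htop
  refine ⟨hL, fun i => ?_⟩
  obtain ⟨-, ⟨e⟩⟩ := hPHT K c₁ c₂ S X i
  have := hteq (X.wi ^ i)
  have h2 : (X.pbD ⋙ twB (X.wi ^ i)).IsLeftAdjoint := inferInstance
  exact Functor.isLeftAdjoint_of_iso e.symm

end Pool.CRD.Ph

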