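import Pool.Agent.CRD.Phi.Stmts

/-!
# CRD, area PHI, RKB: the rank of `R_j Φ_i O[n]`
-/

open CategoryTheory Opposite Limits Pretriangulated

namespace Pool.CRD.Ph

theorem rkb_proof (hRKC : Stmt_RKC) (hPHT : Stmt_PHT) (hPHO : Stmt_PHO) (hTWM : Stmt_TWM)
    (hSGT : Stmt_SGT) (hRKT : Stmt_RKT) : Stmt_RKB := by
  intro K _ _ _ c₁ c₂ S X _ _ _ i j n G adj hij
  obtain ⟨hm, h1C, h1B, heq⟩ := hTWM K Ch3 X.R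
  let E := twB (X.wi ^ (-j))
  have hE : E.IsEquivalence := heq _
  let e := E.asEquivalence
  have adj2 : X.PhD j ⋙ E ⊣ e.inverse ⋙ G := adj.comp e.toAdjunction
  obtain ⟨a⟩ := (hPHT K c₁ c₂ S X j).2
  obtain ⟨b⟩ := (hm (X.wi ^ j) (X.wi ^ (-j))).2
  obtain ⟨o⟩ := h1B
  have hjj : X.wi ^ j * X.wi ^ (-j) = 1 := by rw [← zpow_add, add_neg_cancel, zpow_zero]
  rw [hjj] at b
  let α : X.PhD j ⋙ E ≅ X.pbD :=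
    Functor.isoWhiskerRight a E ≪≫ Functor.associator _ _ _ ≪≫ Functor.isoWhiskerLeft X.pbD b ≪≫
      Functor.isoWhiskerLeft X.pbD o ≪≫ Functor.rightUnitor _
  let adj0 : X.pbD ⊣ e.inverse ⋙ G := adj2.ofNatIsoLeft α
  let _ : (e.inverse ⋙ G).CommShift ℤ := adj0.rightAdjointCommShift ℤ
  let O := (sgB S.R).obj (OCoh S.R)
  obtain ⟨p⟩ := hPHO K c₁ c₂ S X 0
  obtain ⟨t⟩ := (hPHT K c₁ c₂ S X i).1
  obtain ⟨s1⟩ := hSGT K Ch2 Ch3 S.R X.R (X.PhC i)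
  obtain ⟨s2⟩ := hSGT K Ch3 Ch3 X.R X.R (twC (X.wi ^ (-j)))
  obtain ⟨_, ⟨oS⟩, _, _⟩ := hTWM K Ch2 S.R
  obtain ⟨m⟩ := (hm (X.wi ^ i) (X.wi ^ (-j))).1
  obtain ⟨oX⟩ := h1C
  have hij' : X.wi ^ i * X.wi ^ (-j) = X.wi ^ (i - j) := by rw [← zpow_add, ← sub_eq_add_neg]
  rw [hij'] at m
  rw [zpow_zero, zpow_zero] at p
  let q : X.pbC.obj (OCoh S.R) ≅ OCoh X.R :=
    X.pbC.mapIso (oS.app _).symm ≪≫ p ≪≫ oX.app _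
  let r : E.obj ((X.PhD i).obj O) ≅
      (sgB X.R).obj ((twC (X.wi ^ (i - j))).obj (OCoh X.R)) :=
    E.mapIso (s1.app (OCoh S.R)) ≪≫ s2.app _ ≪≫ (sgB X.R).mapIso
      ((twC (X.wi ^ (-j))).mapIso (t.app (OCoh S.R) ≪≫ (twC (X.wi ^ i)).mapIso q) ≪≫ m.app _)
  let f : G.obj ((X.PhD i).obj (O⟦n⟧)) ≅
      ((e.inverse ⋙ G).obj ((sgB X.R).obj ((twC (X.wi ^ (i - j))).obj (OCoh X.R))))⟦n⟧ :=
    G.mapIso (e.unitIso.app _) ≪≫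
      (e.inverse ⋙ G).mapIso (((X.PhD i ⋙ E).commShiftIso n).app O ≪≫
        (shiftFunctor (Db X.R) n).mapIso r) ≪≫ ((e.inverse ⋙ G).commShiftIso n).app _
  have hdom : IsDomain (S.R.ring SurfData.c0) := inferInstanceAs (IsDomain (S.A cab cab))
  obtain ⟨ra, ri, rs, rm⟩ := hRKT K Ch2 S.R SurfData.c0 hdom
  rw [ri _ _ ⟨f⟩, rs, hRKC K c₁ c₂ S X _ adj0 (i - j) hij]

end Pool.CRD.Ph
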