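import Pool.Agent.CRD.Phi.Stmts

/-!
# CRD / Phi: RKC (ranks of the direct images of the powers of `w`)
-/

open CategoryTheory Opposite Limits Pretriangulated

namespace Pool.CRD.Ph

namespace RKC_

section
variable {K : Type} [CommRing K] {C : Type} [SmallCategory C] {R : PAlg K C} [R.Good]

/-- the triangle of a short exact sequence in the bounded derived category -/
theorem triangle (S : ShortComplex (Coh R)) (hS : S.ShortExact) :
    ∃ δ : (sgB R).obj S.X₃ ⟶ ((sgB R).obj S.X₁)⟦(1 : ℤ)⟧,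
      Triangle.mk ((sgB R).map S.f) ((sgB R).map S.g) δ ∈ distTriang (Db R) := by
  let ι : Db R ⥤ DerivedCategory (Coh R) := DerivedCategory.Bounded.ι
  let c : ι.obj (((sgB R).obj S.X₁)⟦(1 : ℤ)⟧) ≅
      ((DerivedCategory.singleFunctor (Coh R) 0).obj S.X₁)⟦(1 : ℤ)⟧ :=
    (ι.commShiftIso (1 : ℤ)).app ((sgB R).obj S.X₁)
  obtain ⟨w, hw⟩ := ι.map_surjective (X := (sgB R).obj S.X₃) (Y := ((sgB R).obj S.X₁)⟦(1 : ℤ)⟧)
    (hS.singleδ ≫ c.inv)
  refine ⟨w, ?_⟩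
  rw [← ι.map_distinguished_iff]
  refine isomorphic_distinguished _ hS.singleTriangle_distinguished _ ?_
  refine Triangle.isoMk _ _ (Iso.refl _) (Iso.refl _) (Iso.refl _) ?_ ?_ ?_
  · exact (Category.comp_id _).trans (Category.id_comp _).symm
  · exact (Category.comp_id _).trans (Category.id_comp _).symm
  · change (ι.map w ≫ c.hom) ≫ (shiftFunctor (DerivedCategory (Coh R)) (1 : ℤ)).map
      (𝟙 ((DerivedCategory.singleFunctor (Coh R) 0).obj S.X₁)) = 𝟙 _ ≫ hS.singleδ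
    rw [hw, CategoryTheory.Functor.map_id, Category.assoc, Category.assoc, Category.comp_id,
      Category.id_comp, Iso.inv_hom_id, Category.comp_id]

lemma sgB_additive : (sgB R).Additive := ⟨fun {M N f g} => by
  apply (DerivedCategory.Bounded.ι (C := Coh R)).map_injective
  exact (DerivedCategory.singleFunctor (Coh R) 0).map_add⟩

end

section
variable {K : Type} [Field K] {C : Type} [SmallCategory C] {R : PAlg K C} [R.Good]

/-- compositions of twists -/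
noncomputable def twTw (c d : UCoc R) (M : Coh R) :
    (twC d).obj ((twC c).obj M) ≅ (twC (c * d)).obj M :=
  ObjectProperty.isoMk _ ((UCoc.twMul c d).app M.obj)

noncomputable def twOneI (M : Coh R) : (twC (1 : UCoc R)).obj M ≅ M :=
  ObjectProperty.isoMk _ (UCoc.twOne.app M.obj)

end

end RKC_

open RKC_ in
theorem rkc_proof (hLER : Stmt_LER) (hKZX : Stmt_KZX) (hRKP : Stmt_RKP) (hRKT : Stmt_RKT)
    (_hSGT : Stmt_SGT) (_hTWM : Stmt_TWM) (_hFFP : Stmt_FFP) (_hPHO : Stmt_PHO) : Stmt_RKC := by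
  intro K _ _ _ c₁ c₂ S X _ _ _ G adj j hj
  have hdom : IsDomain (S.R.ring SurfData.c0) :=
    inferInstanceAs (IsDomain (S.A SurfData.c0.i SurfData.c0.j))
  obtain ⟨htri, hiso, hsh, hsg⟩ := hRKT K Ch2 S.R SurfData.c0 hdom
  -- the basic ranks
  have key : ∀ (e : ℕ) (m : ℤ), e ≤ 1 →
      rkD S.R SurfData.c0 (G.obj ((sgB X.R).obj
        ((twC (X.wi ^ (e : ℤ) * X.nX ^ m)).obj (OCoh X.R)))) = 2 * e + 1 := by
    intro e m he
    have h1 := hRKP K c₁ c₂ S X e m he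
    obtain ⟨hM, ⟨hrep⟩⟩ := hLER K c₁ c₂ S X
      ((twC (X.wi ^ (e : ℤ) * X.nX ^ m)).obj (OCoh X.R)) (fun s => (h1 s).1)
    have hrep' : (X.pbD.op ⋙ yoneda.obj ((sgB X.R).obj
        ((twC (X.wi ^ (e : ℤ) * X.nX ^ m)).obj (OCoh X.R)))).RepresentableBy
          (G.obj ((sgB X.R).obj ((twC (X.wi ^ (e : ℤ) * X.nX ^ m)).obj (OCoh X.R)))) :=
      adj.representableBy _
    have e1 := hrep'.uniqueUpToIso hrep
    rw [hiso _ _ ⟨e1⟩, hsg]
    exact congrArg Nat.cast (h1 SurfData.c0).2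
  letI : G.CommShift ℤ := adj.rightAdjointCommShift ℤ
  haveI : adj.CommShift ℤ := adj.commShift_of_leftAdjoint ℤ
  haveI : G.IsTriangulated := adj.isTriangulated_rightAdjoint
  have radd : ∀ T : ShortComplex (Coh X.R), T.ShortExact →
      rkD S.R SurfData.c0 (G.obj ((sgB X.R).obj T.X₂)) =
        rkD S.R SurfData.c0 (G.obj ((sgB X.R).obj T.X₁)) +
        rkD S.R SurfData.c0 (G.obj ((sgB X.R).obj T.X₃)) := by
    intro T hT
    obtain ⟨δ, hδ⟩ := triangle T hT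
    exact htri _ (G.map_distinguished _ hδ)
  have riso : ∀ M N : Coh X.R, (M ≅ N) →
      rkD S.R SurfData.c0 (G.obj ((sgB X.R).obj M)) =
        rkD S.R SurfData.c0 (G.obj ((sgB X.R).obj N)) :=
    fun M N e => hiso _ _ ⟨G.mapIso ((sgB X.R).mapIso e)⟩
  rcases hj with rfl | rfl | rfl
  · obtain ⟨T, hT, ⟨i1⟩, ⟨i2⟩, ⟨i3⟩⟩ := hKZX K c₁ c₂ S X ((twC (X.wi ^ (-1 : ℤ))).obj (OCoh X.R))
    have a1 := radd T hT
    rw [riso _ _ i1, riso _ _ i2, riso _ _ i3] at a1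
    have a2 := radd (ShortComplex.mk (biprod.inl :
        (twC X.wi).obj ((twC (X.wi ^ (-1 : ℤ))).obj (OCoh X.R)) ⟶
          (twC X.wi).obj ((twC (X.wi ^ (-1 : ℤ))).obj (OCoh X.R)) ⊞
          (twC (X.wi * X.nX)).obj ((twC (X.wi ^ (-1 : ℤ))).obj (OCoh X.R)))
        biprod.snd biprod.inl_snd)
      (ShortComplex.Splitting.ofHasBinaryBiproduct _ _).shortExact
    have a2' : rkD S.R SurfData.c0 (G.obj ((sgB X.R).obj
        ((twC X.wi).obj ((twC (X.wi ^ (-1 : ℤ))).obj (OCoh X.R)) ⊞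
          (twC (X.wi * X.nX)).obj ((twC (X.wi ^ (-1 : ℤ))).obj (OCoh X.R))))) =
        rkD S.R SurfData.c0 (G.obj ((sgB X.R).obj
          ((twC X.wi).obj ((twC (X.wi ^ (-1 : ℤ))).obj (OCoh X.R))))) +
        rkD S.R SurfData.c0 (G.obj ((sgB X.R).obj
          ((twC (X.wi * X.nX)).obj ((twC (X.wi ^ (-1 : ℤ))).obj (OCoh X.R))))) := a2
    have k1 := key 0 0 (by norm_num)
    have k2 := key 0 1 (by norm_num)
    have k3 := key 1 1 (by norm_num)
    have b1 : X.wi ^ (-1 : ℤ) * X.wi = X.wi ^ ((0 : ℕ) : ℤ) * X.nX ^ (0 : ℤ) := by simp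
    have b2 : X.wi ^ (-1 : ℤ) * (X.wi * X.nX) = X.wi ^ ((0 : ℕ) : ℤ) * X.nX ^ (1 : ℤ) := by simp
    have b3 : X.wi ^ (-1 : ℤ) * (X.wi * (X.wi * X.nX)) =
        X.wi ^ ((1 : ℕ) : ℤ) * X.nX ^ (1 : ℤ) := by simp
    have c1 := riso _ _ (twTw (X.wi ^ (-1 : ℤ)) X.wi (OCoh X.R))
    have c2 := riso _ _ (twTw (X.wi ^ (-1 : ℤ)) (X.wi * X.nX) (OCoh X.R))
    have c3 := riso _ _ (twTw (X.wi ^ (-1 : ℤ)) (X.wi * (X.wi * X.nX)) (OCoh X.R))
    rw [b1, k1] at c1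
    rw [b2, k2] at c2
    rw [b3, k3] at c3
    rw [a2', c1, c2, c3] at a1
    push_cast at a1
    linarith
  · have k := key 0 0 (by norm_num)
    have b : X.wi ^ ((0 : ℕ) : ℤ) * X.nX ^ (0 : ℤ) = X.wi ^ (0 : ℤ) := by simp
    rw [b] at k
    simpa using k
  · have k := key 1 0 (by norm_num)
    have b : X.wi ^ ((1 : ℕ) : ℤ) * X.nX ^ (0 : ℤ) = X.wi ^ (1 : ℤ) := by simp
    rw [b] at k
    simpa using k

end Pool.CRD.Ph
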