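import Pool.Agent.CRD.Phi.Stmts
import Pool.Agent.CRD.Fib.Iso

open CategoryTheory Opposite Limits Pretriangulated

namespace Pool.CRD.Ph

namespace RKP_

variable {K : Type} [Field K] {c₁ c₂ : CurveData K} {S : SurfData c₁ c₂} (X : ConicData S)

/-- evaluation of cocycles -/
def uev {C : Type} [SmallCategory C] (R : PAlg K C) {X Y : Cᵒᵖ} (f : X ⟶ Y) :
    UCoc R →* (R.obj Y)ˣ where
  toFun c := c.u f
  map_one' := rfl
  map_mul' _ _ := rfl

lemma uzpow {C : Type} [SmallCategory C] {R : PAlg K C} (c : UCoc R) (n : ℤ) {X Y : Cᵒᵖ}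
    (f : X ⟶ Y) : (c ^ n).u f = (c.u f) ^ n := map_zpow (uev R f) c n

/-- the twist -/
noncomputable abbrev Mt (e : ℕ) (m : ℤ) : PMod X.R := (X.wi ^ (e : ℤ) * X.nX ^ m).tw.obj (OR X.R)

variable {X}

/-- a section as a function -/
def toA {e : ℕ} {m : ℤ} {s : Ch2} {k : Cov Bool} (x : G.Sc (Mt X e m) s k) :
    X.A s.i s.j k := x

/-- a function as a section -/
def ofA (e : ℕ) (m : ℤ) {s : Ch2} {k : Cov Bool} (x : X.A s.i s.j k) :
    G.Sc (Mt X e m) s k := x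

lemma toA_add {e : ℕ} {m : ℤ} {s : Ch2} {k : Cov Bool} (x y : G.Sc (Mt X e m) s k) :
    ((toA (x + y) : X.A s.i s.j k) : X.E) = toA x + toA y := rfl

lemma toA_smul {e : ℕ} {m : ℤ} {s : Ch2} {k : Cov Bool} (b : S.A s.i s.j)
    (x : G.Sc (Mt X e m) s k) :
    ((toA (b • x) : X.A s.i s.j k) : X.E) = algebraMap S.L X.E b * toA x := rfl

lemma toA_ext {e : ℕ} {m : ℤ} {s : Ch2} {k : Cov Bool} {x y : G.Sc (Mt X e m) s k}
    (h : ((toA x : X.A s.i s.j k) : X.E) = toA y) : x = y := Subtype.ext h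

/-- a unit as an element of the function field -/
def uE {t : Ch3} (u : (X.R.obj (op t))ˣ) : X.E := (show X.A t.i t.j t.k from u.val).1

lemma uE_pow {t : Ch3} (u : (X.R.obj (op t))ˣ) (e : ℕ) : uE (u ^ e) = uE u ^ e := by
  unfold uE
  rw [Units.val_pow_eq_pow_val]
  exact SubmonoidClass.coe_pow (show X.A t.i t.j t.k from u.val) e

/-- the restriction arrow -/
def ff (s : Ch2) {k k' : Cov Bool} (h : k' ≤ k) : op (G.c3 s k) ⟶ op (G.c3 s k') :=
  (homOfLE (G.c3_mono (le_refl s) h)).op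

lemma A1 (s : Ch2) {k k' : Cov Bool} (h : k' ≤ k) : X.nX.u (ff s h) = 1 := by
  apply Units.ext
  apply Subtype.ext
  exact div_self (inv_ne_zero (by simp [SurfData.h₁, c₁.h_ne]))

lemma A2 (e : ℕ) (m : ℤ) (s : Ch2) {k k' : Cov Bool} (h : k' ≤ k) :
    (X.wi ^ (e : ℤ) * X.nX ^ m).u (ff s h) = (X.wi.u (ff s h)) ^ e := by
  have : (X.wi ^ (e : ℤ) * X.nX ^ m).u (ff s h) =
    (X.wi ^ (e : ℤ)).u (ff s h) * (X.nX ^ m).u (ff s h) := rfl
  rw [this, uzpow, uzpow, A1, one_zpow, mul_one, zpow_natCast]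

lemma A3 (s : Ch2) {k k' : Cov Bool} (h : k' ≤ k) :
    uE (X.wi.u (ff s h)) = X.wgen (G.c3 s k) / X.wgen (G.c3 s k') := rfl

/-- conversion -/
def t1 (t : Ch3) (x : (OR X.R).obj (op t)) : X.A t.i t.j t.k := x

/-- conversion -/
def t2 (c : UCoc X.R) (t : Ch3) (x : (c.twObj (OR X.R)).obj (op t)) : (OR X.R).obj (op t) := x

lemma B3 {K : Type} [CommRing K] {C : Type} [SmallCategory C] {R : PAlg K C} {X Y : Cᵒᵖ}
    (f : X ⟶ Y) (x : (OR R).obj X) :
    (show R.obj Y from rs (OR R) f x) = (R.map f).hom (show R.obj X from x) := rfl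

lemma B4 {F : Type} [CommRing F] [Algebra K F] {C : Type} [Preorder C] (A : C → Subalgebra K F)
    (hA : ∀ {U V : C}, V ≤ U → A U ≤ A V) {X Y : Cᵒᵖ} (f : X ⟶ Y) (x : (subAlg A hA).obj X) :
    (show A Y.unop from ((subAlg A hA).map f).hom x).1 = (show A X.unop from x).1 := rfl

lemma A5 {t t' : Ch3} (f : op t ⟶ op t') (x : (OR X.R).obj (op t)) :
    (t1 t' (rs (OR X.R) f x)).1 = (t1 t x).1 := by
  have h := B3 (R := X.R) f x
  have h2 := B4 (fun s : Ch3 => X.A s.i s.j s.k)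
    (fun {U V : Ch3} (h : V ≤ U) => X.A_mono h.1 h.2.1 h.2.2) f x
  exact (congrArg (fun z : X.R.obj (op t') => ((show X.A t'.i t'.j t'.k from z) : X.E)) h).trans h2

lemma A6 {t : Ch3} (u : (X.R.obj (op t))ˣ) (x : (OR X.R).obj (op t)) :
    (t1 t ((u.val : X.R.toRing.obj (op t)) • x)).1 = uE u * (t1 t x).1 := rfl

lemma A7 (c : UCoc X.R) {t t' : Ch3} (f : op t ⟶ op t')
    (x : (c.twObj (OR X.R)).obj (op t)) :
    t2 c t' (rs (c.twObj (OR X.R)) f x) = (c.v f • rs (OR X.R) f (t2 c t x)) := rfl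

lemma A4 (c : UCoc X.R) {t t' : Ch3} (f : op t ⟶ op t')
    (x : (c.twObj (OR X.R)).obj (op t)) :
    (t1 t' (t2 c t' (rs (c.twObj (OR X.R)) f x))).1 = uE (c.u f) * (t1 t (t2 c t x)).1 := by
  rw [A7, ← A5 f (t2 c t x)]
  exact A6 (c.u f) _

lemma toA_rk {e : ℕ} {m : ℤ} {s : Ch2} {k k' : Cov Bool} (h : k' ≤ k)
    (x : G.Sc (Mt X e m) s k) :
    ((toA (G.rk (Mt X e m) s h x) : X.A s.i s.j k') : X.E) =
      (X.wgen (G.c3 s k) / X.wgen (G.c3 s k')) ^ e * toA x := by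
  have h4 := A4 (X.wi ^ (e : ℤ) * X.nX ^ m) (ff s h) x
  rw [A2, uE_pow, A3] at h4
  exact h4

variable (X)

lemma wg_a {s : Ch2} {k : Cov Bool} (h : false ∈ k.s) : X.wgen (G.c3 s k) = 1 := by
  unfold ConicData.wgen
  exact if_pos h

lemma wg_b {s : Ch2} {k : Cov Bool} (h : false ∉ k.s) : X.wgen (G.c3 s k) = X.eta s.i := by
  unfold ConicData.wgen
  exact if_neg h

lemma fa : false ∈ ca.s := Finset.mem_singleton_self _
lemma fab : false ∈ cab.s := Finset.mem_univ _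
lemma fb : false ∉ cb.s := by simp [cb, Cov.one]
lemma tb : true ∈ cb.s := Finset.mem_singleton_self _

/-- decomposition of functions on the intersection -/
lemma split {s : Ch2} (e : ℕ) (z : X.E) (hz : z ∈ X.A s.i s.j cab) :
    ∃ x ∈ X.A s.i s.j ca, ∃ y ∈ X.A s.i s.j cb, z = x + X.eta s.i ^ e * y := by
  rw [← X.map_toEc] at hz
  obtain ⟨w, hw, rfl⟩ := hz
  have hη := X.eta_ne s.i
  refine conT_induction (P := fun w => ∃ x ∈ X.A s.i s.j ca, ∃ y ∈ X.A s.i s.j cb,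
    X.toEc s.i s.j w = x + X.eta s.i ^ e * y) ?_ (exR cab) (exI cab) ?_ ?_ ?_ w hw.1 hw.2
  · rintro w w' ⟨x, hx, y, hy, h⟩ ⟨x', hx', y', hy', h'⟩
    refine ⟨x + x', add_mem hx hx', y + y', add_mem hy hy', ?_⟩
    rw [map_add, h, h']; ring
  · intro n _ r
    by_cases hn : 0 ≤ n
    · refine ⟨X.toEc s.i s.j ⟨AddMonoidAlgebra.single n r, 0⟩, ?_, 0, zero_mem _, by simp⟩
      rw [X.toEc_re]
      exact mul_mem (X.mem_of_S r.2) (X.eta_zpow_mem ⟨fun _ => hn, fun h => absurd fa h⟩)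
    · refine ⟨0, zero_mem _, algebraMap S.L X.E r * X.eta s.i ^ (n - e), ?_, ?_⟩
      · refine mul_mem (X.mem_of_S r.2) (X.eta_zpow_mem ⟨fun h => absurd tb h, fun _ => ?_⟩)
        omega
      · rw [X.toEc_re, zpow_sub₀ hη, zpow_natCast]
        field_simp
        ring
  · intro n _ r
    by_cases hn : 0 ≤ n
    · refine ⟨X.toEc s.i s.j ⟨0, AddMonoidAlgebra.single n r⟩, ?_, 0, zero_mem _, by simp⟩
      rw [X.toEc_im, mul_assoc]
      exact mul_mem (X.mem_of_S r.2) (X.eta_zpow_zeta_mem ⟨fun _ => hn, fun h => absurd fa h⟩)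
    · refine ⟨0, zero_mem _, algebraMap S.L X.E r * (X.eta s.i ^ (n - e) * X.zeta s.j), ?_, ?_⟩
      · refine mul_mem (X.mem_of_S r.2)
          (X.eta_zpow_zeta_mem ⟨fun h => absurd tb h, fun _ => ?_⟩)
        omega
      · rw [X.toEc_im, zpow_sub₀ hη, zpow_natCast]
        field_simp
        ring
  · exact ⟨0, zero_mem _, 0, zero_mem _, by simp⟩

lemma h1 (e : ℕ) (m : ℤ) (s : Ch2) : G.h1z (Mt X e m) s := by
  intro b
  obtain ⟨x, hx, y, hy, h⟩ := split X e (toA b : X.E) (toA b).2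
  refine ⟨ofA e m ⟨x, hx⟩, ofA e m ⟨y, hy⟩, ?_⟩
  apply toA_ext
  rw [toA_add, toA_rk, toA_rk, wg_a X fa, wg_a X fab, wg_b X fb, div_one, div_one, one_pow,
    one_mul]
  exact h

/-- coefficients -/
noncomputable def coR {B : Type} [CommRing B] {a b : Bˣ} (n : ℤ) : ConT a b →+ B :=
  AddMonoidHom.mk' (fun z => z.re.coeff n) (fun _ _ => rfl)

/-- coefficients -/
noncomputable def coI {B : Type} [CommRing B] {a b : Bˣ} (n : ℤ) : ConT a b →+ B :=
  AddMonoidHom.mk' (fun z => z.im.coeff n) (fun _ _ => rfl)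

/-- element with given coefficients -/
noncomputable def zc {B : Type} [CommRing B] {a b : Bˣ} {e : ℕ}
    (v : (Fin (e + 1) → B) × (Fin e → B)) : ConT a b :=
  ∑ n : Fin (e + 1), (⟨AddMonoidAlgebra.single ((n : ℕ) : ℤ) (v.1 n), 0⟩ : ConT a b) +
    ∑ n : Fin e, (⟨0, AddMonoidAlgebra.single ((n : ℕ) : ℤ) (v.2 n)⟩ : ConT a b)

lemma coR_zc {B : Type} [CommRing B] {a b : Bˣ} {e : ℕ}
    (v : (Fin (e + 1) → B) × (Fin e → B)) (n : Fin (e + 1)) :
    coR ((n : ℕ) : ℤ) (zc (a := a) (b := b) v) = v.1 n := by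
  unfold zc
  rw [map_add, map_sum, map_sum, Finset.sum_eq_single n, Finset.sum_eq_zero, add_zero]
  · change (AddMonoidAlgebra.single ((n : ℕ) : ℤ) (v.1 n)).coeff _ = _
    rw [AddMonoidAlgebra.coeff_single]
    exact Finsupp.single_eq_same
  · intro i _
    rfl
  · intro i _ hi
    change (AddMonoidAlgebra.single ((i : ℕ) : ℤ) (v.1 i)).coeff _ = _
    rw [AddMonoidAlgebra.coeff_single]
    apply Finsupp.single_eq_of_ne
    intro h
    apply hi
    apply Fin.ext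
    exact_mod_cast h.symm
  · intro h; exact absurd (Finset.mem_univ _) h

lemma coI_zc {B : Type} [CommRing B] {a b : Bˣ} {e : ℕ}
    (v : (Fin (e + 1) → B) × (Fin e → B)) (n : Fin e) :
    coI ((n : ℕ) : ℤ) (zc (a := a) (b := b) v) = v.2 n := by
  unfold zc
  rw [map_add, map_sum, map_sum, add_comm, Finset.sum_eq_single n, Finset.sum_eq_zero, add_zero]
  · change (AddMonoidAlgebra.single ((n : ℕ) : ℤ) (v.2 n)).coeff _ = _
    rw [AddMonoidAlgebra.coeff_single]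
    exact Finsupp.single_eq_same
  · intro i _
    rfl
  · intro i _ hi
    change (AddMonoidAlgebra.single ((i : ℕ) : ℤ) (v.2 i)).coeff _ = _
    rw [AddMonoidAlgebra.coeff_single]
    apply Finsupp.single_eq_of_ne
    intro h
    apply hi
    apply Fin.ext
    exact_mod_cast h.symm
  · intro h; exact absurd (Finset.mem_univ _) h

lemma zc_mem {B : Type} [CommRing B] {a b : Bˣ} {e : ℕ}
    (v : (Fin (e + 1) → B) × (Fin e → B)) :
    (zc (a := a) (b := b) v).re ∈ LpIn {n : ℤ | 0 ≤ n ∧ n ≤ e} ∧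
    (zc (a := a) (b := b) v).im ∈ LpIn {n : ℤ | 0 ≤ n ∧ n ≤ (e : ℤ) - 1} := by
  let P : AddSubgroup (ConT a b) :=
    { carrier := {z | z.re ∈ LpIn {n : ℤ | 0 ≤ n ∧ n ≤ e} ∧
        z.im ∈ LpIn {n : ℤ | 0 ≤ n ∧ n ≤ (e : ℤ) - 1}}
      zero_mem' := ⟨zero_mem _, zero_mem _⟩
      add_mem' := fun ha hb => ⟨add_mem ha.1 hb.1, add_mem ha.2 hb.2⟩
      neg_mem' := fun ha => ⟨neg_mem ha.1, neg_mem ha.2⟩ }
  have : zc (a := a) (b := b) v ∈ P := by
    unfold zc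
    refine P.add_mem (P.sum_mem (fun n _ => ?_)) (P.sum_mem (fun n _ => ?_))
    · refine ⟨single_mem_LpIn ?_ _, zero_mem _⟩
      have := n.2
      constructor <;> omega
    · refine ⟨zero_mem _, single_mem_LpIn ?_ _⟩
      have := n.2
      constructor <;> omega
  exact this

lemma zc_of {B : Type} [CommRing B] {a b : Bˣ} {e : ℕ} (w : ConT a b)
    (h1 : w.re ∈ LpIn {n : ℤ | 0 ≤ n ∧ n ≤ e})
    (h2 : w.im ∈ LpIn {n : ℤ | 0 ≤ n ∧ n ≤ (e : ℤ) - 1}) :
    zc (a := a) (b := b) (e := e) (fun n => coR ((n : ℕ) : ℤ) w, fun n => coI ((n : ℕ) : ℤ) w) = w := by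
  set v : (Fin (e + 1) → B) × (Fin e → B) :=
    (fun n => coR ((n : ℕ) : ℤ) w, fun n => coI ((n : ℕ) : ℤ) w) with hv
  have hm := zc_mem (a := a) (b := b) v
  apply QuadraticAlgebra.ext
  · apply AddMonoidAlgebra.ext
    apply Finsupp.ext
    intro n
    by_cases hn : 0 ≤ n ∧ n ≤ e
    · obtain ⟨k, rfl⟩ := Int.eq_ofNat_of_zero_le hn.1
      exact coR_zc v ⟨k, by omega⟩
    · rw [hm.1 n hn, h1 n hn]
  · apply AddMonoidAlgebra.ext
    apply Finsupp.ext
    intro n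
    by_cases hn : 0 ≤ n ∧ n ≤ (e : ℤ) - 1
    · obtain ⟨k, rfl⟩ := Int.eq_ofNat_of_zero_le hn.1
      exact coI_zc v ⟨k, by omega⟩
    · rw [hm.2 n hn, h2 n hn]

lemma zc_add {B : Type} [CommRing B] {a b : Bˣ} {e : ℕ}
    (v v' : (Fin (e + 1) → B) × (Fin e → B)) :
    zc (a := a) (b := b) (v + v') = zc v + zc v' := by
  unfold zc
  have h1 : ∀ (n : ℤ) (x y : B), (⟨AddMonoidAlgebra.single n (x + y), 0⟩ : ConT a b) =
      ⟨AddMonoidAlgebra.single n x, 0⟩ + ⟨AddMonoidAlgebra.single n y, 0⟩ := by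
    intro n x y
    apply QuadraticAlgebra.ext
    · exact AddMonoidAlgebra.single_add _ _ _
    · exact (add_zero _).symm
  have h2 : ∀ (n : ℤ) (x y : B), (⟨0, AddMonoidAlgebra.single n (x + y)⟩ : ConT a b) =
      ⟨0, AddMonoidAlgebra.single n x⟩ + ⟨0, AddMonoidAlgebra.single n y⟩ := by
    intro n x y
    apply QuadraticAlgebra.ext
    · exact (add_zero _).symm
    · exact AddMonoidAlgebra.single_add _ _ _
  simp only [Prod.fst_add, Prod.snd_add, Pi.add_apply, h1, h2, Finset.sum_add_distrib]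
  abel

/-- the element of the function field with given coefficients -/
noncomputable def Zc (s : Ch2) {e : ℕ}
    (v : (Fin (e + 1) → S.A s.i s.j) × (Fin e → S.A s.i s.j)) : X.E :=
  X.toEc s.i s.j (zc v)

lemma Zc_eq (s : Ch2) {e : ℕ} (v : (Fin (e + 1) → S.A s.i s.j) × (Fin e → S.A s.i s.j)) :
    Zc X s v = ∑ n : Fin (e + 1), algebraMap S.L X.E (v.1 n) * X.eta s.i ^ ((n : ℕ) : ℤ) +
      ∑ n : Fin e, algebraMap S.L X.E (v.2 n) * X.eta s.i ^ ((n : ℕ) : ℤ) * X.zeta s.j := by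
  unfold Zc zc
  rw [map_add, map_sum, map_sum]
  simp only [X.toEc_re, X.toEc_im]

lemma Zc_smul (s : Ch2) {e : ℕ} (b : S.A s.i s.j)
    (v : (Fin (e + 1) → S.A s.i s.j) × (Fin e → S.A s.i s.j)) :
    Zc X s (b • v) = algebraMap S.L X.E b * Zc X s v := by
  rw [Zc_eq, Zc_eq, mul_add, Finset.mul_sum, Finset.mul_sum]
  congr 1
  · refine Finset.sum_congr rfl (fun n _ => ?_)
    change algebraMap S.L X.E (b * v.1 n) * _ = _
    rw [map_mul, mul_assoc]
  · refine Finset.sum_congr rfl (fun n _ => ?_)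
    change algebraMap S.L X.E (b * v.2 n) * _ * _ = _
    rw [map_mul]
    ring

lemma Zc_add (s : Ch2) {e : ℕ} (v v' : (Fin (e + 1) → S.A s.i s.j) × (Fin e → S.A s.i s.j)) :
    Zc X s (v + v') = Zc X s v + Zc X s v' := by
  unfold Zc
  rw [zc_add, map_add]

lemma Zc_mem (s : Ch2) {e : ℕ} (v : (Fin (e + 1) → S.A s.i s.j) × (Fin e → S.A s.i s.j))
    (k : Cov Bool) : Zc X s v / X.wgen (G.c3 s k) ^ e ∈ X.A s.i s.j k := by
  have hη := X.eta_ne s.i
  rw [Zc_eq]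
  by_cases hk : false ∈ k.s
  · rw [wg_a X hk, one_pow, div_one]
    refine add_mem (sum_mem (fun n _ => ?_)) (sum_mem (fun n _ => ?_))
    · exact mul_mem (X.mem_of_S (v.1 n).2)
        (X.eta_zpow_mem ⟨fun _ => by omega, fun h => absurd hk h⟩)
    · rw [mul_assoc]
      exact mul_mem (X.mem_of_S (v.2 n).2)
        (X.eta_zpow_zeta_mem ⟨fun _ => by omega, fun h => absurd hk h⟩)
  · have ht : true ∈ k.s := by
      obtain ⟨x, hx⟩ := k.ne
      cases x
      · exact absurd hx hk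
      · exact hx
    rw [wg_b X hk, add_div, Finset.sum_div, Finset.sum_div]
    refine add_mem (sum_mem (fun n _ => ?_)) (sum_mem (fun n _ => ?_))
    · have h1 : algebraMap S.L X.E (v.1 n) * X.eta s.i ^ ((n : ℕ) : ℤ) / X.eta s.i ^ e =
          algebraMap S.L X.E (v.1 n) * X.eta s.i ^ (((n : ℕ) : ℤ) - e) := by
        rw [zpow_sub₀ hη, zpow_natCast, zpow_natCast, mul_div_assoc]
      rw [h1]
      refine mul_mem (X.mem_of_S (v.1 n).2) (X.eta_zpow_mem ⟨fun h => absurd ht h, fun _ => ?_⟩)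
      have := n.2
      omega
    · have h1 : algebraMap S.L X.E (v.2 n) * X.eta s.i ^ ((n : ℕ) : ℤ) * X.zeta s.j /
          X.eta s.i ^ e = algebraMap S.L X.E (v.2 n) *
          (X.eta s.i ^ (((n : ℕ) : ℤ) - e) * X.zeta s.j) := by
        rw [zpow_sub₀ hη, zpow_natCast, zpow_natCast]
        field_simp
      rw [h1]
      refine mul_mem (X.mem_of_S (v.2 n).2)
        (X.eta_zpow_zeta_mem ⟨fun h => absurd ht h, fun _ => ?_⟩)
      have := n.2
      omega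

/-- the map from coefficients to sections -/
noncomputable def Psi (s : Ch2) (e : ℕ) (m : ℤ) :
    ((Fin (e + 1) → S.A s.i s.j) × (Fin e → S.A s.i s.j)) →ₗ[S.A s.i s.j]
      G.Gam (Mt X e m) s where
  toFun v := ⟨fun k => ofA e m ⟨Zc X s v / X.wgen (G.c3 s k) ^ e, Zc_mem X s v k⟩, by
    intro k k' h
    apply toA_ext
    rw [toA_rk]
    change (X.wgen (G.c3 s k) / X.wgen (G.c3 s k')) ^ e * (Zc X s v / X.wgen (G.c3 s k) ^ e) =
      Zc X s v / X.wgen (G.c3 s k') ^ e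
    have h1 := X.wgen_ne (G.c3 s k)
    have h2 := X.wgen_ne (G.c3 s k')
    rw [div_pow]
    field_simp⟩
  map_add' v v' := by
    apply Subtype.ext
    funext k
    apply toA_ext
    change Zc X s (v + v') / X.wgen (G.c3 s k) ^ e = Zc X s v / X.wgen (G.c3 s k) ^ e +
      Zc X s v' / X.wgen (G.c3 s k) ^ e
    rw [Zc_add, add_div]
  map_smul' b v := by
    apply Subtype.ext
    funext k
    apply toA_ext
    change Zc X s (b • v) / X.wgen (G.c3 s k) ^ e =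
      algebraMap S.L X.E b * (Zc X s v / X.wgen (G.c3 s k) ^ e)
    rw [Zc_smul, mul_div_assoc]

lemma Psi_apply (s : Ch2) (e : ℕ) (m : ℤ)
    (v : (Fin (e + 1) → S.A s.i s.j) × (Fin e → S.A s.i s.j)) (k : Cov Bool) :
    ((toA ((Psi X s e m v).1 k) : X.A s.i s.j k) : X.E) = Zc X s v / X.wgen (G.c3 s k) ^ e := rfl

lemma Psi_inj (s : Ch2) (e : ℕ) (m : ℤ) : Function.Injective (Psi X s e m) := by
  intro v v' h
  have h1 := Psi_apply X s e m v ca
  have h2 := Psi_apply X s e m v' ca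
  rw [h, h2, wg_a X fa, one_pow, div_one, div_one] at h1
  have h3 : zc v' = zc v := X.toEc_inj s.i s.j h1
  apply Prod.ext
  · funext n
    rw [← coR_zc v n, ← coR_zc v' n, h3]
  · funext n
    rw [← coI_zc v n, ← coI_zc v' n, h3]

lemma Psi_surj (s : Ch2) (e : ℕ) (m : ℤ) : Function.Surjective (Psi X s e m) := by
  intro g
  have hη := X.eta_ne s.i
  have key : ∀ k, ((toA (g.1 cab) : X.A s.i s.j cab) : X.E) =
      X.wgen (G.c3 s k) ^ e * toA (g.1 k) := by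
    intro k
    rw [← g.2 k cab (G.cab_bot k), toA_rk, wg_a X fab, div_one]
  have ka := key ca
  have kb := key cb
  rw [wg_a X fa, one_pow, one_mul] at ka
  rw [wg_b X fb] at kb
  have hwa : ((toA (g.1 ca) : X.A s.i s.j ca) : X.E) ∈
      (conSub (S.ua s.i s.j) (S.ub s.i s.j) K ca).map (X.toEc s.i s.j) := by
    rw [X.map_toEc]; exact (toA (g.1 ca)).2
  have hwb : ((toA (g.1 cb) : X.A s.i s.j cb) : X.E) ∈
      (conSub (S.ua s.i s.j) (S.ub s.i s.j) K cb).map (X.toEc s.i s.j) := by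
    rw [X.map_toEc]; exact (toA (g.1 cb)).2
  obtain ⟨w₁, hw₁, e₁⟩ := hwa
  obtain ⟨w₂, hw₂, e₂⟩ := hwb
  have e3 : w₁ = ⟨AddMonoidAlgebra.single (e : ℤ) 1, 0⟩ * w₂ := by
    apply X.toEc_inj s.i s.j
    rw [map_mul, X.toEc_re]
    change X.toEc s.i s.j w₁ = _
    have e₁' : X.toEc s.i s.j w₁ = toA (g.1 ca) := e₁
    have e₂' : X.toEc s.i s.j w₂ = toA (g.1 cb) := e₂
    rw [e₁', e₂', ← ka, kb, zpow_natCast]
    simp
  have m1 : w₁.re ∈ LpIn {n : ℤ | 0 ≤ n ∧ n ≤ e} := by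
    intro n hn
    by_cases h0 : 0 ≤ n
    · have h4 : w₁.re ∈ LpIn {n : ℤ | n ≤ e} := by
        rw [e3, QuadraticAlgebra.re_mul]
        refine add_mem (LpIn.mul (s := {(e : ℤ)}) (t := exR cb) ?_ (single_mem_LpIn (Set.mem_singleton _) _) hw₂.1) ?_
        · rintro x rfl y hy
          have := hy.2 fb
          change (e : ℤ) + y ≤ e
          omega
        · simp only [mul_zero, zero_mul]
          exact zero_mem _
      exact h4 n (fun h5 => hn ⟨h0, h5⟩)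
    · exact hw₁.1 n (fun h => h0 (h.1 (by simp [ca, Cov.one])))
  have m2 : w₁.im ∈ LpIn {n : ℤ | 0 ≤ n ∧ n ≤ (e : ℤ) - 1} := by
    intro n hn
    by_cases h0 : 0 ≤ n
    · have h4 : w₁.im ∈ LpIn {n : ℤ | n ≤ (e : ℤ) - 1} := by
        rw [e3, QuadraticAlgebra.im_mul]
        simp only [zero_mul, add_zero]
        refine LpIn.mul (s := {(e : ℤ)}) (t := exI cb) ?_ (single_mem_LpIn (Set.mem_singleton _) _) hw₂.2
        rintro x rfl y hy
        have := hy.2 fb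
        change (e : ℤ) + y ≤ (e : ℤ) - 1
        omega
      exact h4 n (fun h5 => hn ⟨h0, h5⟩)
    · exact hw₁.2 n (fun h => h0 (h.1 (by simp [ca, Cov.one])))
  have hz := zc_of w₁ m1 m2
  refine ⟨(fun n => coR ((n : ℕ) : ℤ) w₁, fun n => coI ((n : ℕ) : ℤ) w₁), ?_⟩
  apply Subtype.ext
  funext k
  apply toA_ext
  rw [Psi_apply]
  unfold Zc
  rw [hz]
  have e₁' : X.toEc s.i s.j w₁ = toA (g.1 ca) := e₁
  rw [e₁', ← ka, key k, mul_div_cancel_left₀ _ (pow_ne_zero _ (X.wgen_ne _))]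

lemma rank (s : Ch2) (e : ℕ) (m : ℤ) :
    Module.finrank (S.A s.i s.j) (G.Gam (Mt X e m) s) = 2 * e + 1 := by
  rw [← (LinearEquiv.ofBijective (Psi X s e m) ⟨Psi_inj X s e m, Psi_surj X s e m⟩).finrank_eq,
    Module.finrank_prod, Module.finrank_fin_fun, Module.finrank_fin_fun]
  ring

end RKP_

theorem rkp_proof : Stmt_RKP := by
  intro K _ _ c₁ c₂ S X e m _ s
  exact ⟨RKP_.h1 X e m s, RKP_.rank X s e m⟩

end Pool.CRD.Ph
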