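import Pool.Agent.CRD.Phi.Stmts

/-!
# CRD, area PHI, module RKT: the rank of an object of `D^b(Coh R)`
-/

open CategoryTheory Opposite Limits Pretriangulated

namespace Pool.CRD.Ph

namespace RKT_

/-- linear algebra over a domain -/
theorem mid {A M N P : Type} [CommRing A] [IsDomain A] [AddCommGroup M] [Module A M]
    [AddCommGroup N] [Module A N] [AddCommGroup P] [Module A P] [Module.Finite A N]
    (f : M →ₗ[A] N) (g : N →ₗ[A] P) (h : Function.Exact f g) :
    Module.finrank A N = Module.finrank A (LinearMap.range f) +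
      Module.finrank A (LinearMap.range g) := by
  have e4 := Submodule.finrank_quotient_add_finrank (LinearMap.ker g)
  rw [g.quotKerEquivRange.finrank_eq, h.linearMap_ker_eq] at e4
  omega

/-- sign sums -/
theorem signs (a b c r1 r2 r3 : ℤ → ℕ) (hb : ∀ n, b n = r1 n + r2 n)
    (hc : ∀ n, c n = r2 n + r3 n) (ha : ∀ n, a (n + 1) = r3 n + r1 (n + 1))
    (fb : (Function.support b).Finite) (fc : (Function.support c).Finite) :
    ∑ᶠ n : ℤ, (n.negOnePow : ℤ) * (b n : ℤ) =
      ∑ᶠ n : ℤ, (n.negOnePow : ℤ) * (a n : ℤ) + ∑ᶠ n : ℤ, (n.negOnePow : ℤ) * (c n : ℤ) := by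
  let g1 : ℤ → ℤ := fun n => (n.negOnePow : ℤ) * (r1 n : ℤ)
  let g2 : ℤ → ℤ := fun n => (n.negOnePow : ℤ) * (r2 n : ℤ)
  let g3 : ℤ → ℤ := fun n => (n.negOnePow : ℤ) * (r3 n : ℤ)
  have h1 : (Function.support g1).Finite := fb.subset fun n hn hb0 => hn (by
    have := hb n
    change b n = 0 at hb0
    change (n.negOnePow : ℤ) * (r1 n : ℤ) = 0
    have h0 : r1 n = 0 := by omega
    rw [h0, Nat.cast_zero, mul_zero])
  have h2 : (Function.support g2).Finite := fb.subset fun n hn hb0 => hn (by
    have := hb n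
    change b n = 0 at hb0
    change (n.negOnePow : ℤ) * (r2 n : ℤ) = 0
    have h0 : r2 n = 0 := by omega
    rw [h0, Nat.cast_zero, mul_zero])
  have h3 : (Function.support g3).Finite := fc.subset fun n hn hb0 => hn (by
    have := hc n
    change c n = 0 at hb0
    change (n.negOnePow : ℤ) * (r3 n : ℤ) = 0
    have h0 : r3 n = 0 := by omega
    rw [h0, Nat.cast_zero, mul_zero])
  have h3' : (Function.support (fun n => - g3 (n - 1))).Finite := by
    have e : Function.support (fun n => - g3 (n - 1)) =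
        Function.support (g3 ∘ (Equiv.subRight (1 : ℤ))) := by
      ext n
      simp [Function.mem_support]
    rw [e, Function.support_comp_eq_preimage]
    exact h3.preimage (Equiv.injective _).injOn
  have eb : ∑ᶠ n : ℤ, (n.negOnePow : ℤ) * (b n : ℤ) = ∑ᶠ n, g1 n + ∑ᶠ n, g2 n := by
    rw [← finsum_add_distrib h1 h2]
    apply finsum_congr
    intro n
    change _ = (n.negOnePow : ℤ) * (r1 n : ℤ) + (n.negOnePow : ℤ) * (r2 n : ℤ)
    rw [hb n]
    push_cast
    ring
  have ec : ∑ᶠ n : ℤ, (n.negOnePow : ℤ) * (c n : ℤ) = ∑ᶠ n, g2 n + ∑ᶠ n, g3 n := by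
    rw [← finsum_add_distrib h2 h3]
    apply finsum_congr
    intro n
    change _ = (n.negOnePow : ℤ) * (r2 n : ℤ) + (n.negOnePow : ℤ) * (r3 n : ℤ)
    rw [hc n]
    push_cast
    ring
  have ea : ∑ᶠ n : ℤ, (n.negOnePow : ℤ) * (a n : ℤ) = ∑ᶠ n, - g3 (n - 1) + ∑ᶠ n, g1 n := by
    rw [← finsum_add_distrib h3' h1]
    apply finsum_congr
    intro n
    have h4 := ha (n - 1)
    rw [sub_add_cancel] at h4
    have h5 : ((n - 1).negOnePow : ℤ) = - (n.negOnePow : ℤ) := by
      have h4 := Int.negOnePow_succ (n - 1)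
      rw [sub_add_cancel] at h4
      rw [h4]
      push_cast
      ring
    change _ = - (((n - 1).negOnePow : ℤ) * (r3 (n - 1) : ℤ)) + (n.negOnePow : ℤ) * (r1 n : ℤ)
    rw [h4, h5]
    push_cast
    ring
  have e3 : ∑ᶠ n, - g3 (n - 1) = - ∑ᶠ n, g3 n := by
    rw [finsum_neg_distrib]
    congr 1
    exact finsum_comp_equiv (Equiv.subRight (1 : ℤ)) (f := g3)
  rw [eb, ec, ea, e3]
  ring

section
variable {K : Type} [Field K] {C : Type} [SmallCategory C] {R : PAlg K C} [R.Good]

/-- rank of the sections at `t` -/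
noncomputable def rho (t : C) (F : Coh R) : ℕ := Module.finrank (R.ring t) (sec F.obj t)

/-- rank of a morphism -/
noncomputable def rm (t : C) {F G : Coh R} (f : F ⟶ G) : ℕ :=
  Module.finrank (R.ring t) (LinearMap.range
    ((show sec F.obj t →ₗ[R.ring t] sec G.obj t from (f.hom.app (op t)).hom)))

omit [R.Good] in
theorem rho_iso (t : C) {F G : Coh R} (e : F ≅ G) : rho t F = rho t G := by
  unfold rho
  let f : sec F.obj t →ₗ[R.ring t] sec G.obj t := (e.hom.hom.app (op t)).hom
  let g : sec G.obj t →ₗ[R.ring t] sec F.obj t := (e.inv.hom.app (op t)).hom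
  have h1 : e.hom.hom ≫ e.inv.hom = 𝟙 F.obj := by
    have := congrArg (fun u => u.hom) e.hom_inv_id
    exact this
  have h2 : e.inv.hom ≫ e.hom.hom = 𝟙 G.obj := by
    have := congrArg (fun u => u.hom) e.inv_hom_id
    exact this
  have hfg : ∀ x, g (f x) = x := fun x => congr(($h1).app (op t) x)
  have hgf : ∀ x, f (g x) = x := fun x => congr(($h2).app (op t) x)
  exact (LinearEquiv.ofLinearMap f g (LinearMap.ext hgf) (LinearMap.ext hfg)).finrank_eq

theorem rho_zero (t : C) [IsDomain (R.ring t)] {F : Coh R} (hF : IsZero F) : rho t F = 0 := by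
  unfold rho
  have h1 : IsZero F.obj := (IsCoh R).ι.map_isZero hF
  have h2 : IsZero ((ev R (op t)).obj F.obj) := (ev R (op t)).map_isZero h1
  have h3 : Subsingleton (sec F.obj t) := ModuleCat.subsingleton_of_isZero h2
  rw [Module.finrank_zero_of_subsingleton]

theorem rho_exact (t : C) [IsDomain (R.ring t)] {S : ShortComplex (Coh R)} (hS : S.Exact) :
    rho t S.X₂ = rm t S.f + rm t S.g := by
  have h1 := (coh_exact_iff S).1 hS (op t)
  have hf : Module.Finite (R.ring t) (sec S.X₂.obj t) := S.X₂.property.1 (op t)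
  exact mid (A := R.ring t) _ _ h1

theorem finite_supp (t : C) [IsDomain (R.ring t)] (M : Db R) :
    (Function.support fun n : ℤ =>
      rho t ((DerivedCategory.homologyFunctor (Coh R) n).obj M.obj)).Finite := by
  obtain ⟨⟨a, ha⟩, ⟨b, hb⟩⟩ := M.property
  have ha' : M.obj.IsGE a := ha
  have hb' : M.obj.IsLE b := hb
  refine (Set.finite_Icc a b).subset fun n hn => ?_
  by_contra hcon
  apply hn
  apply rho_zero
  rw [Set.mem_Icc, not_and_or, not_le, not_le] at hcon
  rcases hcon with h | h
  · exact DerivedCategory.isZero_of_isGE M.obj a n h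
  · exact DerivedCategory.isZero_of_isLE M.obj b n h

theorem rkD_eq (t : C) (M : Db R) : rkD R t M = ∑ᶠ n : ℤ, (n.negOnePow : ℤ) *
    (rho t ((DerivedCategory.homologyFunctor (Coh R) n).obj M.obj) : ℤ) := rfl

end

end RKT_

open RKT_ in
theorem rkt_proof : Stmt_RKT := by
  intro K _ C _ R _ s hdom
  refine ⟨?_, ?_, ?_, ?_⟩
  · intro Δ hΔ
    have hT : DerivedCategory.Bounded.ι.mapTriangle.obj Δ ∈ distTriang (DerivedCategory (Coh R)) :=
      DerivedCategory.Bounded.ι.map_distinguished Δ hΔ
    set T := DerivedCategory.Bounded.ι.mapTriangle.obj Δ with hTdef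
    rw [rkD_eq, rkD_eq, rkD_eq]
    refine signs (fun n => rho s ((DerivedCategory.homologyFunctor (Coh R) n).obj T.obj₁))
      (fun n => rho s ((DerivedCategory.homologyFunctor (Coh R) n).obj T.obj₂))
      (fun n => rho s ((DerivedCategory.homologyFunctor (Coh R) n).obj T.obj₃))
      (fun n => rm s ((DerivedCategory.homologyFunctor (Coh R) n).map T.mor₁))
      (fun n => rm s ((DerivedCategory.homologyFunctor (Coh R) n).map T.mor₂))
      (fun n => rm s (DerivedCategory.HomologySequence.δ T n (n + 1) rfl))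
      (fun n => ?_) (fun n => ?_) (fun n => ?_) (finite_supp s Δ.obj₂) (finite_supp s Δ.obj₃)
    · exact rho_exact s (DerivedCategory.HomologySequence.exact₂ T hT n)
    · exact rho_exact s (DerivedCategory.HomologySequence.exact₃ T hT n (n + 1) rfl)
    · exact rho_exact s (DerivedCategory.HomologySequence.exact₁ T hT n (n + 1) rfl)
  · rintro X Y ⟨e⟩
    rw [rkD_eq, rkD_eq]
    apply finsum_congr
    intro n
    congr 2
    exact rho_iso s ((DerivedCategory.homologyFunctor (Coh R) n).mapIso
      (DerivedCategory.Bounded.ι.mapIso e))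
  · intro X n
    rw [rkD_eq, rkD_eq]
    have h1 : ∀ m : ℤ, rho s ((DerivedCategory.homologyFunctor (Coh R) m).obj (X⟦n⟧).obj) =
        rho s ((DerivedCategory.homologyFunctor (Coh R) (n + m)).obj X.obj) := by
      intro m
      apply rho_iso
      exact (DerivedCategory.homologyFunctor (Coh R) m).mapIso
        ((DerivedCategory.Bounded.ι.commShiftIso n).app X) ≪≫
        ((DerivedCategory.homologyFunctor (Coh R) 0).shiftIso n m (n + m) rfl).app X.obj
    rw [mul_finsum]
    refine Eq.trans (finsum_congr fun m => ?_) (finsum_comp_equiv (Equiv.addLeft n)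
      (f := fun m : ℤ => (n.negOnePow : ℤ) * ((m.negOnePow : ℤ) *
        (rho s ((DerivedCategory.homologyFunctor (Coh R) m).obj X.obj) : ℤ))))
    rw [h1 m]
    change _ = (n.negOnePow : ℤ) * (((n + m).negOnePow : ℤ) * _)
    rw [← mul_assoc]
    congr 1
    rw [Int.negOnePow_add]
    have h3 : (n.negOnePow : ℤ) * (n.negOnePow : ℤ) = 1 := by
      have h4 : n.negOnePow * n.negOnePow = 1 := by
        rw [← Int.negOnePow_add]
        exact Int.negOnePow_even _ ⟨n, rfl⟩
      have h5 := congrArg Units.val h4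
      rwa [Units.val_mul, Units.val_one] at h5
    push_cast
    rw [← mul_assoc, h3, one_mul]
  · intro M
    rw [rkD_eq, finsum_eq_single _ 0]
    · rw [Int.negOnePow_zero]
      push_cast
      rw [one_mul]
      congr 1
      exact rho_iso s ((DerivedCategory.singleFunctorCompHomologyFunctorIso (Coh R) 0).app M)
    · intro n hn
      have h1 : ((DerivedCategory.singleFunctor (Coh R) 0).obj M).IsGE 0 := inferInstance
      have h2 : ((DerivedCategory.singleFunctor (Coh R) 0).obj M).IsLE 0 := inferInstance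
      have h3 : rho s ((DerivedCategory.homologyFunctor (Coh R) n).obj
          ((sgB R).obj M).obj) = 0 := by
        apply rho_zero
        rcases lt_or_gt_of_ne hn with h | h
        · exact DerivedCategory.isZero_of_isGE ((DerivedCategory.singleFunctor (Coh R) 0).obj M) 0 n h
        · exact DerivedCategory.isZero_of_isLE ((DerivedCategory.singleFunctor (Coh R) 0).obj M) 0 n h
      rw [h3, Nat.cast_zero, mul_zero]

end Pool.CRD.Ph
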