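import Pool.Agent.CRD.Phi.Stmts

/-!
# CRD, area PHI, SGT: twists and coherent modules in degree zero
-/

open CategoryTheory Opposite Limits Pretriangulated

namespace Pool.CRD.Ph

theorem sgt_proof : Stmt_SGT := by
  intro K _ C C' _ _ R R' _ _ F _
  exact ⟨Functor.fullyFaithfulCancelRight (DerivedCategory.Bounded.ι (C := Coh R'))
    (Functor.associator _ _ _ ≪≫ Functor.isoWhiskerLeft (sgB R) (mBι F) ≪≫
      F.mapDerivedCategorySingleFunctor 0)⟩

end Pool.CRD.Ph
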