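import Pool.Agent.CRD.Phi.Stmts
import Pool.Agent.CRD.D2.Stmts
import Pool.Agent.CRD.D1.StmtsB

/-!
# SKV: every `k[n] ⟶ k[n][2]` (`k` simple on `S`) factors through `O[n]`
-/

open CategoryTheory Opposite Limits Pretriangulated

namespace Pool.CRD.Ph

namespace SKV_

section Gen

variable {K : Type} [Field K] {C : Type} [SemilatticeInf C] {R : PAlg K C}

/-- the morphism from the structure sheaf given by a compatible family of sections -/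
noncomputable def oMap (F : PMod R) (s : ∀ X : Cᵒᵖ, F.obj X)
    (hs : ∀ {X Y : Cᵒᵖ} (f : X ⟶ Y), rs F f (s X) = s Y) : OR R ⟶ F :=
  mkHom (M := OR R) (N := F)
    (fun X => LinearMap.toSpanSingleton (R.toRing.obj X) (F.obj X) (s X))
    (fun {X Y} f x => by
      let r : R.toRing.obj X := x
      change (R.toRing.map f r : R.toRing.obj Y) • s Y = rs F f (r • s X)
      rw [rs_smul, hs])

theorem oMap_ne (F : PMod R) (s : ∀ X : Cᵒᵖ, F.obj X)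
    (hs : ∀ {X Y : Cᵒᵖ} (f : X ⟶ Y), rs F f (s X) = s Y) (X : Cᵒᵖ) (hX : s X ≠ 0) :
    oMap F s hs ≠ 0 := by
  intro h
  apply hX
  have h1 : (oMap F s hs).app X (1 : R.toRing.obj X) = s X := one_smul _ _
  rw [← h1, h]
  rfl

/-- a module supported in a chart has the same global sections as sections on the chart -/
theorem exists_map (F : PMod R) (V : C) (hF : SuppIn V F) (x : F.obj (op V)) (hx : x ≠ 0) :
    ∃ φ : OR R ⟶ F, φ ≠ 0 := by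
  have h1 : ∀ X : Cᵒᵖ, ∃ s : F.obj X, rs F (homOfLE (inf_le_left : X.unop ⊓ V ≤ X.unop)).op s =
      rs F (homOfLE (inf_le_right : X.unop ⊓ V ≤ V)).op x := fun X => (hF X.unop).2 _
  choose s hs using h1
  have h2 : ∀ {X Y : Cᵒᵖ} (f : X ⟶ Y), rs F f (s X) = s Y := by
    intro X Y f
    have hle : Y.unop ≤ X.unop := leOfHom f.unop
    apply (hF Y.unop).1
    rw [hs Y]
    change rs F (homOfLE (inf_le_left : Y.unop ⊓ V ≤ Y.unop)).op (rs F f (s X)) = _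
    rw [← rs_comp]
    have h3 : rs F (homOfLE (inf_le_inf_right V hle)).op
        (rs F (homOfLE (inf_le_left : X.unop ⊓ V ≤ X.unop)).op (s X)) =
        rs F (homOfLE (inf_le_inf_right V hle)).op
          (rs F (homOfLE (inf_le_right : X.unop ⊓ V ≤ V)).op x) := by rw [hs X]
    rw [← rs_comp, ← rs_comp] at h3
    exact h3
  refine ⟨oMap F s h2, oMap_ne F s h2 (op V) ?_⟩
  intro h0
  apply hx
  have h4 := hs (op V)
  apply (hF V).1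
  have h5 : rs F (homOfLE (inf_le_left : V ⊓ V ≤ V)).op x =
    rs F (homOfLE (inf_le_right : V ⊓ V ≤ V)).op x := rfl
  rw [h5, ← h0]
  exact h4.symm

end Gen

section Abs

variable (K : Type) [Field K] {T : Type 1} [Category.{1} T] [HasShift T ℤ]
  [Preadditive T] [∀ (n : ℤ), (shiftFunctor T n).Additive] [Linear K T]
  [∀ n : ℤ, (shiftFunctor T n).Linear K]

/-- factorisation from the duality -/
theorem fact (P O : T) (b : O ⟶ P) (hb : b ≠ 0) (hDU : DU K P (O⟦(0 : ℤ)⟧))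
    (e : P ⟶ P⟦(2 : ℤ)⟧) : ∃ (b : O ⟶ P) (a : P ⟶ O⟦(2 : ℤ)⟧), e = a ≫ b⟦(2 : ℤ)⟧' := by
  let i := (shiftFunctorZero T ℤ).app O
  let b₀ : O⟦(0 : ℤ)⟧ ⟶ P := i.hom ≫ b
  have hb₀ : b₀ ≠ 0 := by
    intro h
    apply hb
    rw [← cancel_epi i.hom]
    change b₀ = _
    rw [h, comp_zero]
  obtain ⟨L, hL⟩ : ∃ L : (O⟦(0 : ℤ)⟧ ⟶ P) →ₗ[K] (P ⟶ P⟦(2 : ℤ)⟧), L b₀ = e := by
    obtain ⟨g, -, hg⟩ := LinearMap.exists_extend_of_notMem (K := K)
      (p := (⊥ : Submodule K (O⟦(0 : ℤ)⟧ ⟶ P))) (v := b₀) (V' := P ⟶ P⟦(2 : ℤ)⟧) 0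
      (by rw [Submodule.mem_bot]; exact hb₀) e
    exact ⟨g, hg⟩
  obtain ⟨a, ha⟩ := hDU.2 L
  refine ⟨b, a ≫ i.hom⟦(2 : ℤ)⟧', ?_⟩
  rw [Category.assoc, ← Functor.map_comp]
  rw [← hL, ← ha]
  rfl

omit [∀ (n : ℤ), (shiftFunctor T n).Additive] in
/-- reduction to the degree zero -/
theorem shiftFact (P O : T) (n : ℤ)
    (h : ∀ e : P ⟶ P⟦(2 : ℤ)⟧, ∃ (b : O ⟶ P) (a : P ⟶ O⟦(2 : ℤ)⟧), e = a ≫ b⟦(2 : ℤ)⟧')
    (e : P⟦n⟧ ⟶ (P⟦n⟧)⟦(2 : ℤ)⟧) :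
    ∃ (b : O⟦n⟧ ⟶ P⟦n⟧) (a : P⟦n⟧ ⟶ (O⟦n⟧)⟦(2 : ℤ)⟧), e = a ≫ b⟦(2 : ℤ)⟧' := by
  obtain ⟨e', he'⟩ := (shiftFunctor T n).map_surjective
    (e ≫ (shiftComm P n 2).hom)
  obtain ⟨b, a, hab⟩ := h e'
  refine ⟨b⟦n⟧', a⟦n⟧' ≫ (shiftComm O n 2).inv, ?_⟩
  rw [← cancel_mono (shiftComm P n 2).hom, ← he', hab, Functor.map_comp, Category.assoc,
    Category.assoc]
  congr 1
  rw [Iso.eq_inv_comp]
  exact shiftComm_hom_comp b n 2

end Abs

end SKV_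

open SKV_ in
theorem skv_proof (hPT2 : Sky.Stmt_PT2) (hAMX : Pool.CRD.D1.Stmt_AMX) (hSEF : Pool.CRD.Stmt_SEF)
    (hSGL : Pool.CRD.FB.Stmt_SGL) (hJST : Sky.Stmt_JST) : Stmt_SKV := by
  intro K _ _ _ c₁ c₂ S _ k hk n e
  obtain ⟨⟨A, -⟩, -⟩ := hAMX K c₁ c₂ S
  have hE : Effac S.R := hSEF K K (Bool × Bool) Ch2 S.R A
  refine shiftFact _ _ n (fun e => ?_) e
  obtain ⟨i, m, hm, -, ⟨θ⟩, hsupp⟩ := hJST K Ch2 S.R (Bool × Bool) A k hk
  by_cases he : ∀ e : (sgB S.R).obj k ⟶ ((sgB S.R).obj k)⟦(2 : ℤ)⟧, e = 0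
  · refine ⟨0, 0, ?_⟩
    rw [he e, zero_comp]
  push Not at he
  have hDU := hPT2 K Ch2 S.R hE (Bool × Bool) A
    (fun i M hM => (hSGL K c₁ c₂ S (A.v i).i (A.v i).j).2 M hM) k hk he
    ((sgB S.R).obj (OCoh S.R)) 0
  -- a global section
  have hnt : Nontrivial (S.R.ring (A.v i) ⧸ m) := Ideal.Quotient.nontrivial_iff.mpr hm.ne_top
  obtain ⟨y, hy⟩ := exists_ne (0 : S.R.ring (A.v i) ⧸ m)
  obtain ⟨φ, hφ⟩ := exists_map k.obj (A.v i) hsupp (θ.symm y) (by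
    intro h
    apply hy
    have := congrArg θ h
    rw [θ.apply_symm_apply] at this
    rw [this]
    exact map_zero θ)
  let ψ : OCoh S.R ⟶ k := ⟨φ⟩
  have hψ : (sgB S.R).map ψ ≠ 0 := by
    intro h
    apply hφ
    have h1 : (DerivedCategory.singleFunctor (Coh S.R) 0).map ψ =
        (DerivedCategory.singleFunctor (Coh S.R) 0).map 0 := by
      rw [Functor.map_zero]
      exact congrArg (DerivedCategory.Bounded.ι).map h
    have h2 := (DerivedCategory.singleFunctor (Coh S.R) 0).map_injective h1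
    exact congrArg (fun f => f.hom) h2
  exact fact K _ _ _ hψ hDU e

end Pool.CRD.Ph
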