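import Pool.Agent.CRD.Phi.Stmts
import Pool.Agent.CRD.T.Stmts
import Pool.Agent.CRD.D1.StmtsB
import Pool.Agent.CRD.D2.Stmts
import Pool.Agent.CRD.D2.Vb

/-!
# TRS: the trace functional on `S`
-/

open CategoryTheory Opposite Limits Pretriangulated

namespace Pool.CRD.Ph

theorem trs_proof (hD3M : Tra.Stmt_D3M) (hSRA : Pool.CRD.Stmt_SRA) (hTWK : Pool.CRD.Stmt_TWK)
    (hAMX : Pool.CRD.D1.Stmt_AMX) (hSGL : Pool.CRD.FB.Stmt_SGL) : Stmt_TRS := by
  intro K _ _ _ c₁ c₂ S _ lam hlam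
  obtain ⟨⟨A, -⟩, -⟩ := hAMX K c₁ c₂ S
  have hE : Tra.Enough S.R 2 :=
    ⟨enough_vb hSRA hTWK S.R A, fun X => (hSGL K c₁ c₂ S X.unop.i X.unop.j).2⟩
  refine hD3M K c₁ c₂ S 2 hE lam (fun f g h => (hlam f g).1 ?_) (fun f g h => (hlam f g).2 ?_)
  · rcases h with h | h
    · exact Submodule.mem_sup_left h
    · exact Submodule.mem_sup_right h
  · rcases h with h | h
    · exact Submodule.mem_sup_left h
    · exact Submodule.mem_sup_right h

end Pool.CRD.Ph
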