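import Pool.Agent.CRD.Phi.Stmts
import Pool.Agent.CRD.A0.FunL

set_option autoImplicit false

/-!
# CRD, area PHI, TWM: composition of twists on `D^b(Coh)`; twists are equivalences
-/

open CategoryTheory Opposite Limits Pretriangulated

universe w₁ w₂ w₃ v₁ v₂ v₃ u₁ u₂ u₃

namespace Pool.CRD.Ph

namespace TWM_

section
variable {A : Type u₁} [Category.{v₁} A] [Abelian A] [HasDerivedCategory.{w₁} A]
  {B : Type u₂} [Category.{v₂} B] [Abelian B] [HasDerivedCategory.{w₂} B]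
  {E : Type u₃} [Category.{v₃} E] [Abelian E] [HasDerivedCategory.{w₃} E]

/-- isomorphic exact functors give isomorphic functors on bounded derived categories -/
noncomputable def mBIso {F G : A ⥤ B} [ExF F] [ExF G] (e : F ≅ G) : mB F ≅ mB G :=
  Functor.fullyFaithfulCancelRight DerivedCategory.Bounded.ι
    (mBι F ≪≫ Functor.isoWhiskerLeft DerivedCategory.Bounded.ι (FunL.natDIso e) ≪≫ (mBι G).symm)

/-- composition -/
noncomputable def mBcomp (F : A ⥤ B) (G : B ⥤ E) [ExF F] [ExF G] :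
    mB F ⋙ mB G ≅ mB (F ⋙ G) :=
  Functor.fullyFaithfulCancelRight DerivedCategory.Bounded.ι
    (Functor.associator _ _ _ ≪≫ Functor.isoWhiskerLeft (mB F) (mBι G) ≪≫
      (Functor.associator _ _ _).symm ≪≫ Functor.isoWhiskerRight (mBι F) (mD G) ≪≫
      Functor.associator _ _ _ ≪≫
      Functor.isoWhiskerLeft DerivedCategory.Bounded.ι (FunL.compD F G) ≪≫ (mBι (F ⋙ G)).symm)

/-- identity -/
noncomputable def mBid : mB (𝟭 A) ≅ 𝟭 (DerivedCategory.Bounded A) :=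
  Functor.fullyFaithfulCancelRight DerivedCategory.Bounded.ι
    (mBι (𝟭 A) ≪≫ Functor.isoWhiskerLeft DerivedCategory.Bounded.ι (FunL.idD A) ≪≫
      Functor.rightUnitor _ ≪≫ (Functor.leftUnitor _).symm)

end

section
variable {K : Type} [Field K] {C : Type} [SmallCategory C] {R : PAlg K C}

/-- twisting twice on coherent modules -/
noncomputable def twCmul (c d : UCoc R) : twC c ⋙ twC d ≅ twC (c * d) :=
  Functor.fullyFaithfulCancelRight (IsCoh R).ι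
    (show (twC c ⋙ twC d) ⋙ (IsCoh R).ι ≅ twC (c * d) ⋙ (IsCoh R).ι from
      Functor.isoWhiskerLeft (IsCoh R).ι (UCoc.twMul c d))

noncomputable def twCone : twC (1 : UCoc R) ≅ 𝟭 (Coh R) :=
  Functor.fullyFaithfulCancelRight (IsCoh R).ι
    (show twC (1 : UCoc R) ⋙ (IsCoh R).ι ≅ 𝟭 (Coh R) ⋙ (IsCoh R).ι from
      Functor.isoWhiskerLeft (IsCoh R).ι (UCoc.twOne (R := R)))

variable [R.Good]

noncomputable def twBmul (c d : UCoc R) : twB c ⋙ twB d ≅ twB (c * d) :=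
  mBcomp (twC c) (twC d) ≪≫ mBIso (twCmul c d)

noncomputable def twBone : twB (1 : UCoc R) ≅ 𝟭 (Db R) :=
  mBIso (twCone (R := R)) ≪≫ mBid

end

end TWM_

theorem twm_proof : Stmt_TWM := by
  intro K _ C _ R _
  refine ⟨fun c d => ⟨⟨TWM_.twCmul c d⟩, ⟨TWM_.twBmul c d⟩⟩, ⟨TWM_.twCone⟩, ⟨TWM_.twBone⟩, ?_⟩
  intro c
  have h1 : c * c⁻¹ = 1 := mul_inv_cancel c
  have h2 : c⁻¹ * c = 1 := inv_mul_cancel c
  have e1 : twB c ⋙ twB c⁻¹ ≅ 𝟭 (Db R) :=
    TWM_.twBmul c c⁻¹ ≪≫ eqToIso (by rw [h1]) ≪≫ TWM_.twBone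
  have e2 : twB c⁻¹ ⋙ twB c ≅ 𝟭 (Db R) :=
    TWM_.twBmul c⁻¹ c ≪≫ eqToIso (by rw [h2]) ≪≫ TWM_.twBone
  exact (CategoryTheory.Equivalence.mk (twB c) (twB c⁻¹) e1.symm e2).isEquivalence_functor

end Pool.CRD.Ph
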