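import Pool.Agent.CRD.Phi.Stmts

/-!
# CRD / Phi: VNC
-/

open CategoryTheory Opposite Limits Pretriangulated

namespace Pool.CRD.Ph

theorem vnc_proof : Stmt_VNC := by
  intro K _ T _ _ _ _ _ _ _ T' _ _ _ _ _ _ _ F _ _ φ k O h1 h2
  ext x
  obtain ⟨e', he'⟩ := F.map_surjective (x ≫ (F.commShiftIso (2 : ℤ)).inv.app k)
  obtain ⟨b, a, hab⟩ := h1 e'
  have hx : x = (F.map a ≫ (F.commShiftIso (2 : ℤ)).hom.app O) ≫ (F.map b)⟦(2 : ℤ)⟧' := by
    have h3 : x = F.map e' ≫ (F.commShiftIso (2 : ℤ)).hom.app k := by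
      rw [he', Category.assoc, Iso.inv_hom_id_app]
      exact (Category.comp_id x).symm
    rw [h3, hab, F.map_comp, Category.assoc, Category.assoc, F.commShiftIso_hom_naturality]
  rw [hx, ← φ.cyc, ← Category.assoc, ← F.map_comp, h2, LinearMap.zero_apply]

end Pool.CRD.Ph
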