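import Pool.Agent.CRD.Phi.Stmts
import Pool.Agent.CRD.D2.Fin
import Pool.Agent.CRD.Br.Asm

/-!
# CRD: assembly of the interface `IX` for the threefold
-/

open CategoryTheory Opposite Limits Pretriangulated

namespace Pool.CRD.Ph

theorem ixt_proof (hD2F : FB.Stmt_D2F) (hD4A : Stmt_D4A) (hGOX : D1.Stmt_GOX) (hPOK : Stmt_POK) :
    Stmt_IXT := by
  intro K _ _ _ c₁ c₂ S X _ h1 h2 hS
  haveI : S.R.Good := (hGOX K c₁ c₂ S).1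
  haveI : X.POK := hPOK K c₁ c₂ S X
  obtain ⟨hf, r, d, hr, hd, he, hP⟩ := hD2F K c₁ c₂ S X h1 h2 hS
  obtain ⟨c, φ, ρ, a1, a2, a3, a4⟩ := hD4A K c₁ c₂ S X (by omega) (by omega)
  refine ⟨r, d, c, φ, ρ, hf, he, a1, a2, a3, fun P hPP => ?_⟩
  obtain ⟨n, r', d', b1, b2, b3, b4⟩ := hP P hPP
  refine ⟨n, r', d', b1, b2, b3, fun hr' i hd' => ?_⟩
  obtain ⟨m, k, hk, ⟨e⟩⟩ := b4 hr' i hd'
  have h := a4 i m k hk
  ext x
  rw [(φ i).iso_inv e, h]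
  rfl

end Pool.CRD.Ph
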