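import Pool.Agent.CRD.Phi.Stmts

/-!
# CRD, area PHI: KSH, the class of a self-extension and the shift
-/

open CategoryTheory Opposite Limits Pretriangulated

namespace Pool.CRD.Ph

namespace KSH_

section abs

universe v₁ v₂ u₁ u₂

variable {C₀ : Type u₁} [Category.{v₁} C₀] [Preadditive C₀] [HasShift C₀ ℤ]
  {D₀ : Type u₂} [Category.{v₂} D₀] [Preadditive D₀] [HasShift D₀ ℤ]
  (Q : C₀ ⥤ D₀) [Q.Additive] [Q.CommShift ℤ]

lemma abs1 {K M P P' : C₀} (n : ℤ) (b0 : P ⟶ M) (t : P ⟶ K⟦(1 : ℤ)⟧) (a : P⟦n⟧ ⟶ P')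
    (b : P' ⟶ M⟦n⟧) (t' : P' ⟶ (K⟦n⟧)⟦(1 : ℤ)⟧) (h4 : a ≫ b = b0⟦n⟧')
    (h5 : a ≫ t' = n.negOnePow • (t⟦n⟧' ≫ (shiftFunctorComm C₀ (1 : ℤ) n).hom.app K))
    (δ : Q.obj M ⟶ (Q.obj K)⟦(1 : ℤ)⟧) (h3 : Q.map b0 ≫ δ = Q.map t ≫
      (Q.commShiftIso (1 : ℤ)).hom.app K)
    (δ' : Q.obj (M⟦n⟧) ⟶ (Q.obj (K⟦n⟧))⟦(1 : ℤ)⟧) (h2 : Q.map b ≫ δ' = Q.map t' ≫
      (Q.commShiftIso (1 : ℤ)).hom.app (K⟦n⟧)) [Epi (Q.map a)] [Epi (Q.map b)] :
    δ' = n.negOnePow • ((Q.commShiftIso n).hom.app M ≫ δ⟦n⟧' ≫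
      (shiftComm (Q.obj K) (1 : ℤ) n).hom ≫ ((Q.commShiftIso n).inv.app K)⟦(1 : ℤ)⟧') := by
  have h7 : Q.map (b0⟦n⟧') ≫
      (Q.commShiftIso n).hom.app M = (Q.commShiftIso n).hom.app P ≫ (Q.map b0)⟦n⟧' :=
    Functor.commShiftIso_hom_naturality _ _ _
  have h8 : Q.map (t⟦n⟧') ≫
      (Q.commShiftIso n).hom.app _ = (Q.commShiftIso n).hom.app P ≫ (Q.map t)⟦n⟧' :=
    Functor.commShiftIso_hom_naturality _ _ _
  rw [← cancel_epi (Q.map b), ← cancel_epi (Q.map a), h2, ← Functor.map_comp_assoc, h5,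
    Units.smul_def, Functor.map_zsmul, Functor.map_comp, Functor.map_shiftFunctorComm,
    Linear.comp_units_smul, Linear.comp_units_smul, ← Functor.map_comp_assoc, h4, reassoc_of% h7,
    ← Functor.map_comp_assoc, h3, Functor.map_comp_assoc, ← reassoc_of% h8, Preadditive.zsmul_comp,
    Units.smul_def]
  simp

lemma abs2 {X Y : D₀} {K : D₀} (ε : ℤˣ) (c : X ⟶ K) [IsIso c] (ci : K ⟶ X)
    (hci : ci ≫ c = 𝟙 K) (k : K ⟶ K⟦(1 : ℤ)⟧) (k' : X ⟶ X⟦(1 : ℤ)⟧)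
    (h1 : c ≫ k = k' ≫ c⟦(1 : ℤ)⟧') (d : K ⟶ Y) (m : Y ⟶ K⟦(1 : ℤ)⟧)
    (h3 : k' = ε • (c ≫ d ≫ m ≫ ci⟦(1 : ℤ)⟧')) : k = ε • (d ≫ m) := by
  rw [← cancel_epi c, h1, h3, Linear.comp_units_smul, Linear.units_smul_comp]
  congr 1
  simp only [Category.assoc, ← Functor.map_comp, hci, CategoryTheory.Functor.map_id,
    Category.comp_id]

lemma abs3 {X Y : D₀} (n : ℤ) (ε : ℤˣ) (e : X ≅ Y) (k : X ⟶ X⟦(1 : ℤ)⟧) (l : Y ⟶ Y⟦(1 : ℤ)⟧)
    (h1 : e.hom ≫ l = k ≫ e.hom⟦(1 : ℤ)⟧') (kn : X⟦n⟧ ⟶ X⟦n⟧⟦(1 : ℤ)⟧)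
    (ln : Y⟦n⟧ ⟶ Y⟦n⟧⟦(1 : ℤ)⟧) (h2 : e.hom⟦n⟧' ≫ ln = kn ≫ (e.hom⟦n⟧')⟦(1 : ℤ)⟧')
    (h3 : kn = ε • (k⟦n⟧' ≫ (shiftComm X (1 : ℤ) n).hom)) :
    ln = ε • (l⟦n⟧' ≫ (shiftComm Y (1 : ℤ) n).hom) := by
  rw [← cancel_epi (e.hom⟦n⟧'), h2, h3, Linear.comp_units_smul, Linear.units_smul_comp]
  congr 1
  rw [Category.assoc, shiftComm_hom_comp, ← Functor.map_comp_assoc, ← Functor.map_comp_assoc, h1]

end abs

open CochainComplex DerivedCategory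

variable {A : Type 1} [Category.{0} A] [Abelian A] [HasDerivedCategory.{1} A]

omit [HasDerivedCategory.{1} A] in
/-- the shift of the map from the mapping cone -/
lemma shiftIso_desc {K L M : CochainComplex A ℤ} (f : K ⟶ L) (g : L ⟶ M) (w : f ≫ g = 0) (n : ℤ)
    (w' : f⟦n⟧' ≫ g⟦n⟧' = 0) :
    (mappingCone.shiftIso f n).hom ≫
      mappingCone.descShortComplex (ShortComplex.mk (f⟦n⟧') (g⟦n⟧') w') =
    (mappingCone.descShortComplex (ShortComplex.mk f g w))⟦n⟧' := by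
  rw [← Iso.eq_inv_comp]
  ext p
  rw [mappingCone.ext_from_iff _ (p + 1) p rfl]
  constructor
  · rw [mappingCone.inl_v_descShortComplex_f, mappingCone.shiftIso]
    dsimp only
    rw [HomologicalComplex.comp_f, mappingCone.inl_v_desc_f_assoc, HomComplex.Cochain.units_smul_v,
      HomComplex.Cochain.shift_v', shiftFunctor_map_f']
    have h := mappingCone.inl_v_descShortComplex_f (ShortComplex.mk f g w) (p + 1 + n) (p + n)
      (by omega)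
    have h' : (n.negOnePow • (mappingCone.inl f).v (p + 1 + n) (p + n) (by omega)) ≫
        (mappingCone.descShortComplex (ShortComplex.mk f g w)).f (p + n) = 0 := by
      rw [Linear.units_smul_comp]
      erw [h]
      exact smul_zero _
    exact h'.symm
  · rw [mappingCone.inr_f_descShortComplex_f, mappingCone.shiftIso]
    dsimp only
    rw [HomologicalComplex.comp_f, mappingCone.inr_f_desc_f_assoc, shiftFunctor_map_f',
      shiftFunctor_map_f', shiftFunctor_map_f']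
    exact (mappingCone.inr_f_descShortComplex_f (ShortComplex.mk f g w) (p + n)).symm

/-- the connecting morphism and the shift -/
lemma delta_shift {K L M : CochainComplex A ℤ} (f : K ⟶ L) (g : L ⟶ M) (w : f ≫ g = 0) (n : ℤ)
    (w' : f⟦n⟧' ≫ g⟦n⟧' = 0) (hS : (ShortComplex.mk f g w).ShortExact)
    (hS' : (ShortComplex.mk (f⟦n⟧') (g⟦n⟧') w').ShortExact) :
    triangleOfSESδ hS' = n.negOnePow • ((Q.commShiftIso n).hom.app M ≫ (triangleOfSESδ hS)⟦n⟧' ≫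
      (shiftComm (Q.obj K) (1 : ℤ) n).hom ≫ ((Q.commShiftIso n).inv.app K)⟦(1 : ℤ)⟧') := by
  have h1 := mappingCone.quasiIso_descShortComplex hS'
  have h5 : (mappingCone.shiftIso f n).hom ≫ (mappingCone.triangle (f⟦n⟧')).mor₃ =
      n.negOnePow • (((mappingCone.triangle f).mor₃)⟦n⟧' ≫
        (shiftFunctorComm (CochainComplex A ℤ) (1 : ℤ) n).hom.app K) := by
    refine (mappingCone.shiftTriangleIso f n).hom.comm₃.symm.trans ?_
    change (n.negOnePow • ((mappingCone.triangle f).mor₃)⟦n⟧' ≫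
        (shiftFunctorComm (CochainComplex A ℤ) (1 : ℤ) n).hom.app K) ≫ (𝟙 _)⟦(1 : ℤ)⟧' = _
    rw [CategoryTheory.Functor.map_id]
    exact Category.comp_id _
  exact abs1 Q n _ _ _ _ _ (shiftIso_desc f g w n w') h5 _ (descShortComplex_triangleOfSESδ hS) _
    (descShortComplex_triangleOfSESδ hS')

omit [HasDerivedCategory.{1} A] in
lemma w_shift (s : SelfExt A) (K : CochainComplex A ℤ) (n : ℤ) :
    (s.iC K)⟦n⟧' ≫ (s.pC K)⟦n⟧' = 0 := by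
  rw [← Functor.map_comp]
  have h : s.iC K ≫ s.pC K = 0 := (s.sC K).zero
  rw [h, Functor.map_zero]

omit [HasDerivedCategory.{1} A] in
lemma se_shift (s : SelfExt A) (K : CochainComplex A ℤ) (n : ℤ) :
    (ShortComplex.mk ((s.iC K)⟦n⟧') ((s.pC K)⟦n⟧') (w_shift s K n)).ShortExact :=
  (s.sC_se K).map_of_exact (shiftFunctor (CochainComplex A ℤ) n)

/-- comparison of the short exact sequences -/
noncomputable def cS (s : SelfExt A) (K : CochainComplex A ℤ) (n : ℤ) :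
    ShortComplex.mk ((s.iC K)⟦n⟧') ((s.pC K)⟦n⟧') (w_shift s K n) ⟶ s.sC (K⟦n⟧) where
  τ₁ := 𝟙 _
  τ₂ := ((s.E.mapHomologicalComplex (ComplexShape.up ℤ)).commShiftIso n).inv.app K
  τ₃ := 𝟙 _
  comm₁₂ := by
    ext p
    refine (Category.id_comp _).trans (Category.comp_id _).symm
  comm₂₃ := by
    ext p
    refine (Category.id_comp _).trans (Category.comp_id _).symm

lemma delta_cS (s : SelfExt A) (K : CochainComplex A ℤ) (n : ℤ) :
    triangleOfSESδ (se_shift s K n) = triangleOfSESδ (s.sC_se (K⟦n⟧)) := by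
  have h1 := triangleOfSESδ_naturality (se_shift s K n) (s.sC_se (K⟦n⟧)) (cS s K n)
  have e1 : (Q.map (cS s K n).τ₁)⟦(1 : ℤ)⟧' = 𝟙 _ :=
    (congrArg (fun f => f⟦(1 : ℤ)⟧') (Q.map_id _)).trans (CategoryTheory.Functor.map_id _ _)
  have e3 : Q.map (cS s K n).τ₃ = 𝟙 _ := Q.map_id _
  exact (Category.comp_id _).symm.trans ((congrArg _ e1.symm).trans (h1.trans
    ((congrArg (· ≫ _) e3).trans (Category.id_comp _))))

lemma ksh_Q (s : SelfExt A) (K : CochainComplex A ℤ) (n : ℤ) :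
    s.κ.app ((Q.obj K)⟦n⟧) =
      n.negOnePow • ((s.κ.app (Q.obj K))⟦n⟧' ≫ (shiftComm (Q.obj K) (1 : ℤ) n).hom) := by
  have h1 := s.κ.naturality ((Q.commShiftIso n).hom.app K)
  have h2 : s.κ.app (Q.obj (K⟦n⟧)) = triangleOfSESδ (se_shift s K n) :=
    (s.κ_Q (K⟦n⟧)).trans (delta_cS s K n).symm
  have h3 := delta_shift (s.iC K) (s.pC K) (s.sC K).zero n (w_shift s K n) (s.sC_se K)
    (se_shift s K n)
  have h4 : s.κ.app (Q.obj K) = triangleOfSESδ (s.sC_se K) := s.κ_Q K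
  rw [h4]
  exact abs2 (K := (Q.obj K)⟦n⟧) n.negOnePow ((Q.commShiftIso n).hom.app K)
    ((Q.commShiftIso n).inv.app K) (Iso.inv_hom_id_app _ _) _ _ h1 _ _ (h2.trans h3)

end KSH_

open KSH_ in
theorem ksh_proof : Stmt_KSH := by
  intro A _ _ _ s X n
  obtain ⟨K, ⟨e⟩⟩ : ∃ K, Nonempty (DerivedCategory.Q.obj K ≅ X) :=
    ⟨_, ⟨DerivedCategory.Q.objObjPreimageIso X⟩⟩
  have h1 := ksh_Q s K n
  have h2 := s.κ.naturality (e.hom⟦n⟧')
  have h3 := s.κ.naturality e.hom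
  exact abs3 n n.negOnePow e _ _ h3 _ _ h2 h1

end Pool.CRD.Ph
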