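import Pool.Agent.CRD.Phi.Stmts

open CategoryTheory Opposite Limits Pretriangulated

namespace Pool.CRD.Ph

namespace RPR_

/-- universal arrows `F R ⟶ Y` -/
def Univ {T : Type 1} [Category.{1} T] {T' : Type 1} [Category.{1} T'] (F : T ⥤ T')
    {R : T} {Y : T'} (e : F.obj R ⟶ Y) : Prop :=
  ∀ N : T, Function.Bijective (fun f : N ⟶ R => F.map f ≫ e)

section
variable {T : Type 1} [Category.{1} T] {T' : Type 1} [Category.{1} T'] (F : T ⥤ T')

lemma defined_of_univ {R : T} {Y : T'} (e : F.obj R ⟶ Y) (h : Univ F e) :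
    F.rightAdjointObjIsDefined Y := by
  let r : (F.op ⋙ yoneda.obj Y).RepresentableBy R :=
    { homEquiv := fun {N} => Equiv.ofBijective _ (h N)
      homEquiv_comp := fun {N N'} f g => by
        change F.map (f ≫ g) ≫ e = F.map f ≫ (F.map g ≫ e)
        rw [F.map_comp, Category.assoc] }
  exact r.isRepresentable

lemma univ_of_defined {Y : T'} (h : F.rightAdjointObjIsDefined Y) :
    ∃ (R : T) (e : F.obj R ⟶ Y), Univ F e := by
  have hr : (F.op ⋙ yoneda.obj Y).IsRepresentable := h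
  obtain ⟨R, ⟨r⟩⟩ := hr.has_representation
  refine ⟨R, r.homEquiv (𝟙 R), fun N => ?_⟩
  have h1 : (fun f : N ⟶ R => F.map f ≫ r.homEquiv (𝟙 R)) = fun f => r.homEquiv f := by
    funext f
    rw [r.homEquiv_eq f]
    rfl
  rw [h1]
  exact r.homEquiv.bijective

lemma univ_iso {R : T} {Y Y' : T'} (e : F.obj R ⟶ Y) (h : Univ F e) (i : Y ≅ Y') :
    Univ F (e ≫ i.hom) := by
  intro N
  constructor
  · intro f g hfg
    apply (h N).1
    have h1 : (F.map f ≫ e) ≫ i.hom = (F.map g ≫ e) ≫ i.hom := by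
      simpa only [Category.assoc] using hfg
    exact (cancel_mono i.hom).1 h1
  · intro k
    obtain ⟨f, hf⟩ := (h N).2 (k ≫ i.inv)
    refine ⟨f, ?_⟩
    change F.map f ≫ e = k ≫ i.inv at hf
    change F.map f ≫ e ≫ i.hom = k
    rw [← Category.assoc, hf, Category.assoc, i.inv_hom_id, Category.comp_id]

/-- bijectivity for all `N` follows from bijectivity for all objects isomorphic to `N` -/
lemma bij_of_iso {R : T} {Y : T'} (e : F.obj R ⟶ Y) {N N' : T} (i : N ≅ N')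
    (h : Function.Bijective (fun f : N ⟶ R => F.map f ≫ e)) :
    Function.Bijective (fun f : N' ⟶ R => F.map f ≫ e) := by
  constructor
  · intro f g hfg
    have h1 : F.map (i.hom ≫ f) ≫ e = F.map (i.hom ≫ g) ≫ e := by
      rw [F.map_comp, F.map_comp, Category.assoc, Category.assoc]
      exact congrArg (fun t => F.map i.hom ≫ t) hfg
    exact (cancel_epi i.hom).1 (h.1 h1)
  · intro k
    obtain ⟨f, hf⟩ := h.2 (F.map i.hom ≫ k)
    refine ⟨i.inv ≫ f, ?_⟩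
    change F.map f ≫ e = F.map i.hom ≫ k at hf
    change F.map (i.inv ≫ f) ≫ e = k
    rw [F.map_comp, Category.assoc, hf, ← Category.assoc, ← F.map_comp, i.inv_hom_id, F.map_id,
      Category.id_comp]

end

section
variable {T : Type 1} [Category.{1} T] [HasShift T ℤ] {T' : Type 1} [Category.{1} T']
  [HasShift T' ℤ] (F : T ⥤ T') [F.CommShift ℤ]

lemma shift_nat {N R : T} (n : ℤ) (g : N ⟶ R) :
    F.map (g⟦n⟧') ≫ (F.commShiftIso n).hom.app R =
      (F.commShiftIso n).hom.app N ≫ (F.map g)⟦n⟧' :=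
  (F.commShiftIso n).hom.naturality g

lemma univ_shift {R : T} {Y : T'} (e : F.obj R ⟶ Y) (h : Univ F e) (n : ℤ) :
    Univ F ((F.commShiftIso n).hom.app R ≫ e⟦n⟧') := by
  have key : ∀ N : T, Function.Bijective
      (fun f : N⟦n⟧ ⟶ R⟦n⟧ => F.map f ≫ (F.commShiftIso n).hom.app R ≫ e⟦n⟧') := by
    intro N
    constructor
    · intro f g hfg
      obtain ⟨f', rfl⟩ := (shiftFunctor T n).map_surjective f
      obtain ⟨g', rfl⟩ := (shiftFunctor T n).map_surjective g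
      have e1 : ∀ k : N ⟶ R, F.map (k⟦n⟧') ≫ (F.commShiftIso n).hom.app R ≫ e⟦n⟧' =
          (F.commShiftIso n).hom.app N ≫ (F.map k ≫ e)⟦n⟧' := by
        intro k
        rw [← Category.assoc, shift_nat, Category.assoc, ← Functor.map_comp]
      have h1 := hfg
      change F.map (f'⟦n⟧') ≫ _ = F.map (g'⟦n⟧') ≫ _ at h1
      rw [e1, e1] at h1
      have h2 := (cancel_epi ((F.commShiftIso n).hom.app N)).1 h1
      have h3 := (shiftFunctor T' n).map_injective h2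
      rw [(h N).1 h3]
    · intro k
      obtain ⟨k', hk'⟩ := (shiftFunctor T' n).map_surjective ((F.commShiftIso n).inv.app N ≫ k)
      obtain ⟨f, hf⟩ := (h N).2 k'
      refine ⟨f⟦n⟧', ?_⟩
      change F.map (f⟦n⟧') ≫ (F.commShiftIso n).hom.app R ≫ e⟦n⟧' = k
      change F.map f ≫ e = k' at hf
      rw [← Category.assoc, shift_nat, Category.assoc, ← Functor.map_comp, hf, hk',
        ← Category.assoc, ← NatTrans.comp_app, Iso.hom_inv_id, NatTrans.id_app]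
      exact Category.id_comp k
  intro N
  exact bij_of_iso F _ (((shiftEquiv T n).symm).unitIso.symm.app N) (key (N⟦-n⟧))

end

section
variable {T : Type 1} [Category.{1} T] [HasZeroObject T] [HasShift T ℤ] [Preadditive T]
    [∀ (n : ℤ), (shiftFunctor T n).Additive] [Pretriangulated T]
    {T' : Type 1} [Category.{1} T'] [HasZeroObject T'] [HasShift T' ℤ] [Preadditive T']
    [∀ (n : ℤ), (shiftFunctor T' n).Additive] [Pretriangulated T']
    (F : T ⥤ T') [F.CommShift ℤ] [F.IsTriangulated]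

lemma map_zero' (N R : T) : F.map (0 : N ⟶ R) = 0 := F.map_zero N R

lemma univ_zero {R : T} {Y : T'} (e : F.obj R ⟶ Y) (h : Univ F e) {N : T} (f : N ⟶ R)
    (hf : F.map f ≫ e = 0) : f = 0 := by
  apply (h N).1
  change F.map f ≫ e = F.map 0 ≫ e
  rw [hf, map_zero', zero_comp]

lemma univ_ext (Δ : Triangle T') (hΔ : Δ ∈ distTriang T') {R₁ R₃ : T}
    (e₁ : F.obj R₁ ⟶ Δ.obj₁) (h₁ : Univ F e₁) (e₃ : F.obj R₃ ⟶ Δ.obj₃) (h₃ : Univ F e₃) :
    ∃ (R₂ : T) (e₂ : F.obj R₂ ⟶ Δ.obj₂), Univ F e₂ := by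
  have h₁' := univ_shift F e₁ h₁ (1 : ℤ)
  obtain ⟨u, hu⟩ := (h₁' R₃).2 (e₃ ≫ Δ.mor₃)
  change F.map u ≫ (F.commShiftIso (1 : ℤ)).hom.app R₁ ≫ e₁⟦(1 : ℤ)⟧' = e₃ ≫ Δ.mor₃ at hu
  obtain ⟨R₂, i, p, hR⟩ := distinguished_cocone_triangle₂ u
  have hFR := F.map_distinguished _ hR
  have hex : ∃ e₂ : F.obj R₂ ⟶ Δ.obj₂, F.map i ≫ e₂ = e₁ ≫ Δ.mor₁ ∧
      F.map p ≫ e₃ = e₂ ≫ Δ.mor₂ := by
    obtain ⟨e₂, he, he'⟩ := complete_distinguished_triangle_morphism₂ _ Δ hFR hΔ e₁ e₃ (by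
      change (F.map u ≫ (F.commShiftIso (1 : ℤ)).hom.app R₁) ≫ e₁⟦(1 : ℤ)⟧' = e₃ ≫ Δ.mor₃
      rw [Category.assoc, hu])
    exact ⟨e₂, he, he'⟩
  obtain ⟨e₂, he, he'⟩ := hex
  have hiu : u ≫ i⟦(1 : ℤ)⟧' = 0 := comp_distTriang_mor_zero₃₁ _ hR
  refine ⟨R₂, e₂, fun N => ⟨?_, ?_⟩⟩
  · intro f f' hff
    change F.map f ≫ e₂ = F.map f' ≫ e₂ at hff
    rw [← sub_eq_zero]
    have hf : F.map (f - f') ≫ e₂ = 0 := by
      rw [F.map_sub, Preadditive.sub_comp, hff, sub_self]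
    generalize f - f' = f at hf
    have hfp : f ≫ p = 0 := by
      apply univ_zero F e₃ h₃
      rw [F.map_comp, Category.assoc, he', ← Category.assoc, hf, zero_comp]
    have hg0 : ∃ g : N ⟶ R₁, f = g ≫ i := Triangle.coyoneda_exact₂ _ hR f hfp
    obtain ⟨g, hg⟩ := hg0
    have hga : (F.map g ≫ e₁) ≫ Δ.mor₁ = 0 := by
      rw [Category.assoc, ← he, ← Category.assoc, ← F.map_comp, ← hg, hf]
    have hk0 : ∃ k : (F.obj N)⟦(1 : ℤ)⟧ ⟶ Δ.obj₃, (F.map g ≫ e₁)⟦(1 : ℤ)⟧' = k ≫ Δ.mor₃ :=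
      Triangle.coyoneda_exact₁ _ hΔ ((F.map g ≫ e₁)⟦(1 : ℤ)⟧') (by
        rw [← Functor.map_comp, hga, Functor.map_zero])
    obtain ⟨k, hk⟩ := hk0
    obtain ⟨k', hk'⟩ := (h₃ (N⟦(1 : ℤ)⟧)).2 ((F.commShiftIso (1 : ℤ)).hom.app N ≫ k)
    change F.map k' ≫ e₃ = (F.commShiftIso (1 : ℤ)).hom.app N ≫ k at hk'
    have hku : k' ≫ u = g⟦(1 : ℤ)⟧' := by
      apply (h₁' (N⟦(1 : ℤ)⟧)).1
      change F.map (k' ≫ u) ≫ (F.commShiftIso (1 : ℤ)).hom.app R₁ ≫ e₁⟦(1 : ℤ)⟧' =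
        F.map (g⟦(1 : ℤ)⟧') ≫ (F.commShiftIso (1 : ℤ)).hom.app R₁ ≫ e₁⟦(1 : ℤ)⟧'
      rw [F.map_comp, Category.assoc, hu, ← Category.assoc, hk', Category.assoc, ← hk,
        ← Category.assoc (F.map (g⟦(1 : ℤ)⟧')), shift_nat, Category.assoc, ← Functor.map_comp]
    have hgi : (g ≫ i)⟦(1 : ℤ)⟧' = 0 := by
      rw [Functor.map_comp, ← hku, Category.assoc, hiu, comp_zero]
    rw [hg]
    apply (shiftFunctor T (1 : ℤ)).map_injective
    rw [hgi, Functor.map_zero]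
  · intro h
    obtain ⟨q, hq⟩ := (h₃ N).2 (h ≫ Δ.mor₂)
    change F.map q ≫ e₃ = h ≫ Δ.mor₂ at hq
    have hqu : q ≫ u = 0 := by
      apply univ_zero F _ h₁'
      rw [F.map_comp, Category.assoc, hu, ← Category.assoc, hq, Category.assoc,
        comp_distTriang_mor_zero₂₃ _ hΔ, comp_zero]
    have hq0 : ∃ q' : N ⟶ R₂, q = q' ≫ p := Triangle.coyoneda_exact₃ _ hR q hqu
    obtain ⟨q', hq'⟩ := hq0
    obtain ⟨l, hl⟩ := Triangle.coyoneda_exact₂ _ hΔ (F.map q' ≫ e₂ - h) (by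
      rw [Preadditive.sub_comp, Category.assoc, ← he', ← Category.assoc, ← F.map_comp, ← hq',
        hq, sub_self])
    obtain ⟨m, hm⟩ := (h₁ N).2 l
    change F.map m ≫ e₁ = l at hm
    refine ⟨q' - m ≫ i, ?_⟩
    change F.map (q' - m ≫ i) ≫ e₂ = h
    rw [F.map_sub, Preadditive.sub_comp, F.map_comp, Category.assoc, he, ← Category.assoc, hm,
      ← hl, sub_sub_cancel]

end

end RPR_

/-- module RPR -/
theorem rpr_proof : Stmt_RPR := by
  intro T _ _ _ _ _ _ T' _ _ _ _ _ _ F _ _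
  refine ⟨⟨?_⟩, ?_, ?_⟩
  · intro X Y i hX
    obtain ⟨R, e, he⟩ := RPR_.univ_of_defined F hX
    exact RPR_.defined_of_univ F _ (RPR_.univ_iso F e he i)
  · intro X n hX
    obtain ⟨R, e, he⟩ := RPR_.univ_of_defined F hX
    exact RPR_.defined_of_univ F _ (RPR_.univ_shift F e he n)
  · intro Δ hΔ h1 h3
    obtain ⟨R₁, e₁, he₁⟩ := RPR_.univ_of_defined F h1
    obtain ⟨R₃, e₃, he₃⟩ := RPR_.univ_of_defined F h3
    obtain ⟨R₂, e₂, he₂⟩ := RPR_.univ_ext F Δ hΔ e₁ he₁ e₃ he₃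
    exact RPR_.defined_of_univ F _ he₂

end Pool.CRD.Ph
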