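import Pool.Agent.CRD.Phi.Stmts
import Pool.Agent.CRD.G.StmtsD
import Pool.Agent.CRD.B.Stmts
import Pool.Agent.CRD.D1.StmtsB

/-!
# CRD, area PHI: statements of the other areas in the form used in area PHI
-/

open CategoryTheory Opposite Limits Pretriangulated

namespace Pool.CRD.Ph

theorem efs_proof (hSEF : Stmt_SEF) (hAMX : D1.Stmt_AMX) : G.Stmt_EFS := by
  intro K _ _ _ c₁ c₂ S _
  obtain ⟨⟨A, _⟩, _⟩ := hAMX K c₁ c₂ S
  exact hSEF K K (Bool × Bool) Ch2 S.R A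

theorem efx_proof (hSEF : Stmt_SEF) (hAMX : D1.Stmt_AMX) : G.Stmt_EFX := by
  intro K _ _ _ c₁ c₂ S X _
  obtain ⟨A, _⟩ := (hAMX K c₁ c₂ S).2 X
  exact hSEF K K (Bool × Bool × Bool) Ch3 X.R A

theorem ler_proof (h : G.Stmt_LER) (h1 : G.Stmt_EFS) (h2 : G.Stmt_EFX) : Stmt_LER := by
  intro K _ _ _ c₁ c₂ S X _ _ _ M hM
  exact h K c₁ c₂ S X (h1 K c₁ c₂ S) (h2 K c₁ c₂ S X) M hM

theorem ffp_proof (h : G.Stmt_FPD) (h1 : G.Stmt_EFS) (h2 : G.Stmt_EFX) : Stmt_FFP := by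
  intro K _ _ _ c₁ c₂ S X _ _ _
  exact h K c₁ c₂ S X (h1 K c₁ c₂ S) (h2 K c₁ c₂ S X)

namespace RSV_

variable {K : Type} [Field K] {c₁ c₂ : CurveData K} {S : SurfData c₁ c₂} (X : ConicData S)

lemma zpow_u {C : Type} [SmallCategory C] {R : PAlg K C} (c : UCoc R) (m : ℤ) {X Y : Cᵒᵖ}
    (f : X ⟶ Y) : (c ^ m).u f = (c.u f) ^ m := by
  cases m with
  | ofNat m =>
    rw [Int.ofNat_eq_natCast, zpow_natCast, zpow_natCast]
    exact ucoc_pow c m f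
  | negSucc m =>
    rw [zpow_negSucc, zpow_negSucc, ← ucoc_pow c (m + 1) f]
    rfl

lemma nX_u (s : Ch2) {k k' : Cov Bool} (h : k' ≤ k) (m : ℤ) :
    (X.nX ^ m).u (homOfLE (G.c3_mono (le_refl s) h)).op = 1 := by
  rw [zpow_u]
  have : X.nX.u (homOfLE (G.c3_mono (le_refl s) h)).op = 1 := by
    apply Units.ext
    apply Subtype.ext
    change (algebraMap S.L X.E (S.h₁ s.i))⁻¹ / (algebraMap S.L X.E (S.h₁ s.i))⁻¹ = 1
    refine div_self (inv_ne_zero ?_)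
    simp [SurfData.h₁, c₁.h_ne s.i]
  rw [this, one_zpow]

lemma cab_bot' (k : Cov Bool) : cab ≤ k := G.cab_bot k

end RSV_

open RSV_ in
theorem rsv_proof (h : G.Stmt_RSE) : Stmt_RSV := by
  intro K _ _ c₁ c₂ S X _ M
  obtain ⟨d₀, hd⟩ := h K c₁ c₂ S X M.obj M.property
  refine ⟨d₀, fun d m hdm s => ?_⟩
  obtain ⟨e, rfl⟩ : ∃ e : ℕ, d = e := ⟨d.toNat, (Int.toNat_of_nonneg (by omega)).symm⟩
  have h1 := hd e (by omega) s
  have hv : ∀ {k k' : Cov Bool} (hk : k' ≤ k),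
      (X.wi ^ (e : ℤ) * X.nX ^ m).v (homOfLE (G.c3_mono (le_refl s) hk)).op =
        (X.wi ^ e).v (homOfLE (G.c3_mono (le_refl s) hk)).op := by
    intro k k' hk
    rw [UCoc.mul_v, zpow_natCast]
    refine (congrArg (fun r => (X.wi ^ e).v (homOfLE (G.c3_mono (le_refl s) hk)).op * r)
      (?_ : (X.nX ^ m).v (homOfLE (G.c3_mono (le_refl s) hk)).op = 1)).trans (mul_one _)
    unfold UCoc.v
    rw [nX_u X s hk m]
    rfl
  have key : ∀ {k k' : Cov Bool} (hk : k' ≤ k) (x : M.obj.obj (op (G.c3 s k))),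
      (rs (((X.wi ^ (e : ℤ) * X.nX ^ m)).tw.obj M.obj) (homOfLE (G.c3_mono (le_refl s) hk)).op x :
        M.obj.obj (op (G.c3 s k'))) =
      rs ((X.wi ^ e).tw.obj M.obj) (homOfLE (G.c3_mono (le_refl s) hk)).op x := by
    intro k k' hk x
    exact congrArg (fun r : X.R.toRing.obj (op (G.c3 s k')) =>
      (r • rs M.obj (homOfLE (G.c3_mono (le_refl s) hk)).op x : M.obj.obj (op (G.c3 s k'))))
      (hv hk)
  intro b
  obtain ⟨x, y, hxy⟩ := h1 b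
  exact ⟨x, y, hxy.trans (congrArg₂ (· + ·) (key (cab_bot' _) x).symm (key (cab_bot' _) y).symm)⟩

end Pool.CRD.Ph
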